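import Pool.Agent.Work.MP_9a767b_pr.Z.Rsw

/-!
# CircP: circuits have probability bounded below at every scale, and independent scales

PROOF. `circ_pr`: by `harris` (three times; all four events depend only on
`EB (-3r) (3r+1) (-3r) (3r)`, `dep_mono`) `Pr (Circ O r)` is at least the product of the probabilities of the
four crossings; by `pr_lr`, `pr_bt` they are `hh ν (6r+1) (2r-1)` (twice) and `hh ν (6r) (2r-1)` (twice), at
least `2^(-43)` by `rsw` and `hh_mono`.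
`no_circ`: induction on `K` with `pr_and`: the event for `k < K` depends only on
`EB (-3·3^K) (3·3^K+1) (-3·3^K) (3·3^K)` (`dep_circ`, `dep_mono`) and `Circ O (3^(K+1))` is independent of it
(`circ_disj` with `r = 3^K`, `r' = 3^(K+1)`); `pr_not`. The boxes are increasing in `k`. (For `K = 0` the
probability is at most `1`.)
-/

open MeasureTheory ProbabilityTheory Filter Topology

namespace Pool.Agent.Work.MP_9a767b_pr.Z

private theorem EB_sub {a b c d a' b' c' d' : ℤ} (h1 : a' ≤ a) (h2 : b ≤ b') (h3 : c' ≤ c)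
    (h4 : d ≤ d') : EB a b c d ⊆ EB a' b' c' d' := by
  intro e he
  induction e using Sym2.ind with
  | _ x y =>
    rw [mem_EB] at he ⊢
    obtain ⟨⟨e1, e2, e3, e4⟩, f1, f2, f3, f4⟩ := he
    exact ⟨⟨h1.trans e1, e2.trans h2, h3.trans e3, e4.trans h4⟩,
      h1.trans f1, f2.trans h2, h3.trans f3, f4.trans h4⟩

private theorem dep_and {E : Finset (Sym2 V)} {φ ψ : Set (Sym2 V) → Prop} (h : Dep E φ)
    (h' : Dep E ψ) : Dep E (fun O => φ O ∧ ψ O) := fun O O' hO =>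
  and_congr (h O O' hO) (h' O O' hO)

private theorem inc_and {φ ψ : Set (Sym2 V) → Prop} (h : Inc φ) (h' : Inc ψ) :
    Inc (fun O => φ O ∧ ψ O) := fun O O' hO hh => ⟨h O O' hO hh.1, h' O O' hO hh.2⟩

private theorem dep_not {E : Finset (Sym2 V)} {φ : Set (Sym2 V) → Prop} (h : Dep E φ) :
    Dep E (fun O => ¬ φ O) := fun O O' hO => not_congr (h O O' hO)

theorem circ_pr {ν : Measure ℝ} [IsProbabilityMeasure ν] (hν : 1 / 2 ≤ ν.real {0}) {r : ℤ}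
    (hr : 2 ≤ r) : (1 / 2 : ℝ) ^ 172 ≤ Pr ν (fun O => Circ O r) := by
  have h0 := rsw hν hr
  have h0' : (1 / 2 : ℝ) ^ 43 ≤ hh ν (6 * r) (2 * r - 1) :=
    h0.trans (hh_mono (by omega) (by omega) le_rfl)
  obtain ⟨E, hE⟩ : ∃ E, E = EB (-(3 * r)) (3 * r + 1) (-(3 * r)) (3 * r) := ⟨_, rfl⟩
  have d1 : Dep E (fun O => LR O (-(3 * r)) (3 * r + 1) (r + 1) (3 * r)) :=
    dep_mono dep_lr (by rw [hE]; exact EB_sub (by omega) (by omega) (by omega) (by omega))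
  have d2 : Dep E (fun O => LR O (-(3 * r)) (3 * r + 1) (-(3 * r)) (-r - 1)) :=
    dep_mono dep_lr (by rw [hE]; exact EB_sub (by omega) (by omega) (by omega) (by omega))
  have d3 : Dep E (fun O => BT O (-(3 * r)) (-r - 1) (-(3 * r)) (3 * r)) :=
    dep_mono dep_bt (by rw [hE]; exact EB_sub (by omega) (by omega) (by omega) (by omega))
  have d4 : Dep E (fun O => BT O (r + 2) (3 * r + 1) (-(3 * r)) (3 * r)) :=
    dep_mono dep_bt (by rw [hE]; exact EB_sub (by omega) (by omega) (by omega) (by omega))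
  have p1 : (1 / 2 : ℝ) ^ 43 ≤ Pr ν (fun O => LR O (-(3 * r)) (3 * r + 1) (r + 1) (3 * r)) := by
    rw [pr_lr]
    convert h0 using 2 <;> ring
  have p2 : (1 / 2 : ℝ) ^ 43 ≤ Pr ν (fun O => LR O (-(3 * r)) (3 * r + 1) (-(3 * r)) (-r - 1)) := by
    rw [pr_lr]
    convert h0 using 2 <;> ring
  have p3 : (1 / 2 : ℝ) ^ 43 ≤ Pr ν (fun O => BT O (-(3 * r)) (-r - 1) (-(3 * r)) (3 * r)) := by
    rw [pr_bt]
    convert h0' using 2 <;> ring
  have p4 : (1 / 2 : ℝ) ^ 43 ≤ Pr ν (fun O => BT O (r + 2) (3 * r + 1) (-(3 * r)) (3 * r)) := by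
    rw [pr_bt]
    convert h0' using 2 <;> ring
  have q1 := harris (ν := ν) d1 d2 inc_lr inc_lr
  have q2 := harris (ν := ν) d3 d4 inc_bt inc_bt
  have q3 := harris (ν := ν) (dep_and d1 d2) (dep_and d3 d4) (inc_and inc_lr inc_lr)
    (inc_and inc_bt inc_bt)
  have hc : (0 : ℝ) ≤ (1 / 2 : ℝ) ^ 43 := by positivity
  have e1 := (mul_le_mul p1 p2 hc (hc.trans p1)).trans q1
  have e2 := (mul_le_mul p3 p4 hc (hc.trans p3)).trans q2
  have hc2 : (0 : ℝ) ≤ (1 / 2 : ℝ) ^ 43 * (1 / 2 : ℝ) ^ 43 := mul_nonneg hc hc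
  have e3 := (mul_le_mul e1 e2 hc2 (hc2.trans e1)).trans q3
  have e4 : (1 / 2 : ℝ) ^ 172 =
      (1 / 2 : ℝ) ^ 43 * (1 / 2 : ℝ) ^ 43 * ((1 / 2 : ℝ) ^ 43 * (1 / 2 : ℝ) ^ 43) := by
    rw [← pow_add, ← pow_add]
  rw [e4]
  exact e3

private theorem pow3 (k : ℕ) (hk : 1 ≤ k) : (3 : ℤ) ≤ 3 ^ k := by
  have h : (3 : ℤ) ^ 1 ≤ 3 ^ k := pow_le_pow_right₀ (by norm_num) hk
  rwa [pow_one] at h

private theorem dep_all (K : ℕ) :
    Dep (EB (-(3 * 3 ^ K)) (3 * 3 ^ K + 1) (-(3 * 3 ^ K)) (3 * 3 ^ K))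
      (fun O => ∀ k : ℕ, 1 ≤ k → k ≤ K → ¬ Circ O (3 ^ k)) := by
  intro O O' hO
  refine forall_congr' fun k => forall_congr' fun hk => forall_congr' fun hk' => not_congr ?_
  have h3 := pow3 k hk
  have h4 : (3 : ℤ) ^ k ≤ 3 ^ K := pow_le_pow_right₀ (by norm_num) hk'
  refine dep_circ (r := 3 ^ k) (by omega) O O' fun e he => hO e ?_
  exact EB_sub (by omega) (by omega) (by omega) (by omega) (Finset.sdiff_subset he)

theorem no_circ {ν : Measure ℝ} [IsProbabilityMeasure ν] (hν : 1 / 2 ≤ ν.real {0}) (K : ℕ) :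
    Pr ν (fun O => ∀ k : ℕ, 1 ≤ k → k ≤ K → ¬ Circ O (3 ^ k)) ≤ (1 - (1 / 2 : ℝ) ^ 172) ^ K := by
  induction K with
  | zero =>
    have h1 := pr_not (ν := ν) (dep_all 0)
    have h2 := pr_nonneg (ν := ν) (φ := fun O => ¬ ∀ k : ℕ, 1 ≤ k → k ≤ 0 → ¬ Circ O (3 ^ k))
    rw [pow_zero]
    linarith
  | succ K ih =>
    have h3 : (3 : ℤ) ≤ 3 ^ (K + 1) := pow3 (K + 1) (by omega)
    have h4 : (3 : ℤ) ^ (K + 1) = 3 * 3 ^ K := by rw [pow_succ]; ring
    have d := dep_circ (r := 3 ^ (K + 1)) (by omega)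
    have h1 := pr_and (ν := ν) (dep_all K) (dep_not d)
      (circ_disj (r := 3 ^ K) (r' := 3 ^ (K + 1)) (by rw [h4]))
    have h2 := pr_not (ν := ν) d
    have h5 := circ_pr hν (r := 3 ^ (K + 1)) (by omega)
    have h6 : Pr ν (fun O => ∀ k : ℕ, 1 ≤ k → k ≤ K + 1 → ¬ Circ O (3 ^ k)) ≤
        Pr ν (fun O => (∀ k : ℕ, 1 ≤ k → k ≤ K → ¬ Circ O (3 ^ k)) ∧ ¬ Circ O (3 ^ (K + 1))) :=
      pr_le_of_imp fun O hO => ⟨fun k hk hk' => hO k hk (by omega), hO (K + 1) (by omega) le_rfl⟩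
    refine h6.trans ?_
    rw [h1, h2, pow_succ (1 - (1 / 2 : ℝ) ^ 172) K]
    have h7 := pr_nonneg (ν := ν) (φ := fun O => ¬ Circ O (3 ^ (K + 1)))
    rw [h2] at h7
    have h8 : (0 : ℝ) ≤ 1 - (1 / 2 : ℝ) ^ 172 := by linarith
    exact mul_le_mul ih (by linarith) h7 (pow_nonneg h8 K)

end Pool.Agent.Work.MP_9a767b_pr.Z
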