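import Pool.Agent.Work.MP_9a767b_pr.Z.Elem
import Pool.Agent.Work.MP_9a767b_pr.U.Lrbt
import Pool.Agent.Work.MP_9a767b_pr.Metric

/-!
# CircT: on the circuit event the far vertices see the same difference (deterministic)

PROOF. Let `Γt, Γb` (left right crossings of the top and bottom rectangles) and `Γl, Γr` (bottom top crossings
of the left and right rectangles) be the four walks in `zer ω`. All of them are in the outer box
`R = Rec (-3r) (3r+1) (-3r) (3r)`; `Γt`, `Γb` are left right crossings of `R`, `Γl`, `Γr` are bottom top crossings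
of `R`, so by `lrbt` `Γt` and `Γb` meet `Γl` (and `Γr`). Passage times along edges of weight zero are zero, so
`T ω p q = 0` for all `p, q` on the union `Γ` of the four walks. Fix `q0 ∈ Γ`.
CLAIM: if `Out r x`, `v ∈ {(0,0), (1,0)}` then every walk `W` from `v` to `x` meets `Γ`. Let `u` be the last vertex of
`W` before its first vertex outside `R`; then `u ∈ R` is in the row `3r` or `-3r` or in the column `-3r` or
`3r+1`, and the part of `W` from `v` to `u` is in `R`. Row `3r`: take the last vertex of this part in the row `r`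
(`v` has height `0 ≤ r`, steps change the height by at most one); the part after it is a walk in the
rows `≥ r+1` of `R` from the row `r+1` to the row `3r`, a bottom top crossing of the top rectangle
`Rec (-3r) (3r+1) (r+1) (3r)`, so it meets `Γt` by `lrbt`. The row `-3r`, the column `-3r`
(left rectangle `Rec (-3r) (-r-1) (-3r) (3r)`, last vertex in the column `-r`, `Γl`), the column `3r+1`
(`Rec (r+2) (3r+1) (-3r) (3r)`, last vertex in the column `r+1`, `Γr`; here `v.1 ≤ 1 ≤ r+1`) in the same way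
(`lrbt` with the roles of the two walks exchanged; for the bottom rectangle reverse the walk).
Hence for every walk `W` from `v` to `x` the weight is at least `T v q + T q x = T v q0 + T q0 x` for some `q ∈ Γ`
(`pt_split`, and `T q q0 = 0`), so `T v x ≥ T v q0 + T q0 x`, and equality by the triangle inequality. So
`T x (1,0) - T x (0,0) = T q0 (1,0) - T q0 (0,0)` for all `x` with `Out r x`.
-/

open MeasureTheory ProbabilityTheory Filter Topology

namespace Pool.Agent.Work.MP_9a767b_pr.Z

theorem T_zero_of_con {ω : Cfg} {D : Set V} {p q : V} (h : Con (zer ω) D p q) : T ω p q = 0 := by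
  obtain ⟨w, -, h2⟩ := h
  refine le_antisymm ?_ (T_nonneg ω p q)
  refine (pt_le_len (fun _ => abs_nonneg _) w).trans (le_of_eq ?_)
  unfold len
  apply List.sum_eq_zero
  intro x hx
  obtain ⟨e, he, rfl⟩ := List.mem_map.1 hx
  have h3 : ω e = 0 := h2 e he
  show |ω e| = 0
  rw [h3, abs_zero]

/-- the first exit from a set -/
private theorem exit_first (P : V → Prop) : ∀ {x y : V} (w : lattice.Walk x y), P x → ¬ P y →
    ∃ (u u' : V) (w1 : lattice.Walk x u), lattice.Adj u u' ∧ ¬ P u' ∧ u' ∈ w.support ∧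
      ∀ v ∈ w1.support, P v ∧ v ∈ w.support
  | _, _, .nil, hx, hy => absurd hx hy
  | x, y, .cons (v := z) h w, hx, hy => by
    by_cases hz : P z
    · obtain ⟨u, u', w1, h1, h2, h3, h4⟩ := exit_first P w hz hy
      refine ⟨u, u', .cons h w1, h1, h2, ?_, ?_⟩
      · rw [SimpleGraph.Walk.support_cons]
        exact List.mem_cons_of_mem _ h3
      · intro v hv
        rw [SimpleGraph.Walk.support_cons, List.mem_cons] at hv ⊢
        rcases hv with rfl | hv
        · exact ⟨hx, Or.inl rfl⟩
        · exact ⟨(h4 v hv).1, Or.inr (h4 v hv).2⟩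
    · refine ⟨x, z, .nil, h, hz, ?_, ?_⟩
      · rw [SimpleGraph.Walk.support_cons]
        exact List.mem_cons_of_mem _ w.start_mem_support
      · intro v hv
        rw [SimpleGraph.Walk.support_nil, List.mem_singleton] at hv
        subst hv
        exact ⟨hx, SimpleGraph.Walk.start_mem_support _⟩

/-- the last exit from a set -/
private theorem exit_last (P : V → Prop) {x y : V} (w : lattice.Walk x y) (hx : P x)
    (hy : ¬ P y) : ∃ (u u' : V) (w1 : lattice.Walk u' y), lattice.Adj u u' ∧ P u ∧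
      ∀ v ∈ w1.support, ¬ P v ∧ v ∈ w.support := by
  obtain ⟨u, u', w1, h1, h2, h3, h4⟩ := exit_first (fun z => ¬ P z) w.reverse hy
    (not_not.2 hx)
  refine ⟨u', u, w1.reverse, h1.symm, not_not.1 h2, fun v hv => ?_⟩
  rw [SimpleGraph.Walk.support_reverse, List.mem_reverse] at hv
  have h5 := h4 v hv
  rw [SimpleGraph.Walk.support_reverse, List.mem_reverse] at h5
  exact h5

theorem circ_T {ω : Cfg} {r : ℤ} (hr : 1 ≤ r) (h : Circ (zer ω) r) {x x' : V} (hx : Out r x)
    (hx' : Out r x') : T ω x (1, 0) - T ω x 0 = T ω x' (1, 0) - T ω x' 0 := by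
  obtain ⟨⟨⟨yt, yt', Γt, ht1, ht2⟩, ⟨yb, yb', Γb, hb1, hb2⟩⟩, ⟨xl, xl', Γl, hl1, hl2⟩,
    ⟨xr, xr', Γr, hr1, hr2⟩⟩ := h
  simp only [Rec, Set.mem_ofPred_eq] at ht1 hb1 hl1 hr1
  have tri : ∀ a b c : V, T ω a b = 0 → T ω b c = 0 → T ω a c = 0 := fun a b c h1 h2 =>
    le_antisymm (by linarith [T_triangle ω a b c]) (T_nonneg _ _ _)
  -- passage times on a walk with edges in `zer ω`
  have same : ∀ {a b : V} (W : lattice.Walk a b), (∀ e ∈ W.edges, e ∈ zer ω) →
      ∀ p ∈ W.support, ∀ q ∈ W.support, T ω p q = 0 := by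
    intro a b W hW p hp q hq
    have h1 := con_mem (D := Set.univ) (fun v _ => Set.mem_univ v) hW hp
    have h2 := con_mem (D := Set.univ) (fun v _ => Set.mem_univ v) hW hq
    exact T_zero_of_con (con_trans (con_symm h1.1) h2.1)
  -- meetings
  obtain ⟨m1, hm1, hm1'⟩ := U.lrbt (x1 := -(3 * r)) (x2 := 3 * r + 1) (y1 := -(3 * r))
    (y2 := 3 * r) Γt Γl rfl rfl rfl rfl
    (fun v hv => ⟨(ht1 v hv).1, (ht1 v hv).2.1, by have := (ht1 v hv).2.2.1; omega,
      (ht1 v hv).2.2.2⟩)
    (fun v hv => ⟨(hl1 v hv).1, by have := (hl1 v hv).2.1; omega, (hl1 v hv).2.2.1,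
      (hl1 v hv).2.2.2⟩)
  obtain ⟨m2, hm2, hm2'⟩ := U.lrbt (x1 := -(3 * r)) (x2 := 3 * r + 1) (y1 := -(3 * r))
    (y2 := 3 * r) Γb Γl rfl rfl rfl rfl
    (fun v hv => ⟨(hb1 v hv).1, (hb1 v hv).2.1, (hb1 v hv).2.2.1,
      by have := (hb1 v hv).2.2.2; omega⟩)
    (fun v hv => ⟨(hl1 v hv).1, by have := (hl1 v hv).2.1; omega, (hl1 v hv).2.2.1,
      (hl1 v hv).2.2.2⟩)
  obtain ⟨m3, hm3, hm3'⟩ := U.lrbt (x1 := -(3 * r)) (x2 := 3 * r + 1) (y1 := -(3 * r))
    (y2 := 3 * r) Γt Γr rfl rfl rfl rfl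
    (fun v hv => ⟨(ht1 v hv).1, (ht1 v hv).2.1, by have := (ht1 v hv).2.2.1; omega,
      (ht1 v hv).2.2.2⟩)
    (fun v hv => ⟨by have := (hr1 v hv).1; omega, (hr1 v hv).2.1, (hr1 v hv).2.2.1,
      (hr1 v hv).2.2.2⟩)
  -- all vertices of the four walks are at distance zero of `q0`
  have kl : ∀ q ∈ Γl.support, T ω q (xl, -(3 * r)) = 0 := fun q hq =>
    same Γl hl2 q hq _ Γl.start_mem_support
  have kt : ∀ q ∈ Γt.support, T ω q (xl, -(3 * r)) = 0 := fun q hq =>
    tri q m1 _ (same Γt ht2 q hq _ hm1) (kl m1 hm1')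
  have kb : ∀ q ∈ Γb.support, T ω q (xl, -(3 * r)) = 0 := fun q hq =>
    tri q m2 _ (same Γb hb2 q hq _ hm2) (kl m2 hm2')
  have kr : ∀ q ∈ Γr.support, T ω q (xl, -(3 * r)) = 0 := fun q hq =>
    tri q m3 _ (same Γr hr2 q hq _ hm3') (kt m3 hm3)
  obtain ⟨q0, kl, kt, kb, kr⟩ : ∃ q0 : V, (∀ q ∈ Γl.support, T ω q q0 = 0) ∧
      (∀ q ∈ Γt.support, T ω q q0 = 0) ∧ (∀ q ∈ Γb.support, T ω q q0 = 0) ∧
      ∀ q ∈ Γr.support, T ω q q0 = 0 := ⟨_, kl, kt, kb, kr⟩
  -- every walk from `v` to a far vertex meets the circuit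
  have meet : ∀ (v z : V), 0 ≤ v.1 → v.1 ≤ 1 → v.2 = 0 → Out r z → ∀ W : lattice.Walk v z,
      ∃ q ∈ W.support, T ω q q0 = 0 := by
    intro v z hv1 hv2 hv3 hz W
    have hvR : v ∈ Rec (-(3 * r)) (3 * r + 1) (-(3 * r)) (3 * r) := by
      simp only [Rec, Set.mem_ofPred_eq]
      omega
    obtain ⟨u, u', w1, hadj, hu', -, hw1⟩ := exit_first
      (fun y => y ∈ Rec (-(3 * r)) (3 * r + 1) (-(3 * r)) (3 * r)) W hvR hz
    have hu := (hw1 u w1.end_mem_support).1
    have hw2 : ∀ y ∈ w1.support, (-(3 * r) ≤ y.1 ∧ y.1 ≤ 3 * r + 1 ∧ -(3 * r) ≤ y.2 ∧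
        y.2 ≤ 3 * r) ∧ y ∈ W.support := hw1
    simp only [Rec, Set.mem_ofPred_eq] at hu hu'
    have hcase : u.2 = 3 * r ∨ u.2 = -(3 * r) ∨ u.1 = -(3 * r) ∨ u.1 = 3 * r + 1 := by
      rcases adj4 hadj with h1 | h1 | h1 | h1 <;>
        · have e1 := congrArg Prod.fst h1
          have e2 := congrArg Prod.snd h1
          simp only at e1 e2
          omega
    rcases hcase with hc | hc | hc | hc
    · obtain ⟨t, t', w2, ha, ht, hw⟩ := exit_last (fun y => y.2 ≤ r) w1
        (by omega) (by omega)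
      have ht' := (hw t' w2.start_mem_support).1
      have e : t'.2 = r + 1 := by
        rcases adj4 ha with h1 | h1 | h1 | h1 <;>
          · have e1 := congrArg Prod.fst h1
            have e2 := congrArg Prod.snd h1
            simp only at e1 e2 ht ht'
            omega
      obtain ⟨q, hq1, hq2⟩ := U.lrbt (x1 := -(3 * r)) (x2 := 3 * r + 1) (y1 := r + 1)
        (y2 := 3 * r) Γt w2 rfl rfl e hc ht1 (fun y hy => by
          have h1 := hw y hy
          have h2 := (hw2 y h1.2).1
          have h3 := h1.1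
          omega)
      exact ⟨q, (hw2 q (hw q hq2).2).2, kt q hq1⟩
    · obtain ⟨t, t', w2, ha, ht, hw⟩ := exit_last (fun y => -r ≤ y.2) w1
        (by omega) (by omega)
      have ht' := (hw t' w2.start_mem_support).1
      have e : t'.2 = -r - 1 := by
        rcases adj4 ha with h1 | h1 | h1 | h1 <;>
          · have e1 := congrArg Prod.fst h1
            have e2 := congrArg Prod.snd h1
            simp only at e1 e2 ht ht'
            omega
      obtain ⟨q, hq1, hq2⟩ := U.lrbt (x1 := -(3 * r)) (x2 := 3 * r + 1) (y1 := -(3 * r))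
        (y2 := -r - 1) Γb w2.reverse rfl rfl hc e hb1 (fun y hy => by
          rw [SimpleGraph.Walk.support_reverse, List.mem_reverse] at hy
          have h1 := hw y hy
          have h2 := (hw2 y h1.2).1
          have h3 := h1.1
          omega)
      rw [SimpleGraph.Walk.support_reverse, List.mem_reverse] at hq2
      exact ⟨q, (hw2 q (hw q hq2).2).2, kb q hq1⟩
    · obtain ⟨t, t', w2, ha, ht, hw⟩ := exit_last (fun y => -r ≤ y.1) w1
        (by omega) (by omega)
      have ht' := (hw t' w2.start_mem_support).1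
      have e : t'.1 = -r - 1 := by
        rcases adj4 ha with h1 | h1 | h1 | h1 <;>
          · have e1 := congrArg Prod.fst h1
            have e2 := congrArg Prod.snd h1
            simp only at e1 e2 ht ht'
            omega
      obtain ⟨q, hq1, hq2⟩ := U.lrbt (x1 := -(3 * r)) (x2 := -r - 1) (y1 := -(3 * r))
        (y2 := 3 * r) w2.reverse Γl hc e rfl rfl (fun y hy => by
          rw [SimpleGraph.Walk.support_reverse, List.mem_reverse] at hy
          have h1 := hw y hy
          have h2 := (hw2 y h1.2).1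
          have h3 := h1.1
          omega) hl1
      rw [SimpleGraph.Walk.support_reverse, List.mem_reverse] at hq1
      exact ⟨q, (hw2 q (hw q hq1).2).2, kl q hq2⟩
    · obtain ⟨t, t', w2, ha, ht, hw⟩ := exit_last (fun y => y.1 ≤ r + 1) w1
        (by omega) (by omega)
      have ht' := (hw t' w2.start_mem_support).1
      have e : t'.1 = r + 2 := by
        rcases adj4 ha with h1 | h1 | h1 | h1 <;>
          · have e1 := congrArg Prod.fst h1
            have e2 := congrArg Prod.snd h1
            simp only at e1 e2 ht ht'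
            omega
      obtain ⟨q, hq1, hq2⟩ := U.lrbt (x1 := r + 2) (x2 := 3 * r + 1) (y1 := -(3 * r))
        (y2 := 3 * r) w2 Γr e hc rfl rfl (fun y hy => by
          have h1 := hw y hy
          have h2 := (hw2 y h1.2).1
          have h3 := h1.1
          omega) hr1
      exact ⟨q, (hw2 q (hw q hq1).2).2, kr q hq2⟩
  -- the passage time to a far vertex
  have far : ∀ (v z : V), 0 ≤ v.1 → v.1 ≤ 1 → v.2 = 0 → Out r z →
      T ω v z = T ω v q0 + T ω q0 z := by
    intro v z hv1 hv2 hv3 hz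
    refine le_antisymm (T_triangle ω v q0 z) ?_
    have : Nonempty (lattice.Walk v z) := nonempty_walk v z
    refine le_ciInf fun W => ?_
    obtain ⟨q, hq, hq'⟩ := meet v z hv1 hv2 hv3 hz W
    have h1 : T ω v q + T ω q z ≤ len (fun e => |ω e|) W := pt_split (fun _ => abs_nonneg _) W hq
    have h2 := T_triangle ω v q q0
    have h3 := T_triangle ω q0 q z
    rw [T_comm ω q0 q] at h3
    linarith
  have a1 := far (1, 0) x (by norm_num) le_rfl rfl hx
  have a2 := far 0 x le_rfl (by norm_num) rfl hx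
  have a3 := far (1, 0) x' (by norm_num) le_rfl rfl hx'
  have a4 := far 0 x' le_rfl (by norm_num) rfl hx'
  rw [T_comm ω x, T_comm ω x, T_comm ω x', T_comm ω x']
  linarith

end Pool.Agent.Work.MP_9a767b_pr.Z
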