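import Pool.Agent.Work.MP_9a767b_pr.Z.Refl
import Pool.Agent.Work.MP_9a767b_pr.Z.CircP
import Pool.Agent.Work.MP_9a767b_pr.Z.CircT

/-!
# Final: the increments tend to zero

PROOF. Let `B_K = {ω | ∀ k, 1 ≤ k ≤ K → ¬ Circ (zer ω) (3^k)}`, measurable (`measurableSet_dep`,
`dep_circ`, `dep_mono`). By `no_circ` `Q ν (B_K) → 0`, so `∫_{B_K} T 0 (1,0) → 0` (the integral of an integrable
function over sets with measure tending to zero: `tendsto_setIntegral_zero`-type lemma, or the sets are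
decreasing: dominated convergence, `MeasureTheory.tendsto_setIntegral_of_antitone`, and the intersection
has measure zero). Given `K`, for `n ≥ 3^(K+1) + 1` (and `> 3·3^k`) the vertices `(-n,0)` and `(n+1,0)` satisfy
`Out (3^k)` for `k ≤ K` (`-n < -3·3^k`, `n + 1 > 3·3^k + 1`), so by `circ_T` the hypothesis of `refl_bound` holds with
`B = B_K`.
-/

open MeasureTheory ProbabilityTheory Filter Topology

namespace Pool.Agent.Work.MP_9a767b_pr.Z

theorem zero_unit {ν : Measure ℝ} [IsProbabilityMeasure ν] (hν : 1 / 2 ≤ ν.real {0})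
    (hI : Integrable (fun ω => T ω 0 (1, 0)) (Q ν)) :
    Tendsto (fun n : ℕ => g ν ((n : ℤ) + 1, 0) - g ν (n, 0)) atTop (𝓝 0) := by
  set B : ℕ → Set Cfg := fun K => {ω | ∀ k : ℕ, 1 ≤ k → k ≤ K → ¬ Circ (zer ω) (3 ^ k)} with hBd
  have hpos : ∀ k : ℕ, (1 : ℤ) ≤ 3 ^ k := fun k => one_le_pow₀ (by norm_num)
  have hmeas : ∀ K, MeasurableSet (B K) := by
    intro K
    have e : B K = ⋂ (k : ℕ) (_ : 1 ≤ k) (_ : k ≤ K), {ω | Circ (zer ω) (3 ^ k)}ᶜ := by
      ext ω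
      simp only [hBd, Set.mem_ofPred_eq, Set.mem_iInter, Set.mem_compl_iff]
    rw [e]
    exact MeasurableSet.iInter fun k => MeasurableSet.iInter fun _ => MeasurableSet.iInter fun _ =>
      (measurableSet_dep (dep_circ (hpos k))).compl
  have hc0 : (0 : ℝ) ≤ 1 - (1 / 2 : ℝ) ^ 172 := by
    rw [sub_nonneg]
    exact pow_le_one₀ (by norm_num) (by norm_num)
  have hc1 : 1 - (1 / 2 : ℝ) ^ 172 < 1 := by
    have : (0 : ℝ) < (1 / 2 : ℝ) ^ 172 := by positivity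
    linarith
  have hlim : Tendsto (fun K => (Q ν).real (B K)) atTop (𝓝 0) :=
    squeeze_zero (fun K => measureReal_nonneg) (fun K => no_circ hν K)
      (tendsto_pow_atTop_nhds_zero_of_lt_one hc0 hc1)
  have hlim' : Tendsto ((Q ν) ∘ B) atTop (𝓝 0) := by
    have h1 := ENNReal.tendsto_ofReal hlim
    rw [ENNReal.ofReal_zero] at h1
    refine h1.congr fun K => ?_
    exact ofReal_measureReal (measure_ne_top _ _)
  have hint : Tendsto (fun K => ∫ ω in B K, T ω 0 (1, 0) ∂(Q ν)) atTop (𝓝 0) :=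
    hI.tendsto_setIntegral_nhds_zero hlim'
  rw [Metric.tendsto_atTop]
  intro ε hε
  obtain ⟨K, hK⟩ := (hint.eventually_lt_const hε).exists
  refine ⟨3 ^ (K + 1) + 1, fun n hn => ?_⟩
  rw [Real.dist_eq, sub_zero]
  refine lt_of_le_of_lt (refl_bound hI (hmeas K) n fun ω hω => ?_) hK
  have hω' : ∃ k : ℕ, 1 ≤ k ∧ k ≤ K ∧ Circ (zer ω) (3 ^ k) := by
    by_contra hcon
    apply hω
    intro k h1 h2 h3
    exact hcon ⟨k, h1, h2, h3⟩
  obtain ⟨k, -, hk, hcirc⟩ := hω'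
  have hn' : (3 : ℤ) * 3 ^ k < n := by
    have h1 : (3 : ℤ) * 3 ^ k ≤ 3 ^ (K + 1) := by
      rw [← pow_succ']
      exact pow_le_pow_right₀ (by norm_num) (by omega)
    have h2 : ((3 ^ (K + 1) + 1 : ℕ) : ℤ) ≤ n := by exact_mod_cast hn
    push_cast at h2
    linarith
  refine circ_T (hpos k) hcirc ?_ ?_
  · rintro ⟨h1, -, -, -⟩
    have h1' : -(3 * 3 ^ k) ≤ -(n : ℤ) := h1
    linarith
  · rintro ⟨-, h1, -, -⟩
    have h1' : (n : ℤ) + 1 ≤ 3 * 3 ^ k + 1 := h1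
    linarith

end Pool.Agent.Work.MP_9a767b_pr.Z
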