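import Pool.Agent.Work.MP_9a767b_pr.Z.Defs
import Pool.Agent.Work.MP_9a767b_pr.Meas

/-!
# Elem: elementary facts on walks, rectangles, dual steps (proved)
-/

open MeasureTheory ProbabilityTheory Filter Topology

namespace Pool.Agent.Work.MP_9a767b_pr.Z

theorem con_mono {O O' : Set (Sym2 V)} {D D' : Set V} {x y : V} (h : Con O D x y) (hO : O ⊆ O')
    (hD : D ⊆ D') : Con O' D' x y := by
  obtain ⟨w, h1, h2⟩ := h
  exact ⟨w, fun v hv => hD (h1 v hv), fun e he => hO (h2 e he)⟩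

theorem con_symm {O : Set (Sym2 V)} {D : Set V} {x y : V} (h : Con O D x y) : Con O D y x := by
  obtain ⟨w, h1, h2⟩ := h
  exact ⟨w.reverse, fun v hv => h1 v (by simpa using hv), fun e he => h2 e (by simpa using he)⟩

theorem con_trans {O : Set (Sym2 V)} {D : Set V} {x y z : V} (h : Con O D x y)
    (h' : Con O D y z) : Con O D x z := by
  obtain ⟨w, h1, h2⟩ := h
  obtain ⟨w', h1', h2'⟩ := h'
  refine ⟨w.append w', fun v hv => ?_, fun e he => ?_⟩
  · rw [SimpleGraph.Walk.mem_support_append_iff] at hv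
    exact hv.elim (h1 v) (h1' v)
  · rw [SimpleGraph.Walk.edges_append, List.mem_append] at he
    exact he.elim (h2 e) (h2' e)

theorem con_mem {O : Set (Sym2 V)} {D : Set V} {x y : V} {w : lattice.Walk x y}
    (h1 : ∀ v ∈ w.support, v ∈ D) (h2 : ∀ e ∈ w.edges, e ∈ O) {v : V} (hv : v ∈ w.support) :
    Con O D x v ∧ Con O D v y := by
  classical
  refine ⟨⟨w.takeUntil v hv, fun u hu => h1 u (w.support_takeUntil_subset_support hv hu),
    fun e he => h2 e (w.edges_takeUntil_subset_edges hv he)⟩, ⟨w.dropUntil v hv, fun u hu =>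
      h1 u (w.support_dropUntil_subset_support hv hu), fun e he => h2 e (w.edges_dropUntil_subset_edges hv he)⟩⟩

theorem cr_comm (z z' : V) : cr z z' = cr z' z := by
  unfold cr
  rw [sup_comm, inf_comm]

theorem cr_right (i j : ℤ) : cr (i, j) (i + 1, j) = s((i + 1, j), (i + 1, j + 1)) := by
  have h1 : ((i, j) : V) ⊔ (i + 1, j) = (i + 1, j) := sup_eq_right.2 ⟨by simp, le_rfl⟩
  have h2 : ((i, j) : V) ⊓ (i + 1, j) = (i, j) := inf_eq_left.2 ⟨by simp, le_rfl⟩
  unfold cr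
  rw [h1, h2]
  rfl

theorem cr_up (i j : ℤ) : cr (i, j) (i, j + 1) = s((i, j + 1), (i + 1, j + 1)) := by
  have h1 : ((i, j) : V) ⊔ (i, j + 1) = (i, j + 1) := sup_eq_right.2 ⟨le_rfl, by simp⟩
  have h2 : ((i, j) : V) ⊓ (i, j + 1) = (i, j) := inf_eq_left.2 ⟨le_rfl, by simp⟩
  unfold cr
  rw [h1, h2]
  rfl

/-- The four neighbours. -/
theorem adj4 {x y : V} (h : lattice.Adj x y) :
    y = (x.1 + 1, x.2) ∨ x = (y.1 + 1, y.2) ∨ y = (x.1, x.2 + 1) ∨ x = (y.1, y.2 + 1) := by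
  rw [adj_iff] at h
  obtain ⟨a, b⟩ := x
  obtain ⟨c, d⟩ := y
  simp only [Prod.mk.injEq] at *
  rcases abs_cases (a - c) with h1 | h1 <;> rcases abs_cases (b - d) with h2 | h2 <;> omega

theorem adj_right (i j : ℤ) : lattice.Adj (i, j) (i + 1, j) := by
  rw [adj_iff]
  simp

theorem adj_up (i j : ℤ) : lattice.Adj (i, j) (i, j + 1) := by
  rw [adj_iff]
  simp

theorem mem_EB {a b c d : ℤ} {x y : V} :
    s(x, y) ∈ EB a b c d ↔ x ∈ Rec a b c d ∧ y ∈ Rec a b c d := by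
  unfold EB Rec
  rw [Finset.mk_mem_sym2_iff, Finset.mem_Icc, Finset.mem_Icc, Prod.le_def, Prod.le_def,
    Prod.le_def, Prod.le_def]
  simp only [Set.mem_ofPred_eq]
  tauto

end Pool.Agent.Work.MP_9a767b_pr.Z
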