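import Pool.Agent.Work.MP_9a767b_pr.Z.FinSum

/-!
# Comp: nonzero edges are not more frequent than zero edges

PROOF. Let `p = ν.real {0} ≥ 1/2`, `q = 1 - p ≤ p`, `N = |E|`. `pr_eq_sum` for `O ↦ φ Oᶜ` (`compl_dep`) and the
substitution `S ↦ E \ S` (`φ ((E \ S)ᶜ) ↔ φ S` by `Dep`) give
`Pr ν (fun O => φ Oᶜ) = ∑_S 1[φ S] q^|S| p^(N-|S|)`; this has to be at most `∑_S 1[φ S] p^|S| q^(N-|S|)`.
If `q = 0` the left side is `1[φ ∅]` (`0^0 = 1`) and the right side is `1[φ E]`, and `φ ∅ → φ E`. If `q > 0`: by
the FKG inequality (as in `Harris.lean`, weight `μ S = q^|S| p^(N-|S|)`, `∑ μ = 1`) for the increasing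
functions `f = 1[φ]` and `g S = (p/q)^|S| (q/p)^(N-|S|)`: `∑ μ f ∑ μ g ≤ ∑ μ f g`, where
`μ g = p^|S| q^(N-|S|)`, `∑ μ g = 1`. (Alternatively: induction on `E`, or the coupling of two Bernoulli
variables.)
-/

open MeasureTheory ProbabilityTheory Filter Topology

namespace Pool.Agent.Work.MP_9a767b_pr.Z

/-- The expectation of an increasing function of a random set grows with the density. -/
theorem bern_mono {α : Type*} [DecidableEq α] {x y : ℝ} (hx : 0 ≤ x) (hxy : x ≤ y) (hy : y ≤ 1)
    (E : Finset α) : ∀ f : Finset α → ℝ, Monotone f →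
      ∑ S ∈ E.powerset, f S * (x ^ S.card * (1 - x) ^ (E.card - S.card)) ≤
        ∑ S ∈ E.powerset, f S * (y ^ S.card * (1 - y) ^ (E.card - S.card)) := by
  have key : ∀ (z : ℝ) (E : Finset α) (e : α), e ∉ E → ∀ f : Finset α → ℝ,
      ∑ S ∈ (insert e E).powerset, f S * (z ^ S.card * (1 - z) ^ ((insert e E).card - S.card)) =
        (1 - z) * ∑ S ∈ E.powerset, f S * (z ^ S.card * (1 - z) ^ (E.card - S.card)) +
          z * ∑ S ∈ E.powerset, f (insert e S) * (z ^ S.card * (1 - z) ^ (E.card - S.card)) := by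
    intro z E e he f
    rw [Finset.sum_powerset_insert he, Finset.mul_sum, Finset.mul_sum]
    congr 1
    · refine Finset.sum_congr rfl fun S hS => ?_
      have h1 : S.card ≤ E.card := Finset.card_le_card (Finset.mem_powerset.1 hS)
      have h2 : (insert e E).card - S.card = (E.card - S.card) + 1 := by
        rw [Finset.card_insert_of_notMem he]; omega
      rw [h2, pow_succ]
      ring
    · refine Finset.sum_congr rfl fun S hS => ?_
      have h0 : e ∉ S := fun h => he (Finset.mem_powerset.1 hS h)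
      have h2 : (insert e E).card - (insert e S).card = E.card - S.card := by
        rw [Finset.card_insert_of_notMem he, Finset.card_insert_of_notMem h0]; omega
      rw [h2, Finset.card_insert_of_notMem h0, pow_succ]
      ring
  induction E using Finset.induction_on with
  | empty => intro f _; simp
  | insert e E he ih =>
    intro f hf
    rw [key x E e he f, key y E e he f]
    have hf' : Monotone fun S => f (insert e S) := fun S S' h => hf (Finset.insert_subset_insert e h)
    have hB := ih f hf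
    have hA := ih (fun S => f (insert e S)) hf'
    have hAB : ∑ S ∈ E.powerset, f S * (y ^ S.card * (1 - y) ^ (E.card - S.card)) ≤
        ∑ S ∈ E.powerset, f (insert e S) * (y ^ S.card * (1 - y) ^ (E.card - S.card)) := by
      refine Finset.sum_le_sum fun S _ => ?_
      refine mul_le_mul_of_nonneg_right (hf (Finset.subset_insert e S)) ?_
      exact mul_nonneg (pow_nonneg (hx.trans hxy) _) (pow_nonneg (by linarith) _)
    nlinarith [mul_le_mul_of_nonneg_left hB (show (0 : ℝ) ≤ 1 - x by linarith),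
      mul_le_mul_of_nonneg_left hA hx, mul_nonneg (sub_nonneg.2 hxy) (sub_nonneg.2 hAB)]

theorem compl_le {ν : Measure ℝ} [IsProbabilityMeasure ν] (hν : 1 / 2 ≤ ν.real {0})
    {E : Finset (Sym2 V)} {φ : Set (Sym2 V) → Prop} (hφ : Dep E φ) (iφ : Inc φ) :
    Pr ν (fun O => φ Oᶜ) ≤ Pr ν φ := by
  classical
  rw [pr_eq_sum (compl_dep hφ), pr_eq_sum hφ]
  set p : ℝ := ν.real {0} with hp
  have hp1 : p ≤ 1 := measureReal_le_one
  have h1 : ∑ S ∈ E.powerset, (if φ ((S : Set (Sym2 V))ᶜ) then
      p ^ S.card * (1 - p) ^ (E.card - S.card) else 0) =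
      ∑ S ∈ E.powerset, (if φ (S : Set (Sym2 V)) then (1 : ℝ) else 0) *
        ((1 - p) ^ S.card * (1 - (1 - p)) ^ (E.card - S.card)) := by
    refine Finset.sum_nbij' (fun S => E \ S) (fun S => E \ S) ?_ ?_ ?_ ?_ ?_
    · intro S _; exact Finset.mem_powerset.2 Finset.sdiff_subset
    · intro S _; exact Finset.mem_powerset.2 Finset.sdiff_subset
    · intro S hS; exact Finset.sdiff_sdiff_eq_self (Finset.mem_powerset.1 hS)
    · intro S hS; exact Finset.sdiff_sdiff_eq_self (Finset.mem_powerset.1 hS)
    · intro S hS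
      have hS' := Finset.mem_powerset.1 hS
      have h2 : φ ((S : Set (Sym2 V))ᶜ) ↔ φ ((E \ S : Finset (Sym2 V)) : Set (Sym2 V)) := by
        apply hφ
        intro e he
        simp [he]
      have h3 : (E \ S).card = E.card - S.card := Finset.card_sdiff_of_subset hS'
      have h4 : S.card ≤ E.card := Finset.card_le_card hS'
      have h5 : E.card - (E.card - S.card) = S.card := by omega
      rw [h3, h5, sub_sub_cancel]
      by_cases h : φ ((S : Set (Sym2 V))ᶜ)
      · rw [if_pos h, if_pos (h2.1 h)]; ring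
      · rw [if_neg h, if_neg (fun h' => h (h2.2 h'))]; ring
  have h6 : ∑ S ∈ E.powerset, (if φ (S : Set (Sym2 V)) then
      p ^ S.card * (1 - p) ^ (E.card - S.card) else 0) =
      ∑ S ∈ E.powerset, (if φ (S : Set (Sym2 V)) then (1 : ℝ) else 0) *
        (p ^ S.card * (1 - p) ^ (E.card - S.card)) := by
    refine Finset.sum_congr rfl fun S _ => ?_
    by_cases h : φ (S : Set (Sym2 V))
    · rw [if_pos h, if_pos h, one_mul]
    · rw [if_neg h, if_neg h, zero_mul]
  rw [h6]
  refine le_trans (le_of_eq h1) ?_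
  refine bern_mono (x := 1 - p) (y := p) (by linarith) (by linarith) hp1 E _ ?_
  intro S S' h
  simp only
  by_cases hS : φ (S : Set (Sym2 V))
  · rw [if_pos hS, if_pos (iφ _ _ (Finset.coe_subset.2 h) hS)]
  · rw [if_neg hS]; split_ifs <;> norm_num

end Pool.Agent.Work.MP_9a767b_pr.Z
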