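import Pool.Agent.Work.MP_9a767b_pr.Act

/-!
# Zero weights, d = 2: definitions

Throughout `V = ℤ × ℤ`; the weight of the edge `e` in the configuration `ω` is `|ω e|` and
`T ω x y` is the passage time. `zer ω` is the set of the edges of weight zero. THEOREM (goal): if
`1/2 ≤ ν {0}`, then `g ν (n+1,0) - g ν (n,0) → 0`.

The plan. Part P (probability): Harris inequality, independence, comparison of nonzero and zero
edges, symmetries. Part C (combinatorics): planar duality between crossings of a rectangle by zero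
edges and crossings of the dual rectangle by nonzero edges; the boundary of an explored region.
Part R: the Russo, Seymour, Welsh theorem. Part F: circuits of zero edges in annuli and the end of
the proof (on the circuit event `T x (1,0) - T x (0,0)` is the same for all far `x`, and the
reflection that exchanges `(0,0)` and `(1,0)` gives expectation zero).

DUAL LATTICE. A dual vertex is labelled by `z = (i,j) : V`, it is the point `(i+1/2, j+1/2)`. Two
dual vertices `z`, `z'` are adjacent iff `lattice.Adj z z'`, and the edge of the lattice crossed by the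
step from `z` to `z'` is `cr z z' = s(z ⊔ z', z ⊓ z' + (1,1))`: for `z' = z + (1,0)` it is the vertical
edge `s((i+1,j), (i+1,j+1))`, for `z' = z + (0,1)` it is the horizontal edge `s((i,j+1), (i+1,j+1))`.
For the rectangle `Rec 0 a 0 b` the dual rectangle is `Rec (-1) a 0 (b-1)` (dual labels).
-/

open MeasureTheory ProbabilityTheory Filter Topology

namespace Pool.Agent.Work.MP_9a767b_pr.Z

/-- The set of the edges of weight zero. -/
def zer (ω : Cfg) : Set (Sym2 V) := {e | ω e = 0}

/-- The probability of a property of the set of the zero edges. -/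
noncomputable def Pr (ν : Measure ℝ) (φ : Set (Sym2 V) → Prop) : ℝ := (Q ν).real {ω | φ (zer ω)}

/-- `φ` depends only on the edges in the finite set `E`. -/
def Dep (E : Finset (Sym2 V)) (φ : Set (Sym2 V) → Prop) : Prop :=
  ∀ O O' : Set (Sym2 V), (∀ e ∈ E, e ∈ O ↔ e ∈ O') → (φ O ↔ φ O')

/-- `φ` is increasing. -/
def Inc (φ : Set (Sym2 V) → Prop) : Prop := ∀ O O' : Set (Sym2 V), O ⊆ O' → φ O → φ O'

/-- `x` and `y` are joined by a walk with vertices in `D` and edges in `O`. -/
def Con (O : Set (Sym2 V)) (D : Set V) (x y : V) : Prop :=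
  ∃ w : lattice.Walk x y, (∀ v ∈ w.support, v ∈ D) ∧ ∀ e ∈ w.edges, e ∈ O

/-- The rectangle with the columns `a, ..., b` and the rows `c, ..., d`. -/
def Rec (a b c d : ℤ) : Set V := {v | a ≤ v.1 ∧ v.1 ≤ b ∧ c ≤ v.2 ∧ v.2 ≤ d}

/-- The unordered pairs of vertices of the rectangle. -/
noncomputable def EB (a b c d : ℤ) : Finset (Sym2 V) := (Finset.Icc ((a, c) : V) (b, d)).sym2

/-- There is a crossing of the rectangle from the left to the right by edges in `O`. -/
def LR (O : Set (Sym2 V)) (a b c d : ℤ) : Prop := ∃ y y' : ℤ, Con O (Rec a b c d) (a, y) (b, y')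

/-- There is a crossing of the rectangle from the bottom to the top by edges in `O`. -/
def BT (O : Set (Sym2 V)) (a b c d : ℤ) : Prop := ∃ x x' : ℤ, Con O (Rec a b c d) (x, c) (x', d)

/-- The edge of the lattice which is crossed by the dual step from `z` to `z'`. -/
def cr (z z' : V) : Sym2 V := s(z ⊔ z', z ⊓ z' + (1, 1))

/-- The dual vertices `z`, `z'` are joined by a dual walk in `D` (dual labels) which crosses no edge
in `O`. -/
def DCon (O : Set (Sym2 V)) (D : Set V) (z z' : V) : Prop :=
  ∃ w : lattice.Walk z z', (∀ v ∈ w.support, v ∈ D) ∧ ∀ d ∈ w.darts, cr d.fst d.snd ∉ O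

/-- There is a dual crossing of the dual rectangle `Rec (-1) a 0 (b-1)` from the left to the right
which crosses no edge in `O`. -/
def DLR (O : Set (Sym2 V)) (a b : ℤ) : Prop :=
  ∃ j j' : ℤ, DCon O (Rec (-1) a 0 (b - 1)) (-1, j) (a, j')

/-- The edges crossed by the steps between a dual vertex in `A` and a dual vertex in `D` not in `A`. -/
def bdr (D A : Set V) : Set (Sym2 V) :=
  {e | ∃ z z' : V, z ∈ D ∧ z' ∈ D ∧ z ∈ A ∧ z' ∉ A ∧ lattice.Adj z z' ∧ e = cr z z'}

/-- The explored set: the dual vertices of the dual rectangle `Rec (-1) a 0 (b-1)` which are joined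
to its left column by a dual walk which crosses no edge in `O`. -/
def Lset (O : Set (Sym2 V)) (a b : ℤ) : Set V :=
  {z | ∃ j : ℤ, DCon O (Rec (-1) a 0 (b - 1)) (-1, j) z}

/-- The complement of the part of the complement of `L` which is joined to the right column: the set
`L` with its holes filled. -/
def fil (L : Set V) (a b : ℤ) : Set V :=
  {z | z ∈ Rec (-1) a 0 (b - 1) ∧
    ∀ (j : ℤ) (w : lattice.Walk (a, j) z), (∀ v ∈ w.support, v ∈ Rec (-1) a 0 (b - 1)) →
      ∃ v ∈ w.support, v ∈ L}

/-- The row of `v` after reflecting the upper half of the rows `0, ..., 2 b + 1` to the lower half. -/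
def fld (b : ℤ) (v : V) : V := if v.2 ≤ b then v else (v.1, 2 * b + 1 - v.2)

/-- The dual vertex `z` of `Rec (-1) a 0 (b-1)` is one of the (at most four) dual vertices around the
vertex `v` (folded to the lower half). -/
def Sur (a b : ℤ) (v z : V) : Prop :=
  z ∈ Rec (-1) a 0 (b - 1) ∧ (z.1 = v.1 - 1 ∨ z.1 = v.1) ∧
    (z.2 = (fld b v).2 - 1 ∨ z.2 = (fld b v).2)

/-- A vertex none of whose dual neighbours is in `A`. -/
def Rt (A : Set V) (a b : ℤ) (v : V) : Prop := ∀ z : V, Sur a b v z → z ∉ A

/-- The event that the column `m` is joined, in the rectangle `Rec 0 m 0 (2b+1)`, to a vertex `u` of the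
lower half (`up = false`) or upper half (`up = true`) which is not in the region to the right of
`A`, by a walk which stays in this region after the vertex `u`. -/
def Far (O : Set (Sym2 V)) (A : Set V) (a b m : ℤ) (up : Bool) : Prop :=
  ∃ (u y : V) (t : ℤ) (_ : lattice.Adj u y) (w : lattice.Walk y (m, t)),
    (if up = true then b + 1 ≤ u.2 else u.2 ≤ b) ∧ u ∈ Rec 0 m 0 (2 * b + 1) ∧ ¬ Rt A a b u ∧
      s(u, y) ∈ O ∧ (∀ v ∈ w.support, v ∈ Rec 0 m 0 (2 * b + 1) ∧ Rt A a b v) ∧ ∀ e ∈ w.edges, e ∈ O

/-- The event of the key lemma: some vertex `u` of the square `Rec 0 b 0 b` is joined in the square to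
its bottom row and to its top row, and in `Rec 0 m 0 (2b+1)` to the column `m`. -/
def Xev (O : Set (Sym2 V)) (b m : ℤ) : Prop :=
  ∃ (u : V) (x x' t : ℤ), Con O (Rec 0 b 0 b) u (x, 0) ∧ Con O (Rec 0 b 0 b) u (x', b) ∧
    Con O (Rec 0 m 0 (2 * b + 1)) u (m, t)

/-- The mirror image of `Xev` in the line `x = b/2`: the column `b - m` instead of the column `m`. -/
def Yev (O : Set (Sym2 V)) (b m : ℤ) : Prop :=
  ∃ (u : V) (x x' t : ℤ), Con O (Rec 0 b 0 b) u (x, 0) ∧ Con O (Rec 0 b 0 b) u (x', b) ∧
    Con O (Rec (b - m) b 0 (2 * b + 1)) u (b - m, t)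

/-- Crossing probability: `k` steps from the left to the right, `l` steps from the bottom to the top. -/
noncomputable def hh (ν : Measure ℝ) (k l : ℤ) : ℝ := Pr ν (fun O => LR O 0 k 0 l)

/-- The four crossings of the annulus between `Rec (-r) (r+1) (-r) r` and
`Rec (-3r) (3r+1) (-3r) (3r)`. -/
def Circ (O : Set (Sym2 V)) (r : ℤ) : Prop :=
  (LR O (-(3 * r)) (3 * r + 1) (r + 1) (3 * r) ∧ LR O (-(3 * r)) (3 * r + 1) (-(3 * r)) (-r - 1)) ∧
    BT O (-(3 * r)) (-r - 1) (-(3 * r)) (3 * r) ∧ BT O (r + 2) (3 * r + 1) (-(3 * r)) (3 * r)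

open Classical in
/-- The edges that determine the event `Far`: the edges of `Rec 0 m 0 (2b+1)` with an end point in the
region to the right of `A`. -/
noncomputable def Efree (A : Set V) (a b m : ℤ) : Finset (Sym2 V) :=
  (EB 0 m 0 (2 * b + 1)).filter fun e => ∃ v ∈ e, Rt A a b v

open Classical in
/-- The edges that determine whether the explored set is `L`. -/
noncomputable def Eexp (L : Set V) (a b : ℤ) : Finset (Sym2 V) :=
  (EB (-1) (a + 1) 0 b).filter fun e => ∃ z z' : V, z ∈ L ∧ z ∈ Rec (-1) a 0 (b - 1) ∧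
    z' ∈ Rec (-1) a 0 (b - 1) ∧ lattice.Adj z z' ∧ e = cr z z'

/-- The vertex `x` is outside the box `Rec (-3r) (3r+1) (-3r) (3r)`. -/
def Out (r : ℤ) (x : V) : Prop := x ∉ Rec (-(3 * r)) (3 * r + 1) (-(3 * r)) (3 * r)

end Pool.Agent.Work.MP_9a767b_pr.Z
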