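import Pool.Agent.Work.MP_9a767b_pr.Z.Elem

/-!
# DepInc: on which edges the events depend, and monotonicity

PROOF. If `w` is a walk with all vertices in `Rec a b c d`, every edge of `w` is in `EB a b c d` (`mem_EB`);
so if `O` and `O'` agree on `EB a b c d` the same walk works for both. Monotonicity is clear
(`con_mono`). For the annulus: `EB` of the outer box minus `EB` of the inner box: the vertices of the four
rectangles are in the outer box and not in the inner box, so an edge between two of them is not in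
`EB` of the inner box. `circ_disj`: the outer box of `r` is contained in the inner box of `r'` if `3 r ≤ r'`.
-/

open MeasureTheory ProbabilityTheory Filter Topology

namespace Pool.Agent.Work.MP_9a767b_pr.Z

private theorem edge_of {E : Finset (Sym2 V)} {D : Set V} (hE : ∀ u ∈ D, ∀ v ∈ D, s(u, v) ∈ E)
    {x y : V} {w : lattice.Walk x y} (h : ∀ v ∈ w.support, v ∈ D) {e : Sym2 V}
    (he : e ∈ w.edges) : e ∈ E := by
  induction e using Sym2.ind with
  | _ u v =>
    exact hE _ (h _ (w.fst_mem_support_of_mem_edges he)) _ (h _ (w.snd_mem_support_of_mem_edges he))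

private theorem con_of {E : Finset (Sym2 V)} {O O' : Set (Sym2 V)} {D : Set V} {x y : V}
    (hE : ∀ u ∈ D, ∀ v ∈ D, s(u, v) ∈ E) (hO : ∀ e ∈ E, e ∈ O ↔ e ∈ O') :
    Con O D x y ↔ Con O' D x y := by
  constructor
  · rintro ⟨w, h1, h2⟩
    exact ⟨w, h1, fun e he => (hO e (edge_of hE h1 he)).1 (h2 e he)⟩
  · rintro ⟨w, h1, h2⟩
    exact ⟨w, h1, fun e he => (hO e (edge_of hE h1 he)).2 (h2 e he)⟩

private theorem rec_sub {a b c d a' b' c' d' : ℤ} (ha : a' ≤ a) (hb : b ≤ b') (hc : c' ≤ c)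
    (hd : d ≤ d') : ∀ u ∈ Rec a b c d, ∀ v ∈ Rec a b c d, s(u, v) ∈ EB a' b' c' d' := by
  intro u hu v hv
  obtain ⟨h1, h2, h3, h4⟩ := hu
  obtain ⟨k1, k2, k3, k4⟩ := hv
  exact mem_EB.2 ⟨⟨by linarith, by linarith, by linarith, by linarith⟩,
    ⟨by linarith, by linarith, by linarith, by linarith⟩⟩

theorem dep_con {a b c d : ℤ} (x y : V) : Dep (EB a b c d) (fun O => Con O (Rec a b c d) x y) :=
  fun _ _ h => con_of (rec_sub le_rfl le_rfl le_rfl le_rfl) h

theorem dep_lr {a b c d : ℤ} : Dep (EB a b c d) (fun O => LR O a b c d) := by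
  intro O O' h
  exact exists_congr fun y => exists_congr fun y' => dep_con _ _ O O' h

theorem dep_bt {a b c d : ℤ} : Dep (EB a b c d) (fun O => BT O a b c d) := by
  intro O O' h
  exact exists_congr fun y => exists_congr fun y' => dep_con _ _ O O' h

private theorem cr_mem {a b : ℤ} {z z' : V} (hz : z ∈ Rec (-1) a 0 (b - 1))
    (hz' : z' ∈ Rec (-1) a 0 (b - 1)) : cr z z' ∈ EB (-1) (a + 1) 0 b := by
  obtain ⟨x, y⟩ := z
  obtain ⟨x', y'⟩ := z'
  obtain ⟨h1, h2, h3, h4⟩ := hz
  obtain ⟨k1, k2, k3, k4⟩ := hz'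
  simp only at h1 h2 h3 h4 k1 k2 k3 k4
  unfold cr
  rw [mem_EB]
  refine ⟨⟨?_, ?_, ?_, ?_⟩, ⟨?_, ?_, ?_, ?_⟩⟩
  · show -1 ≤ x ⊔ x'
    exact le_sup_of_le_left h1
  · show x ⊔ x' ≤ a + 1
    exact sup_le (by linarith) (by linarith)
  · show 0 ≤ y ⊔ y'
    exact le_sup_of_le_left h3
  · show y ⊔ y' ≤ b
    exact sup_le (by linarith) (by linarith)
  · show -1 ≤ x ⊓ x' + 1
    have : -1 ≤ x ⊓ x' := le_inf h1 k1
    linarith
  · show x ⊓ x' + 1 ≤ a + 1
    have : x ⊓ x' ≤ a := inf_le_of_left_le h2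
    linarith
  · show 0 ≤ y ⊓ y' + 1
    have : 0 ≤ y ⊓ y' := le_inf h3 k3
    linarith
  · show y ⊓ y' + 1 ≤ b
    have : y ⊓ y' ≤ b - 1 := inf_le_of_left_le h4
    linarith

theorem dep_dlr {a b : ℤ} : Dep (EB (-1) (a + 1) 0 b) (fun O => DLR O a b) := by
  intro O O' h
  have key : ∀ (j j' : ℤ) (w : lattice.Walk (-1, j) (a, j')),
      (∀ v ∈ w.support, v ∈ Rec (-1) a 0 (b - 1)) → ∀ d ∈ w.darts,
        cr d.fst d.snd ∈ EB (-1) (a + 1) 0 b := by
    intro j j' w hw d hd
    exact cr_mem (hw _ (w.dart_fst_mem_support_of_mem_darts hd))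
      (hw _ (w.dart_snd_mem_support_of_mem_darts hd))
  refine exists_congr fun j => exists_congr fun j' => ?_
  constructor
  · rintro ⟨w, h1, h2⟩
    exact ⟨w, h1, fun d hd hO => h2 d hd ((h _ (key j j' w h1 d hd)).2 hO)⟩
  · rintro ⟨w, h1, h2⟩
    exact ⟨w, h1, fun d hd hO => h2 d hd ((h _ (key j j' w h1 d hd)).1 hO)⟩

theorem inc_lr {a b c d : ℤ} : Inc (fun O => LR O a b c d) := by
  rintro O O' hO ⟨y, y', h⟩
  exact ⟨y, y', con_mono h hO le_rfl⟩

theorem inc_bt {a b c d : ℤ} : Inc (fun O => BT O a b c d) := by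
  rintro O O' hO ⟨y, y', h⟩
  exact ⟨y, y', con_mono h hO le_rfl⟩

theorem inc_X {b m : ℤ} : Inc (fun O => Xev O b m) := by
  rintro O O' hO ⟨u, x, x', t, h1, h2, h3⟩
  exact ⟨u, x, x', t, con_mono h1 hO le_rfl, con_mono h2 hO le_rfl, con_mono h3 hO le_rfl⟩

theorem inc_Y {b m : ℤ} : Inc (fun O => Yev O b m) := by
  rintro O O' hO ⟨u, x, x', t, h1, h2, h3⟩
  exact ⟨u, x, x', t, con_mono h1 hO le_rfl, con_mono h2 hO le_rfl, con_mono h3 hO le_rfl⟩

theorem inc_circ {r : ℤ} : Inc (fun O => Circ O r) := by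
  rintro O O' hO ⟨⟨h1, h2⟩, h3, h4⟩
  exact ⟨⟨inc_lr O O' hO h1, inc_lr O O' hO h2⟩, inc_bt O O' hO h3, inc_bt O O' hO h4⟩

/-- All events of the gluing step depend on the edges of the long rectangle. -/
theorem dep_X {b m : ℤ} (hb : 0 ≤ b) (hm : b < m) :
    Dep (EB (b - m) m 0 (2 * b + 1)) (fun O => Xev O b m) := by
  intro O O' h
  refine exists_congr fun u => exists_congr fun x => exists_congr fun x' => exists_congr fun t =>
    and_congr ?_ (and_congr ?_ ?_)
  · exact con_of (rec_sub (by linarith) (by linarith) (by linarith) (by linarith)) h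
  · exact con_of (rec_sub (by linarith) (by linarith) (by linarith) (by linarith)) h
  · exact con_of (rec_sub (by linarith) (by linarith) (by linarith) (by linarith)) h

theorem dep_Y {b m : ℤ} (hb : 0 ≤ b) (hm : b < m) :
    Dep (EB (b - m) m 0 (2 * b + 1)) (fun O => Yev O b m) := by
  intro O O' h
  refine exists_congr fun u => exists_congr fun x => exists_congr fun x' => exists_congr fun t =>
    and_congr ?_ (and_congr ?_ ?_)
  · exact con_of (rec_sub (by linarith) (by linarith) (by linarith) (by linarith)) h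
  · exact con_of (rec_sub (by linarith) (by linarith) (by linarith) (by linarith)) h
  · exact con_of (rec_sub (by linarith) (by linarith) (by linarith) (by linarith)) h

theorem dep_circ {r : ℤ} (hr : 1 ≤ r) :
    Dep (EB (-(3 * r)) (3 * r + 1) (-(3 * r)) (3 * r) \ EB (-r) (r + 1) (-r) r)
      (fun O => Circ O r) := by
  intro O O' h
  refine and_congr (and_congr ?_ ?_) (and_congr ?_ ?_)
  · refine exists_congr fun y => exists_congr fun y' => con_of (fun u hu v hv => ?_) h
    rw [Finset.mem_sdiff]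
    refine ⟨rec_sub le_rfl le_rfl (by linarith) le_rfl u hu v hv, fun hn => ?_⟩
    have h1 := (mem_EB.1 hn).1
    obtain ⟨_, _, h3, _⟩ := hu
    obtain ⟨_, _, _, h4⟩ := h1
    linarith
  · refine exists_congr fun y => exists_congr fun y' => con_of (fun u hu v hv => ?_) h
    rw [Finset.mem_sdiff]
    refine ⟨rec_sub le_rfl le_rfl le_rfl (by linarith) u hu v hv, fun hn => ?_⟩
    have h1 := (mem_EB.1 hn).1
    obtain ⟨_, _, _, h3⟩ := hu
    obtain ⟨_, _, h4, _⟩ := h1
    linarith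
  · refine exists_congr fun y => exists_congr fun y' => con_of (fun u hu v hv => ?_) h
    rw [Finset.mem_sdiff]
    refine ⟨rec_sub le_rfl (by linarith) le_rfl le_rfl u hu v hv, fun hn => ?_⟩
    have h1 := (mem_EB.1 hn).1
    obtain ⟨_, h3, _, _⟩ := hu
    obtain ⟨h4, _, _, _⟩ := h1
    linarith
  · refine exists_congr fun y => exists_congr fun y' => con_of (fun u hu v hv => ?_) h
    rw [Finset.mem_sdiff]
    refine ⟨rec_sub (by linarith) le_rfl le_rfl le_rfl u hu v hv, fun hn => ?_⟩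
    have h1 := (mem_EB.1 hn).1
    obtain ⟨h3, _, _, _⟩ := hu
    obtain ⟨_, h4, _, _⟩ := h1
    linarith

theorem circ_disj {r r' : ℤ} (h : 3 * r ≤ r') :
    Disjoint (EB (-(3 * r)) (3 * r + 1) (-(3 * r)) (3 * r))
      (EB (-(3 * r')) (3 * r' + 1) (-(3 * r')) (3 * r') \ EB (-r') (r' + 1) (-r') r') := by
  rw [Finset.disjoint_left]
  intro e he hn
  rw [Finset.mem_sdiff] at hn
  apply hn.2
  induction e using Sym2.ind with
  | _ u v =>
    obtain ⟨hu, hv⟩ := mem_EB.1 he
    exact rec_sub (by linarith) (by linarith) (by linarith) (by linarith) u hu v hv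

end Pool.Agent.Work.MP_9a767b_pr.Z
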