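import Pool.Agent.Work.MP_9a767b_pr.Z.Elem
import Pool.Agent.Work.MP_9a767b_pr.Cross

/-!
# Disj: a bottom top crossing and a dual left right crossing meet

PROOF. Let `P` be a walk from `(x,0)` to `(x',b)` in `Rec 0 a 0 b` with edges in `O`. For a dual vertex `z = (i,j)`
in `Rec (-1) a 0 (b-1)` let `s(i,j)` be the number modulo `2` of the darts of `P` over the vertical edges
`s((i',j), (i',j+1))` with `i' ≤ i`. Horizontal step: `s(i,j) + s(i+1,j)` is the number of darts of `P` over
`s((i+1,j), (i+1,j+1)) = cr (i,j) (i+1,j)`. Vertical step: `s(i,j-1) + s(i,j)` (`1 ≤ j ≤ b-1`) is the number of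
darts of `P` over `s((i,j), (i+1,j)) = cr (i,j-1) (i,j)`: consider the function `t(v) = [v.2 = j and v.1 ≤ i]`
on the vertices: the sum over the darts `(v,v')` of `t v + t v'` is `t(start) + t(end) = 0` (`CrossAux.cnt_bd`;
the start has height `0 < j`, the end has height `b > j`), and `t v + t v' = 1` exactly for the darts over
the vertical edges below and above the vertices `(i',j)`, `i' ≤ i`, and over `s((i,j),(i+1,j))`.
If a dual walk crosses no edge in `O` then it crosses no edge of `P`, so `s` is constant along it. On the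
left column `s(-1,j) = 0` (no vertex of `P` has first coordinate `≤ -1`). On the right column `s(a,j)` is the
number of all darts of `P` between the heights `j` and `j+1`, which is odd: with
`t(v) = [v.2 ≤ j]`, the sum is `t(start) + t(end) = 1`. Contradiction. (The functions `H`, `cnt` of `Cross.lean`
can be used as a model.)
-/

open MeasureTheory ProbabilityTheory Filter Topology

namespace Pool.Agent.Work.MP_9a767b_pr.Z

open CrossAux in
private theorem cnt_congrD {x y : V} (P : lattice.Walk x y) {F G : V → V → ZMod 2}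
    (h : ∀ d ∈ P.darts, F d.fst d.snd = G d.fst d.snd) : cnt P F = cnt P G := by
  unfold cnt
  congr 1
  exact List.map_congr_left fun d hd => h d hd

/-- Indicator of the vertical steps between the heights `j` and `j + 1` at a column at most `i`. -/
private def U (i j : ℤ) (u v : V) : ZMod 2 :=
  if ((u.2 = j ∧ v.2 = j + 1) ∨ (u.2 = j + 1 ∧ v.2 = j)) ∧ u.1 ≤ i then 1 else 0

private theorem U_hor {i j : ℤ} {u v : V} (h : lattice.Adj u v)
    (hne : s(u, v) ≠ s(((i + 1, j) : V), (i + 1, j + 1))) : U i j u v = U (i + 1) j u v := by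
  obtain ⟨u1, u2⟩ := u
  obtain ⟨v1, v2⟩ := v
  have h1 : ¬ (u1 = i + 1 ∧ u2 = j ∧ v1 = i + 1 ∧ v2 = j + 1) := by
    rintro ⟨rfl, rfl, rfl, rfl⟩
    exact hne rfl
  have h2 : ¬ (u1 = i + 1 ∧ u2 = j + 1 ∧ v1 = i + 1 ∧ v2 = j) := by
    rintro ⟨rfl, rfl, rfl, rfl⟩
    exact hne Sym2.eq_swap
  unfold U
  rcases CrossAux.adj_cases h with h | h | h | h <;> simp only [Prod.mk.injEq] at h <;>
    obtain ⟨h3, h4⟩ := h <;> simp only [h3, h4] at * <;> split_ifs <;>
    first
    | rfl
    | (exfalso; omega)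


private theorem U_ver {i j : ℤ} {u v : V} (h : lattice.Adj u v)
    (hne : s(u, v) ≠ s(((i, j + 1) : V), (i + 1, j + 1))) :
    (if u.2 = j + 1 ∧ u.1 ≤ i then (1 : ZMod 2) else 0) +
      (if v.2 = j + 1 ∧ v.1 ≤ i then (1 : ZMod 2) else 0) = U i j u v + U i (j + 1) u v := by
  obtain ⟨u1, u2⟩ := u
  obtain ⟨v1, v2⟩ := v
  have h1 : ¬ (u1 = i ∧ u2 = j + 1 ∧ v1 = i + 1 ∧ v2 = j + 1) := by
    rintro ⟨rfl, rfl, rfl, rfl⟩
    exact hne rfl
  have h2 : ¬ (u1 = i + 1 ∧ u2 = j + 1 ∧ v1 = i ∧ v2 = j + 1) := by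
    rintro ⟨rfl, rfl, rfl, rfl⟩
    exact hne Sym2.eq_swap
  unfold U
  rcases CrossAux.adj_cases h with h | h | h | h <;> simp only [Prod.mk.injEq] at h <;>
    obtain ⟨h3, h4⟩ := h <;> simp only [h3, h4] at * <;> split_ifs <;>
    first
    | rfl
    | (exfalso; omega)

private theorem U_all {a j : ℤ} {u v : V} (h : lattice.Adj u v) (hu : u.1 ≤ a) :
    (if u.2 ≤ j then (1 : ZMod 2) else 0) + (if v.2 ≤ j then (1 : ZMod 2) else 0) =
      U a j u v := by
  obtain ⟨u1, u2⟩ := u
  obtain ⟨v1, v2⟩ := v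
  unfold U
  rcases CrossAux.adj_cases h with h | h | h | h <;> simp only [Prod.mk.injEq] at h <;>
    obtain ⟨h3, h4⟩ := h <;> simp only [h3, h4] at * <;> split_ifs <;>
    first
    | rfl
    | (exfalso; omega)

open CrossAux in
theorem disj {a b : ℤ} (hb : 1 ≤ b) {O : Set (Sym2 V)} (h : BT O 0 a 0 b) : ¬ DLR O a b := by
  obtain ⟨x, x', P, hP, hPO⟩ := h
  rintro ⟨j, j', w, hw, hwO⟩
  -- the edges of `P` are in `O`
  have hdO : ∀ d ∈ P.darts, s(d.fst, d.snd) ∈ O := fun d hd =>
    hPO _ (List.mem_map.2 ⟨d, hd, rfl⟩)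
  -- the steps
  have hright : ∀ i j : ℤ, cr (i, j) (i + 1, j) ∉ O → cnt P (U i j) = cnt P (U (i + 1) j) := by
    intro i j hO
    refine cnt_congrD P fun d hd => U_hor d.adj fun he => hO ?_
    rw [cr_right, ← he]
    exact hdO d hd
  have hup : ∀ i j : ℤ, 0 ≤ j → j + 1 ≤ b - 1 → cr (i, j) (i, j + 1) ∉ O →
      cnt P (U i j) = cnt P (U i (j + 1)) := by
    intro i j h0 h1 hO
    have h3 : ∀ d ∈ P.darts, s(d.fst, d.snd) ≠ s(((i, j + 1) : V), (i + 1, j + 1)) := by
      intro d hd he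
      refine hO ?_
      rw [cr_up, ← he]
      exact hdO d hd
    have h2 : cnt P (U i j) + cnt P (U i (j + 1)) = 0 := by
      rw [← cnt_add, ← cnt_congrD (F := fun u v : V =>
          (if u.2 = j + 1 ∧ u.1 ≤ i then (1 : ZMod 2) else 0) +
            (if v.2 = j + 1 ∧ v.1 ≤ i then (1 : ZMod 2) else 0)) P
          (fun d hd => U_ver (i := i) (j := j) d.adj (h3 d hd)),
        cnt_bd P (fun v : V => if v.2 = j + 1 ∧ v.1 ≤ i then (1 : ZMod 2) else 0)]
      rw [if_neg (by simp only; omega), if_neg (by simp only; omega), add_zero]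
    exact (CharTwo.add_eq_zero).1 h2
  have hstep : ∀ z z' : V, lattice.Adj z z' → z ∈ Rec (-1) a 0 (b - 1) →
      z' ∈ Rec (-1) a 0 (b - 1) → cr z z' ∉ O → cnt P (U z.1 z.2) = cnt P (U z'.1 z'.2) := by
    rintro ⟨i, j⟩ ⟨i', j'⟩ hadj hz hz' hO
    simp only [Rec, Set.mem_ofPred_eq] at hz hz'
    rcases CrossAux.adj_cases hadj with h | h | h | h <;> simp only [Prod.mk.injEq] at h <;>
      obtain ⟨rfl, rfl⟩ := h
    · exact hup _ _ hz.2.2.1 hz'.2.2.2 hO
    · rw [cr_comm] at hO
      exact (hup _ _ hz'.2.2.1 hz.2.2.2 hO).symm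
    · exact hright _ _ hO
    · rw [cr_comm] at hO
      exact (hright _ _ hO).symm
  have hwalk : ∀ (z z' : V) (q : lattice.Walk z z'), (∀ v ∈ q.support, v ∈ Rec (-1) a 0 (b - 1)) →
      (∀ d ∈ q.darts, cr d.fst d.snd ∉ O) → cnt P (U z.1 z.2) = cnt P (U z'.1 z'.2) := by
    intro z z' q
    induction q with
    | nil => exact fun _ _ => rfl
    | @cons u v t huv p ih =>
      intro h1 h2
      rw [hstep u v huv (h1 u (by simp)) (h1 v (by simp))
        (h2 ⟨(u, v), huv⟩ (by simp))]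
      exact ih (fun z hz => h1 z (by simp [hz])) (fun d hd => h2 d (by simp [hd]))
  have hW := hwalk _ _ w hw hwO
  simp only at hW
  have hj' := hw _ w.end_mem_support
  simp only [Rec, Set.mem_ofPred_eq] at hj'
  have h0 : cnt P (U (-1) j) = 0 := by
    rw [← cnt_zero P]
    refine cnt_congr P fun u v _ hu _ => ?_
    have := hP u hu
    simp only [Rec, Set.mem_ofPred_eq] at this
    unfold U
    rw [if_neg (by omega)]
  have h1 : cnt P (U a j') = 1 := by
    rw [← cnt_congr P (fun u v huv hu _ => U_all (j := j') huv (hP u hu).2.1),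
      cnt_bd P (fun v : V => if v.2 ≤ j' then (1 : ZMod 2) else 0)]
    rw [if_pos (by simp only; omega), if_neg (by simp only; omega), add_zero]
  rw [h0, h1] at hW
  exact absurd hW (by decide)

end Pool.Agent.Work.MP_9a767b_pr.Z
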