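import Pool.Agent.Work.MP_9a767b_pr.Z.FinSum
import Pool.Agent.Work.MP_9a767b_pr.Z.DepInc
import Pool.Agent.Work.MP_9a767b_pr.GFacts

/-!
# Sym: symmetries

PROOF. `pr_map`: `zer (act σ ω) = (Sym2.map σ) ⁻¹' zer ω`, and `act σ` preserves `Q ν` (`act_mp`, or
`real_act` of `GFacts.lean`; the event is measurable by `measurableSet_dep`, here for the event
`O ↦ φ ((Sym2.map σ) ⁻¹' O)`; one can use `MeasurePreserving.measure_preimage` with the measurable set
`{ω | φ (zer ω)}`). The other statements: apply it with the translation `trans (s,t)`, the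
reflections `refl1`, `refl2` composed with a translation, and `swp`: a walk for the image set of edges
is mapped to a walk (`SimpleGraph.Walk.map` with the graph homomorphism given by `σ`, see the proof of
`T_act`), `Con ((Sym2.map σ) ⁻¹' O) D x y ↔ Con O (σ '' D) (σ x) (σ y)` (prove this first for `σ` with
`∀ x y, lattice.Adj (σ x) (σ y) ↔ lattice.Adj x y`). `pr_far`: `σ (x, y) = (x, 2b+1-y)`; `fld b (σ v) = fld b v`
if `v.2 ≠ ...`: for `0 ≤ v.2 ≤ 2b+1` (all vertices of the events are in `Rec 0 m 0 (2b+1)`), so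
`Rt A a b (σ v) ↔ Rt A a b v`, and `σ` exchanges `v.2 ≤ b` and `b + 1 ≤ v.2`.
The statement `pr_far` needs measurability, so `Efree`, see the theorem `far_dep` of `Types.lean`; here it
is a hypothesis.
-/

open MeasureTheory ProbabilityTheory Filter Topology

namespace Pool.Agent.Work.MP_9a767b_pr.Z

private theorem con_fwd {f : V → V} (hf : ∀ x y, lattice.Adj x y → lattice.Adj (f x) (f y))
    {O O' : Set (Sym2 V)} {D D' : Set V} (hO : ∀ e ∈ O, Sym2.map f e ∈ O')
    (hD : ∀ v ∈ D, f v ∈ D') {x y : V} (h : Con O D x y) : Con O' D' (f x) (f y) := by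
  obtain ⟨w, h1, h2⟩ := h
  let F : lattice →g lattice := ⟨f, fun {a b} h => hf a b h⟩
  refine ⟨w.map F, fun v hv => ?_, fun e he => ?_⟩
  · rw [SimpleGraph.Walk.support_map, List.mem_map] at hv
    obtain ⟨u, hu, rfl⟩ := hv
    exact hD u (h1 u hu)
  · rw [SimpleGraph.Walk.edges_map, List.mem_map] at he
    obtain ⟨u, hu, rfl⟩ := he
    exact hO u (h2 u hu)

private theorem map_inv {f g : V → V} (h : ∀ v, f (g v) = v) (e : Sym2 V) :
    Sym2.map f (Sym2.map g e) = e := by
  rw [Sym2.map_map]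
  have : f ∘ g = id := funext h
  rw [this, Sym2.map_id]
  rfl

theorem pr_map {ν : Measure ℝ} [IsProbabilityMeasure ν] (σ : V ≃ V) {E : Finset (Sym2 V)}
    {φ : Set (Sym2 V) → Prop} (hφ : Dep E φ) :
    Pr ν (fun O => φ ((Sym2.map σ) ⁻¹' O)) = Pr ν φ :=
  real_act ν σ {ω | φ (zer ω)} (measurableSet_dep hφ)

/-- translation -/
private def tr (a c : ℤ) : V ≃ V where
  toFun v := (a + v.1, c + v.2)
  invFun v := (v.1 - a, v.2 - c)
  left_inv v := by ext <;> simp
  right_inv v := by ext <;> simp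

/-- exchange of the coordinates and translation -/
private def sw (a c : ℤ) : V ≃ V where
  toFun v := (a + v.2, c + v.1)
  invFun v := (v.2 - c, v.1 - a)
  left_inv v := by ext <;> simp
  right_inv v := by ext <;> simp

/-- reflection of the first coordinate -/
private def rf (s : ℤ) : V ≃ V where
  toFun v := (s - v.1, v.2)
  invFun v := (s - v.1, v.2)
  left_inv v := by ext <;> simp
  right_inv v := by ext <;> simp

/-- reflection of the second coordinate -/
private def rg (s : ℤ) : V ≃ V where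
  toFun v := (v.1, s - v.2)
  invFun v := (v.1, s - v.2)
  left_inv v := by ext <;> simp
  right_inv v := by ext <;> simp

private theorem rf_rf (s : ℤ) (v : V) : rf s (rf s v) = v := (rf s).apply_symm_apply v

private theorem rg_rg (s : ℤ) (v : V) : rg s (rg s v) = v := (rg s).apply_symm_apply v

private theorem adj_tr (a c : ℤ) (x y : V) (h : lattice.Adj x y) :
    lattice.Adj (tr a c x) (tr a c y) := by
  rw [adj_iff] at h ⊢
  show |a + x.1 - (a + y.1)| + |c + x.2 - (c + y.2)| = 1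
  rw [add_sub_add_left_eq_sub, add_sub_add_left_eq_sub]
  exact h

private theorem adj_tr' (a c : ℤ) (x y : V) (h : lattice.Adj x y) :
    lattice.Adj ((tr a c).symm x) ((tr a c).symm y) := by
  rw [adj_iff] at h ⊢
  show |x.1 - a - (y.1 - a)| + |x.2 - c - (y.2 - c)| = 1
  rw [sub_sub_sub_cancel_right, sub_sub_sub_cancel_right]
  exact h

private theorem adj_sw (a c : ℤ) (x y : V) (h : lattice.Adj x y) :
    lattice.Adj (sw a c x) (sw a c y) := by
  rw [adj_iff] at h ⊢
  show |a + x.2 - (a + y.2)| + |c + x.1 - (c + y.1)| = 1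
  rw [add_sub_add_left_eq_sub, add_sub_add_left_eq_sub, add_comm]
  exact h

private theorem adj_sw' (a c : ℤ) (x y : V) (h : lattice.Adj x y) :
    lattice.Adj ((sw a c).symm x) ((sw a c).symm y) := by
  rw [adj_iff] at h ⊢
  show |x.2 - c - (y.2 - c)| + |x.1 - a - (y.1 - a)| = 1
  rw [sub_sub_sub_cancel_right, sub_sub_sub_cancel_right, add_comm]
  exact h

private theorem adj_rf (s : ℤ) (x y : V) (h : lattice.Adj x y) :
    lattice.Adj (rf s x) (rf s y) := by
  rw [adj_iff] at h ⊢
  show |s - x.1 - (s - y.1)| + |x.2 - y.2| = 1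
  rw [sub_sub_sub_cancel_left, abs_sub_comm]
  exact h

private theorem adj_rg (s : ℤ) (x y : V) (h : lattice.Adj x y) :
    lattice.Adj (rg s x) (rg s y) := by
  rw [adj_iff] at h ⊢
  show |x.1 - y.1| + |s - x.2 - (s - y.2)| = 1
  rw [sub_sub_sub_cancel_left, abs_sub_comm y.2]
  exact h

theorem pr_lr {ν : Measure ℝ} [IsProbabilityMeasure ν] (a b c d : ℤ) :
    Pr ν (fun O => LR O a b c d) = hh ν (b - a) (d - c) := by
  unfold hh
  rw [← pr_map (tr a c) (dep_lr (a := 0) (b := b - a) (c := 0) (d := d - c))]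
  congr 1
  funext O
  apply propext
  constructor
  · rintro ⟨y, y', h⟩
    have h2 := con_fwd (adj_tr' a c) (O' := (Sym2.map (tr a c)) ⁻¹' O)
      (D' := Rec 0 (b - a) 0 (d - c)) (fun e he => by
        show Sym2.map (tr a c) (Sym2.map (tr a c).symm e) ∈ O
        rw [map_inv (fun v => (tr a c).apply_symm_apply v)]
        exact he) (fun v hv => by
        obtain ⟨h1, h2, h3, h4⟩ := hv
        exact ⟨by show 0 ≤ v.1 - a; omega, by show v.1 - a ≤ b - a; omega,
          by show 0 ≤ v.2 - c; omega, by show v.2 - c ≤ d - c; omega⟩) h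
    refine ⟨y - c, y' - c, ?_⟩
    have e1 : (tr a c).symm (a, y) = (0, y - c) := by
      show ((a - a, y - c) : V) = _
      rw [sub_self]
    have e2 : (tr a c).symm (b, y') = (b - a, y' - c) := rfl
    rw [e1, e2] at h2
    exact h2
  · rintro ⟨y, y', h⟩
    have h2 := con_fwd (adj_tr a c) (O' := O) (D' := Rec a b c d) (fun e he => he) (fun v hv => by
        obtain ⟨h1, h2, h3, h4⟩ := hv
        exact ⟨by show a ≤ a + v.1; omega, by show a + v.1 ≤ b; omega,
          by show c ≤ c + v.2; omega, by show c + v.2 ≤ d; omega⟩) h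
    refine ⟨c + y, c + y', ?_⟩
    have e1 : tr a c (0, y) = (a, c + y) := by
      show ((a + 0, c + y) : V) = _
      rw [add_zero]
    have e2 : tr a c (b - a, y') = (b, c + y') := by
      show ((a + (b - a), c + y') : V) = _
      rw [add_sub_cancel]
    rw [e1, e2] at h2
    exact h2

theorem pr_bt {ν : Measure ℝ} [IsProbabilityMeasure ν] (a b c d : ℤ) :
    Pr ν (fun O => BT O a b c d) = hh ν (d - c) (b - a) := by
  unfold hh
  rw [← pr_map (sw a c) (dep_lr (a := 0) (b := d - c) (c := 0) (d := b - a))]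
  congr 1
  funext O
  apply propext
  constructor
  · rintro ⟨y, y', h⟩
    have h2 := con_fwd (adj_sw' a c) (O' := (Sym2.map (sw a c)) ⁻¹' O)
      (D' := Rec 0 (d - c) 0 (b - a)) (fun e he => by
        show Sym2.map (sw a c) (Sym2.map (sw a c).symm e) ∈ O
        rw [map_inv (fun v => (sw a c).apply_symm_apply v)]
        exact he) (fun v hv => by
        obtain ⟨h1, h2, h3, h4⟩ := hv
        exact ⟨by show 0 ≤ v.2 - c; omega, by show v.2 - c ≤ d - c; omega,
          by show 0 ≤ v.1 - a; omega, by show v.1 - a ≤ b - a; omega⟩) h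
    refine ⟨y - a, y' - a, ?_⟩
    have e1 : (sw a c).symm (y, c) = (0, y - a) := by
      show ((c - c, y - a) : V) = _
      rw [sub_self]
    have e2 : (sw a c).symm (y', d) = (d - c, y' - a) := rfl
    rw [e1, e2] at h2
    exact h2
  · rintro ⟨y, y', h⟩
    have h2 := con_fwd (adj_sw a c) (O' := O) (D' := Rec a b c d) (fun e he => he) (fun v hv => by
        obtain ⟨h1, h2, h3, h4⟩ := hv
        exact ⟨by show a ≤ a + v.2; omega, by show a + v.2 ≤ b; omega,
          by show c ≤ c + v.1; omega, by show c + v.1 ≤ d; omega⟩) h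
    refine ⟨a + y, a + y', ?_⟩
    have e1 : sw a c (0, y) = (a + y, c) := by
      show ((a + y, c + 0) : V) = _
      rw [add_zero]
    have e2 : sw a c (d - c, y') = (a + y', d) := by
      show ((a + y', c + (d - c)) : V) = _
      rw [add_sub_cancel]
    rw [e1, e2] at h2
    exact h2

theorem pr_Y {ν : Measure ℝ} [IsProbabilityMeasure ν] {b m : ℤ} (hb : 0 ≤ b) (hm : b < m) :
    Pr ν (fun O => Yev O b m) = Pr ν (fun O => Xev O b m) := by
  rw [← pr_map (rf b) (dep_X hb hm)]
  congr 1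
  funext O
  apply propext
  have hs : ∀ {O O' : Set (Sym2 V)}, (∀ e ∈ O, Sym2.map (rf b) e ∈ O') → ∀ {x y : V},
      Con O (Rec 0 b 0 b) x y → Con O' (Rec 0 b 0 b) (rf b x) (rf b y) := by
    intro O O' hO x y h
    exact con_fwd (adj_rf b) hO (fun v hv => by
      obtain ⟨h1, h2, h3, h4⟩ := hv
      exact ⟨by show 0 ≤ b - v.1; omega, by show b - v.1 ≤ b; omega, h3, h4⟩) h
  have hfix : rf b (b - m, 0) = (m, 0) := by
    show ((b - (b - m), 0) : V) = _
    rw [sub_sub_cancel]
  constructor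
  · rintro ⟨u, x, x', t, h1, h2, h3⟩
    have hO : ∀ e ∈ O, Sym2.map (rf b) e ∈ (Sym2.map (rf b)) ⁻¹' O := fun e he => by
      show Sym2.map (rf b) (Sym2.map (rf b) e) ∈ O
      rw [map_inv (f := rf b) (g := rf b) (rf_rf b)]
      exact he
    refine ⟨rf b u, b - x, b - x', t, hs hO h1, hs hO h2, ?_⟩
    have h4 := con_fwd (adj_rf b) hO (D' := Rec 0 m 0 (2 * b + 1)) (fun v hv => by
      obtain ⟨h1, h2, h3, h4⟩ := hv
      exact ⟨by show 0 ≤ b - v.1; omega, by show b - v.1 ≤ m; omega, h3, h4⟩) h3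
    have e1 : rf b (b - m, t) = (m, t) := by
      show ((b - (b - m), t) : V) = _
      rw [sub_sub_cancel]
    rw [e1] at h4
    exact h4
  · rintro ⟨u, x, x', t, h1, h2, h3⟩
    have hO : ∀ e ∈ (Sym2.map (rf b)) ⁻¹' O, Sym2.map (rf b) e ∈ O := fun e he => he
    refine ⟨rf b u, b - x, b - x', t, hs hO h1, hs hO h2, ?_⟩
    exact con_fwd (adj_rf b) hO (D' := Rec (b - m) b 0 (2 * b + 1)) (fun v hv => by
      obtain ⟨h1, h2, h3, h4⟩ := hv
      exact ⟨by show b - m ≤ b - v.1; omega, by show b - v.1 ≤ b; omega, h3, h4⟩) h3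

private theorem fld_rg (b : ℤ) (v : V) : fld b (rg (2 * b + 1) v) = fld b v := by
  have h0 : rg (2 * b + 1) v = (v.1, 2 * b + 1 - v.2) := rfl
  rw [h0]
  unfold fld
  simp only
  by_cases h : v.2 ≤ b
  · rw [if_neg (by omega), if_pos h]
    rw [sub_sub_cancel]
  · rw [if_pos (by omega), if_neg h]

private theorem rt_rg {A : Set V} {a b : ℤ} (v : V) : Rt A a b (rg (2 * b + 1) v) ↔ Rt A a b v := by
  unfold Rt Sur
  rw [fld_rg]
  exact Iff.rfl

private theorem walk_rg (s : ℤ) {p q : V} (w : lattice.Walk p q) :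
    ∃ W : lattice.Walk (rg s p) (rg s q), (∀ v ∈ W.support, ∃ z ∈ w.support, rg s z = v) ∧
      ∀ e ∈ W.edges, ∃ z ∈ w.edges, Sym2.map (rg s) z = e := by
  let F : lattice →g lattice := ⟨rg s, fun {x y} h => adj_rg s x y h⟩
  refine ⟨w.map F, fun v hv => ?_, fun e he => ?_⟩
  · have h : v ∈ (w.map F).support := hv
    rw [SimpleGraph.Walk.support_map, List.mem_map] at h
    exact h
  · have h : e ∈ (w.map F).edges := he
    rw [SimpleGraph.Walk.edges_map, List.mem_map] at h
    exact h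

private theorem far_fwd {A : Set V} {a b m : ℤ} {O O' : Set (Sym2 V)}
    (hO : ∀ e ∈ O, Sym2.map (rg (2 * b + 1)) e ∈ O') {up : Bool} (h : Far O A a b m up) :
    Far O' A a b m (!up) := by
  obtain ⟨u, y, t, hadj, w, h1, h2, h3, h4, h5, h6⟩ := h
  obtain ⟨W, hW1, hW2⟩ := walk_rg (2 * b + 1) w
  refine ⟨rg (2 * b + 1) u, rg (2 * b + 1) y, 2 * b + 1 - t, adj_rg _ _ _ hadj, W, ?_, ?_, ?_,
    ?_, ?_, ?_⟩
  · cases up
    · simp only [Bool.false_eq_true, if_false, Bool.not_false, if_true] at h1 ⊢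
      show b + 1 ≤ 2 * b + 1 - u.2
      omega
    · simp only [Bool.false_eq_true, if_false, Bool.not_true, if_true] at h1 ⊢
      show 2 * b + 1 - u.2 ≤ b
      omega
  · obtain ⟨k1, k2, k3, k4⟩ := h2
    exact ⟨k1, k2, by show 0 ≤ 2 * b + 1 - u.2; omega, by show 2 * b + 1 - u.2 ≤ 2 * b + 1; omega⟩
  · rw [rt_rg]
    exact h3
  · exact hO _ h4
  · intro v hv
    obtain ⟨z, hz, rfl⟩ := hW1 v hv
    obtain ⟨⟨k1, k2, k3, k4⟩, k5⟩ := h5 z hz
    refine ⟨⟨k1, k2, by show 0 ≤ 2 * b + 1 - z.2; omega,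
      by show 2 * b + 1 - z.2 ≤ 2 * b + 1; omega⟩, ?_⟩
    exact (rt_rg z).2 k5
  · intro e he
    obtain ⟨z, hz, rfl⟩ := hW2 e he
    exact hO z (h6 z hz)

theorem pr_far {ν : Measure ℝ} [IsProbabilityMeasure ν] {A : Set V} {a b m : ℤ}
    {E : Finset (Sym2 V)} (h : Dep E (fun O => Far O A a b m false)) :
    Pr ν (fun O => Far O A a b m true) = Pr ν (fun O => Far O A a b m false) := by
  rw [← pr_map (rg (2 * b + 1)) h]
  congr 1
  funext O
  apply propext
  constructor
  · intro h1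
    exact far_fwd (O' := (Sym2.map (rg (2 * b + 1))) ⁻¹' O) (fun e he => by
      show Sym2.map (rg (2 * b + 1)) (Sym2.map (rg (2 * b + 1)) e) ∈ O
      rw [map_inv (f := rg (2 * b + 1)) (g := rg (2 * b + 1)) (rg_rg (2 * b + 1))]
      exact he) h1
  · intro h1
    exact far_fwd (O' := O) (fun e he => he) h1

end Pool.Agent.Work.MP_9a767b_pr.Z
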