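import Pool.Agent.Work.MP_9a767b_pr.Z.Comp
import Pool.Agent.Work.MP_9a767b_pr.Z.Sym

/-!
# DualP: a dual crossing by nonzero edges is not more likely than a crossing by zero edges

PROOF. Let `du : Sym2 V → Sym2 V` be `cr x y` on the lattice edge `s(x,y)` (`cr` is symmetric) and the identity
on the pairs which are not edges. It is injective (`cr_right`, `cr_up`: the image of an edge is an edge and
determines it), so `ω ↦ ω ∘ du` preserves `Q ν` (`Measure.map_infinitePi_infinitePi_of_inj`, see `act_mp`).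
The zero set of `ω ∘ du` is `du ⁻¹' (zer ω)`. A dual walk in `Rec (-1) a 0 (b-1)` from the left to the
right which crosses no edge in `O` is a walk of the lattice whose edges are in `(du ⁻¹' O)ᶜ`, so
`DLR O a b ↔ LR (du ⁻¹' O)ᶜ (-1) a 0 (b - 1)`. Hence
`Pr ν (fun O => DLR O a b) = Pr ν (fun O => LR Oᶜ (-1) a 0 (b-1)) ≤ Pr ν (fun O => LR O (-1) a 0 (b-1))`
(`compl_le`, `dep_lr`, `inc_lr`), and this is `hh ν (a + 1) (b - 1)` (`pr_lr`).
-/

open MeasureTheory ProbabilityTheory Filter Topology

namespace Pool.Agent.Work.MP_9a767b_pr.Z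

open Classical in
/-- The crossing edge of a pair (the pair itself, if it is not an edge of the lattice). -/
noncomputable def du : Sym2 V → Sym2 V :=
  Sym2.lift ⟨fun x y => if lattice.Adj x y then cr x y else s(x, y), fun x y => by
    beta_reduce
    by_cases h : lattice.Adj x y
    · rw [if_pos h, if_pos h.symm, cr_comm]
    · rw [if_neg h, if_neg (fun h' => h h'.symm), Sym2.eq_swap]⟩

theorem du_adj {x y : V} (h : lattice.Adj x y) : du s(x, y) = cr x y := by
  unfold du
  rw [Sym2.lift_mk]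
  simp only
  rw [if_pos h]

theorem du_nadj {x y : V} (h : ¬ lattice.Adj x y) : du s(x, y) = s(x, y) := by
  unfold du
  rw [Sym2.lift_mk]
  simp only
  rw [if_neg h]

theorem edge_two {x y : V} (h : lattice.Adj x y) :
    (∃ i j : ℤ, s(x, y) = s((i, j), (i + 1, j))) ∨ ∃ i j : ℤ, s(x, y) = s((i, j), (i, j + 1)) := by
  rcases adj4 h with h1 | h1 | h1 | h1
  · exact Or.inl ⟨x.1, x.2, by rw [h1]⟩
  · exact Or.inl ⟨y.1, y.2, by rw [h1, Sym2.eq_swap]⟩
  · exact Or.inr ⟨x.1, x.2, by rw [h1]⟩
  · exact Or.inr ⟨y.1, y.2, by rw [h1, Sym2.eq_swap]⟩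

theorem du_right (i j : ℤ) : du s((i, j), (i + 1, j)) = s((i + 1, j), (i + 1, j + 1)) := by
  rw [du_adj (adj_right i j), cr_right]

theorem du_up (i j : ℤ) : du s((i, j), (i, j + 1)) = s((i, j + 1), (i + 1, j + 1)) := by
  rw [du_adj (adj_up i j), cr_up]

theorem right_inj {i j i' j' : ℤ} (h : (s((i, j), (i + 1, j)) : Sym2 V) = s((i', j'), (i' + 1, j'))) :
    i = i' ∧ j = j' := by
  simp only [Sym2.eq_iff, Prod.mk.injEq] at h
  omega

theorem up_inj {i j i' j' : ℤ} (h : (s((i, j), (i, j + 1)) : Sym2 V) = s((i', j'), (i', j' + 1))) :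
    i = i' ∧ j = j' := by
  simp only [Sym2.eq_iff, Prod.mk.injEq] at h
  omega

theorem right_ne_up {i j i' j' : ℤ} (h : (s((i, j), (i + 1, j)) : Sym2 V) = s((i', j'), (i', j' + 1))) :
    False := by
  simp only [Sym2.eq_iff, Prod.mk.injEq] at h
  omega

theorem du_injective : Function.Injective du := by
  intro e e' he
  induction e with | _ x y
  induction e' with | _ x' y'
  by_cases h : lattice.Adj x y
  · by_cases h' : lattice.Adj x' y'
    · rcases edge_two h with ⟨i, j, h1⟩ | ⟨i, j, h1⟩ <;>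
        rcases edge_two h' with ⟨i', j', h2⟩ | ⟨i', j', h2⟩ <;> rw [h1, h2] at he ⊢
      · rw [du_right, du_right] at he
        obtain ⟨h3, h4⟩ := up_inj he
        have : i = i' := by omega
        rw [this, h4]
      · rw [du_right, du_up] at he
        exact (right_ne_up he.symm).elim
      · rw [du_up, du_right] at he
        exact (right_ne_up he).elim
      · rw [du_up, du_up] at he
        obtain ⟨h3, h4⟩ := right_inj he
        have : j = j' := by omega
        rw [this, h3]
    · exfalso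
      rw [du_nadj h'] at he
      rcases edge_two h with ⟨i, j, h1⟩ | ⟨i, j, h1⟩ <;> rw [h1] at he
      · rw [du_right] at he
        apply h'
        rw [← SimpleGraph.mem_edgeSet, ← he]
        exact adj_up _ _
      · rw [du_up] at he
        apply h'
        rw [← SimpleGraph.mem_edgeSet, ← he]
        exact adj_right _ _
  · by_cases h' : lattice.Adj x' y'
    · exfalso
      rw [du_nadj h] at he
      rcases edge_two h' with ⟨i, j, h1⟩ | ⟨i, j, h1⟩ <;> rw [h1] at he
      · rw [du_right] at he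
        apply h
        rw [← SimpleGraph.mem_edgeSet, he]
        exact adj_up _ _
      · rw [du_up] at he
        apply h
        rw [← SimpleGraph.mem_edgeSet, he]
        exact adj_right _ _
    · rw [du_nadj h, du_nadj h'] at he
      exact he

theorem du_mp (ν : Measure ℝ) [IsProbabilityMeasure ν] :
    MeasurePreserving (fun (ω : Cfg) (e : Sym2 V) => ω (du e)) (Q ν) (Q ν) := by
  refine ⟨measurable_pi_lambda _ fun e => measurable_pi_apply _, ?_⟩
  unfold Q
  exact Measure.map_infinitePi_infinitePi_of_inj (P := fun _ : Sym2 V => ν)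
    (f := du) du_injective

theorem pr_du {ν : Measure ℝ} [IsProbabilityMeasure ν] {E : Finset (Sym2 V)}
    {φ : Set (Sym2 V) → Prop} (hφ : Dep E φ) :
    Pr ν (fun O => φ (du ⁻¹' O)) = Pr ν φ := by
  unfold Pr
  exact (du_mp ν).measureReal_preimage (measurableSet_dep hφ).nullMeasurableSet

theorem dlr_iff {O : Set (Sym2 V)} {a b : ℤ} :
    DLR O a b ↔ LR (du ⁻¹' O)ᶜ (-1) a 0 (b - 1) := by
  unfold DLR LR DCon Con
  have key : ∀ {z z' : V} (w : lattice.Walk z z'),
      (∀ d ∈ w.darts, cr d.fst d.snd ∉ O) ↔ ∀ e ∈ w.edges, e ∈ (du ⁻¹' O)ᶜ := by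
    intro z z' w
    unfold SimpleGraph.Walk.edges
    simp only [List.mem_map, forall_exists_index, and_imp, forall_apply_eq_imp_iff₂]
    refine forall₂_congr fun d _ => ?_
    have : du d.edge = cr d.fst d.snd := du_adj d.adj
    rw [Set.mem_compl_iff, Set.mem_preimage, this]
  simp only [key]

theorem pr_dlr {ν : Measure ℝ} [IsProbabilityMeasure ν] (hν : 1 / 2 ≤ ν.real {0}) (a b : ℤ) :
    Pr ν (fun O => DLR O a b) ≤ hh ν (a + 1) (b - 1) := by
  have h1 : Pr ν (fun O => DLR O a b) =
      Pr ν (fun O => (fun O' => LR O'ᶜ (-1) a 0 (b - 1)) (du ⁻¹' O)) := by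
    unfold Pr
    simp only [dlr_iff]
  rw [h1, pr_du (compl_dep (dep_lr (a := -1) (b := a) (c := 0) (d := b - 1)))]
  refine (compl_le hν (dep_lr (a := -1) (b := a) (c := 0) (d := b - 1)) inc_lr).trans ?_
  rw [pr_lr]
  refine le_of_eq ?_
  congr 1
  ring

end Pool.Agent.Work.MP_9a767b_pr.Z
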