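import Pool.Agent.Work.MP_9a767b_pr.Z.Elem

/-!
# Fill: the explored set with its holes filled

Write `D = Rec (-1) a 0 (b-1)`, `L = Lset O a b`, `A = fil L a b`; `z ∈ A` iff `z ∈ D` and every walk in `D` from
the right column to `z` meets `L`.
PROOFS. `lset_left`: the walk of length `0`. `lset_sub`: the support of the walk is in `D`. `fil_of_mem`: the end
point `z` of the walk is in `L`. `fil_left`: both. `fil_right`: `z` in the right column, the walk of length `0`
meets `L` only if `z ∈ L`, then `DLR O a b`. `fil_cR`: if `z ∈ D`, `z ∉ A` there is a walk in `D` from `(a,j)` to `z`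
which does not meet `L`; every vertex `v` on it is not in `A` (the part up to `v`); reverse it.
`fil_cL`: `z ∈ A`. Walk from `z` to the left along the row of `z` to the left column (which is in `L`), and
let `q` be the first vertex of this walk in `L`. A vertex `v` before `q` is in `A`: otherwise a walk in
`D` from `(a,j)` to `v` which does not meet `L`, followed by the way back to `z` (not in `L`), shows `z ∉ A`.
(If `z ∈ L` then `q = z`.) From `q` go to the left column inside `L ⊆ A`: all vertices of a dual walk from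
`(-1,j)` to `q` that crosses no edge in `O` are in `L`.
`fil_bdr`: let `z ∈ A`, `z' ∉ A` be adjacent, both in `D`. A walk in `D` from `(a,j)` to `z'` that does not meet `L`,
followed by the step to `z`, must meet `L`, so `z ∈ L`, and `z' ∉ L`. If `cr z z' ∉ O` the dual walk to `z` could be
continued to `z'`, so `cr z z' ∈ O`.
-/

open MeasureTheory ProbabilityTheory Filter Topology

namespace Pool.Agent.Work.MP_9a767b_pr.Z

theorem lset_left {O : Set (Sym2 V)} {a b : ℤ} {z : V} (hz : z ∈ Rec (-1) a 0 (b - 1))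
    (h : z.1 = -1) : z ∈ Lset O a b := by
  obtain ⟨x, y⟩ := z
  simp only at h
  subst h
  refine ⟨y, SimpleGraph.Walk.nil, fun v hv => ?_, fun d hd => ?_⟩
  · rw [SimpleGraph.Walk.support_nil, List.mem_singleton] at hv
    rw [hv]
    exact hz
  · simp at hd

theorem lset_sub {O : Set (Sym2 V)} {a b : ℤ} : Lset O a b ⊆ Rec (-1) a 0 (b - 1) := by
  rintro z ⟨j, w, h1, -⟩
  exact h1 z w.end_mem_support

theorem fil_of_mem {L : Set V} {a b : ℤ} {z : V} (hz : z ∈ Rec (-1) a 0 (b - 1)) (h : z ∈ L) :
    z ∈ fil L a b :=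
  ⟨hz, fun _ w _ => ⟨z, w.end_mem_support, h⟩⟩

theorem fil_right' {L : Set V} {a b : ℤ} (hL : ∀ z ∈ Rec (-1) a 0 (b - 1), z.1 = a → z ∉ L) :
    ∀ z ∈ Rec (-1) a 0 (b - 1), z.1 = a → z ∉ fil L a b := by
  rintro ⟨x, y⟩ hz h ⟨-, h2⟩
  simp only at h
  subst h
  obtain ⟨v, hv, hvL⟩ := h2 y SimpleGraph.Walk.nil (fun v hv => by
    rw [SimpleGraph.Walk.support_nil, List.mem_singleton] at hv
    rw [hv]
    exact hz)
  rw [SimpleGraph.Walk.support_nil, List.mem_singleton] at hv
  rw [hv] at hvL
  exact hL _ hz rfl hvL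

theorem fil_left {O : Set (Sym2 V)} {a b : ℤ} :
    ∀ z ∈ Rec (-1) a 0 (b - 1), z.1 = -1 → z ∈ fil (Lset O a b) a b :=
  fun _ hz h => fil_of_mem hz (lset_left hz h)

theorem fil_right {O : Set (Sym2 V)} {a b : ℤ} (h : ¬ DLR O a b) :
    ∀ z ∈ Rec (-1) a 0 (b - 1), z.1 = a → z ∉ fil (Lset O a b) a b := by
  refine fil_right' ?_
  rintro ⟨x, y⟩ hz hx ⟨j, hj⟩
  simp only at hx
  subst hx
  exact h ⟨j, y, hj⟩

/-- A walk from the right column that avoids `L` shows that its vertices are not in `fil L a b`. -/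
private theorem not_fil {L : Set V} {a b j : ℤ} {z : V} (w : lattice.Walk (a, j) z)
    (h1 : ∀ v ∈ w.support, v ∈ Rec (-1) a 0 (b - 1)) (h2 : ∀ v ∈ w.support, v ∉ L) :
    ∀ v ∈ w.support, v ∉ fil L a b := by
  classical
  rintro v hv ⟨-, h3⟩
  obtain ⟨u, hu, huL⟩ := h3 j (w.takeUntil v hv)
    (fun u hu => h1 u (w.support_takeUntil_subset_support hv hu))
  exact h2 u (w.support_takeUntil_subset_support hv hu) huL

private theorem exists_avoid {L : Set V} {a b : ℤ} {z : V} (hz : z ∈ Rec (-1) a 0 (b - 1))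
    (h : z ∉ fil L a b) : ∃ (j : ℤ) (w : lattice.Walk (a, j) z),
      (∀ v ∈ w.support, v ∈ Rec (-1) a 0 (b - 1)) ∧ ∀ v ∈ w.support, v ∉ L := by
  by_contra hc
  apply h
  refine ⟨hz, fun j w hw => ?_⟩
  by_contra hn
  exact hc ⟨j, w, hw, fun v hv hL => hn ⟨v, hv, hL⟩⟩

private theorem lset_walk {O : Set (Sym2 V)} {a b : ℤ} {z : V} (hz : z ∈ Lset O a b) :
    ∃ (j : ℤ) (w : lattice.Walk z (-1, j)),
      ∀ v ∈ w.support, v ∈ Rec (-1) a 0 (b - 1) ∧ v ∈ Lset O a b := by
  classical
  obtain ⟨j, w, h1, h2⟩ := hz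
  refine ⟨j, w.reverse, fun v hv => ?_⟩
  rw [SimpleGraph.Walk.support_reverse, List.mem_reverse] at hv
  refine ⟨h1 v hv, j, w.takeUntil v hv, fun u hu =>
    h1 u (w.support_takeUntil_subset_support hv hu), fun d hd => h2 d ?_⟩
  exact w.darts_takeUntil_subset_darts hv hd

theorem fil_cL {O : Set (Sym2 V)} {a b : ℤ} :
    ∀ z ∈ Rec (-1) a 0 (b - 1), z ∈ fil (Lset O a b) a b →
      ∃ (j : ℤ) (w : lattice.Walk z (-1, j)),
        ∀ v ∈ w.support, v ∈ Rec (-1) a 0 (b - 1) ∧ v ∈ fil (Lset O a b) a b := by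
  have key : ∀ (n : ℕ) (z : V), z.1 = -1 + n → z ∈ Rec (-1) a 0 (b - 1) →
      z ∈ fil (Lset O a b) a b → ∃ (j : ℤ) (w : lattice.Walk z (-1, j)),
        ∀ v ∈ w.support, v ∈ Rec (-1) a 0 (b - 1) ∧ v ∈ fil (Lset O a b) a b := by
    intro n
    induction n with
    | zero =>
      intro z hz1 hz hA
      obtain ⟨j, w, hw⟩ := lset_walk (lset_left (O := O) hz (by simpa using hz1))
      exact ⟨j, w, fun v hv => ⟨(hw v hv).1, fil_of_mem (hw v hv).1 (hw v hv).2⟩⟩
    | succ n ih =>
      intro z hz1 hz hA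
      by_cases hzL : z ∈ Lset O a b
      · obtain ⟨j, w, hw⟩ := lset_walk hzL
        exact ⟨j, w, fun v hv => ⟨(hw v hv).1, fil_of_mem (hw v hv).1 (hw v hv).2⟩⟩
      obtain ⟨x, y⟩ := z
      simp only at hz1
      push_cast at hz1
      have hadj : lattice.Adj (x - 1, y) (x, y) := by
        have := adj_right (x - 1) y
        rwa [sub_add_cancel] at this
      have hz' : ((x - 1, y) : V) ∈ Rec (-1) a 0 (b - 1) := by
        obtain ⟨k1, k2, k3, k4⟩ := hz
        simp only at k1 k2 k3 k4
        refine ⟨?_, ?_, k3, k4⟩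
        · show -1 ≤ x - 1
          have : (0 : ℤ) ≤ n := Int.natCast_nonneg n
          linarith
        · show x - 1 ≤ a
          linarith
      have hA' : ((x - 1, y) : V) ∈ fil (Lset O a b) a b := by
        by_contra hn
        obtain ⟨j, w, h1, h2⟩ := exists_avoid hz' hn
        refine absurd hA (not_fil (w.append (SimpleGraph.Walk.cons hadj SimpleGraph.Walk.nil))
          (fun v hv => ?_) (fun v hv => ?_) (x, y) (SimpleGraph.Walk.end_mem_support _))
        · rw [SimpleGraph.Walk.mem_support_append_iff] at hv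
          rcases hv with hv | hv
          · exact h1 v hv
          · rw [SimpleGraph.Walk.support_cons, SimpleGraph.Walk.support_nil, List.mem_cons,
              List.mem_singleton] at hv
            rcases hv with rfl | rfl
            · exact hz'
            · exact hz
        · rw [SimpleGraph.Walk.mem_support_append_iff] at hv
          rcases hv with hv | hv
          · exact h2 v hv
          · rw [SimpleGraph.Walk.support_cons, SimpleGraph.Walk.support_nil, List.mem_cons,
              List.mem_singleton] at hv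
            rcases hv with rfl | rfl
            · exact h2 _ w.end_mem_support
            · exact hzL
      obtain ⟨j, w, hw⟩ := ih (x - 1, y) (by
        show x - 1 = -1 + (n : ℤ)
        linarith) hz' hA'
      refine ⟨j, SimpleGraph.Walk.cons hadj.symm w, fun v hv => ?_⟩
      rw [SimpleGraph.Walk.support_cons, List.mem_cons] at hv
      rcases hv with rfl | hv
      · exact ⟨hz, hA⟩
      · exact hw v hv
  intro z hz hA
  obtain ⟨n, hn⟩ := Int.eq_ofNat_of_zero_le (show 0 ≤ z.1 + 1 by linarith [hz.1])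
  exact key n z (by linarith) hz hA

theorem fil_cR {L : Set V} {a b : ℤ} :
    ∀ z ∈ Rec (-1) a 0 (b - 1), z ∉ fil L a b →
      ∃ (j : ℤ) (w : lattice.Walk z (a, j)),
        ∀ v ∈ w.support, v ∈ Rec (-1) a 0 (b - 1) ∧ v ∉ fil L a b := by
  intro z hz hn
  obtain ⟨j, w, h1, h2⟩ := exists_avoid hz hn
  refine ⟨j, w.reverse, fun v hv => ?_⟩
  rw [SimpleGraph.Walk.support_reverse, List.mem_reverse] at hv
  exact ⟨h1 v hv, not_fil w h1 h2 v hv⟩

theorem fil_bdr {O : Set (Sym2 V)} {a b : ℤ} :
    bdr (Rec (-1) a 0 (b - 1)) (fil (Lset O a b) a b) ⊆ O := by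
  rintro e ⟨z, z', hz, hz', hA, hA', hadj, rfl⟩
  obtain ⟨j, w, h1, h2⟩ := exists_avoid hz' hA'
  have hz'L : z' ∉ Lset O a b := h2 z' w.end_mem_support
  have hzL : z ∈ Lset O a b := by
    by_contra hzL
    refine absurd hA (not_fil (w.append (SimpleGraph.Walk.cons hadj.symm SimpleGraph.Walk.nil))
      (fun v hv => ?_) (fun v hv => ?_) z (SimpleGraph.Walk.end_mem_support _))
    · rw [SimpleGraph.Walk.mem_support_append_iff] at hv
      rcases hv with hv | hv
      · exact h1 v hv
      · rw [SimpleGraph.Walk.support_cons, SimpleGraph.Walk.support_nil, List.mem_cons,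
          List.mem_singleton] at hv
        rcases hv with rfl | rfl
        · exact hz'
        · exact hz
    · rw [SimpleGraph.Walk.mem_support_append_iff] at hv
      rcases hv with hv | hv
      · exact h2 v hv
      · rw [SimpleGraph.Walk.support_cons, SimpleGraph.Walk.support_nil, List.mem_cons,
          List.mem_singleton] at hv
        rcases hv with rfl | rfl
        · exact hz'L
        · exact hzL
  by_contra hO
  apply hz'L
  obtain ⟨i, u, k1, k2⟩ := hzL
  refine ⟨i, u.append (SimpleGraph.Walk.cons hadj SimpleGraph.Walk.nil), fun v hv => ?_,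
    fun d hd => ?_⟩
  · rw [SimpleGraph.Walk.mem_support_append_iff] at hv
    rcases hv with hv | hv
    · exact k1 v hv
    · rw [SimpleGraph.Walk.support_cons, SimpleGraph.Walk.support_nil, List.mem_cons,
        List.mem_singleton] at hv
      rcases hv with rfl | rfl
      · exact hz
      · exact hz'
  · rw [SimpleGraph.Walk.darts_append, List.mem_append] at hd
    rcases hd with hd | hd
    · exact k2 d hd
    · rw [SimpleGraph.Walk.darts_cons, SimpleGraph.Walk.darts_nil, List.mem_singleton] at hd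
      rw [hd]
      exact hO

end Pool.Agent.Work.MP_9a767b_pr.Z
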