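import Pool.Agent.Work.MP_9a767b_pr.Z.Wall
import Pool.Agent.Work.MP_9a767b_pr.Z.Fill

/-!
# Duality: a crossing by edges in `O` or a dual crossing by edges not in `O`

PROOF. Suppose that there is no dual crossing, and let `A = fil (Lset O a b) a b`. On the bottom row of the dual
rectangle `(-1,0) ∈ A` (`fil_left`) and `(a,0) ∉ A` (`fil_right`), so there is `i` with `-1 ≤ i < a`, `(i,0) ∈ A`,
`(i+1,0) ∉ A`. Apply `wall` with `z = (i,0)`, `z' = (i+1,0)`, `u = (i+1,0)` (`cr_right`): `u` is joined in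
`Rec 0 a 0 b` by edges in `bdr ... ⊆ O` (`fil_bdr`) to the top row and `u` is in the bottom row itself.
-/

open MeasureTheory ProbabilityTheory Filter Topology

namespace Pool.Agent.Work.MP_9a767b_pr.Z

theorem duality {a b : ℤ} (ha : 0 ≤ a) (hb : 1 ≤ b) (O : Set (Sym2 V)) :
    BT O 0 a 0 b ∨ DLR O a b := by
  by_cases hD : DLR O a b
  · exact Or.inr hD
  left
  have hrow : ∀ i : ℤ, -1 ≤ i → i ≤ a → ((i, 0) : V) ∈ Rec (-1) a 0 (b - 1) := fun i h1 h2 =>
    ⟨h1, h2, le_rfl, by linarith⟩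
  obtain ⟨i, h1, h2, h3, h4⟩ : ∃ i : ℤ, -1 ≤ i ∧ i + 1 ≤ a ∧
      ((i, 0) : V) ∈ fil (Lset O a b) a b ∧ ((i + 1, 0) : V) ∉ fil (Lset O a b) a b := by
    by_contra hc
    have key : ∀ n : ℕ, -1 + (n : ℤ) ≤ a → ((-1 + (n : ℤ), 0) : V) ∈ fil (Lset O a b) a b := by
      intro n
      induction n with
      | zero =>
        intro _
        refine fil_left _ (hrow _ (by simp) (by simp; linarith)) (by simp)
      | succ n ih =>
        intro hn
        push_cast at hn ⊢
        have hn' : -1 + (n : ℤ) + 1 ≤ a := by linarith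
        by_contra hno
        refine hc ⟨-1 + n, ?_, hn', ih (by linarith), ?_⟩
        · have : (0 : ℤ) ≤ n := Int.natCast_nonneg n
          linarith
        · rw [add_assoc]
          exact hno
    obtain ⟨n, hn⟩ := Int.eq_ofNat_of_zero_le (show 0 ≤ a + 1 by linarith)
    have h5 := key n (by linarith)
    have h6 : -1 + (n : ℤ) = a := by linarith
    rw [h6] at h5
    exact fil_right hD _ (hrow a (by linarith) le_rfl) rfl h5
  have hu : ((i + 1, 0) : V) ∈ cr (i, 0) (i + 1, 0) := by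
    rw [cr_right]
    exact Sym2.mem_mk_left _ _
  obtain ⟨-, x, hx⟩ := wall hb (fil_left (O := O)) (fil_right hD) fil_cL fil_cR
    (hrow i h1 (by linarith)) (hrow (i + 1) (by linarith) h2) h3 h4 (adj_right i 0) hu
  exact ⟨i + 1, x, con_mono hx fil_bdr le_rfl⟩

end Pool.Agent.Work.MP_9a767b_pr.Z
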