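import Pool.Agent.Work.MP_9a767b_pr.Z.Elem

/-!
# Explore: the event that the explored set is `L` depends only on the edges around `L`

PROOF. Let `O`, `O'` agree on `Eexp L a b`, `D = Rec (-1) a 0 (b-1)`, and `Lset O a b = L`. First,
`Lset O' a b ⊆ L`: let `w` be a dual walk in `D` from `(-1,j)` to `z` that crosses no edge in `O'`; by induction
along the walk all its vertices are in `L` and reachable for `O`: the start is in `Lset O a b = L`; if `v ∈ L` and
the next vertex is `v'`, then `cr v v' ∈ Eexp L a b` (it is in `EB (-1) (a+1) 0 b` by `cr_right`, `cr_up`,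
`mem_EB`) and `cr v v' ∉ O'`, so `cr v v' ∉ O` and `v' ∈ Lset O a b = L`. Second, `L ⊆ Lset O' a b`: let `w` be a dual
walk in `D` from `(-1,j)` to `z ∈ L` that crosses no edge in `O`; all its vertices are in `Lset O a b = L`, so all
crossed edges are in `Eexp L a b` and not in `O`, hence not in `O'`.
-/

open MeasureTheory ProbabilityTheory Filter Topology

namespace Pool.Agent.Work.MP_9a767b_pr.Z

private theorem cr_mem_EB {a b : ℤ} {u v : V} (hu : u ∈ Rec (-1) a 0 (b - 1))
    (hv : v ∈ Rec (-1) a 0 (b - 1)) (h : lattice.Adj u v) : cr u v ∈ EB (-1) (a + 1) 0 b := by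
  obtain ⟨i, j⟩ := u
  obtain ⟨k, l⟩ := v
  have h4 := adj4 h
  simp only [Rec, Set.mem_ofPred_eq] at hu hv
  rcases h4 with h4 | h4 | h4 | h4
  · rw [h4, cr_right, mem_EB]
    simp only [Prod.mk.injEq] at h4
    simp only [Rec, Set.mem_ofPred_eq]
    omega
  · rw [h4, cr_comm, cr_right, mem_EB]
    simp only [Prod.mk.injEq] at h4
    simp only [Rec, Set.mem_ofPred_eq]
    omega
  · rw [h4, cr_up, mem_EB]
    simp only [Prod.mk.injEq] at h4
    simp only [Rec, Set.mem_ofPred_eq]
    omega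
  · rw [h4, cr_comm, cr_up, mem_EB]
    simp only [Prod.mk.injEq] at h4
    simp only [Rec, Set.mem_ofPred_eq]
    omega

private theorem dcon_snoc {O : Set (Sym2 V)} {D : Set V} {x u v : V} (h : DCon O D x u)
    (hv : v ∈ D) (ha : lattice.Adj u v) (hc : cr u v ∉ O) : DCon O D x v := by
  obtain ⟨w, h1, h2⟩ := h
  refine ⟨w.concat ha, ?_, ?_⟩
  · intro y hy
    rw [SimpleGraph.Walk.support_concat, List.mem_append] at hy
    rcases hy with hy | hy
    · exact h1 y hy
    · rw [List.mem_singleton] at hy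
      exact hy ▸ hv
  · intro d hd
    rw [SimpleGraph.Walk.darts_concat, List.concat_eq_append, List.mem_append] at hd
    rcases hd with hd | hd
    · exact h2 d hd
    · rw [List.mem_singleton] at hd
      subst hd
      exact hc

private theorem lset_snoc {O : Set (Sym2 V)} {a b : ℤ} {u v : V} (h : u ∈ Lset O a b)
    (hv : v ∈ Rec (-1) a 0 (b - 1)) (ha : lattice.Adj u v) (hc : cr u v ∉ O) :
    v ∈ Lset O a b := by
  obtain ⟨j, hj⟩ := h
  exact ⟨j, dcon_snoc hj hv ha hc⟩

/-- the induction along a walk -/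
private theorem walk_ind {O1 O O' : Set (Sym2 V)} {L : Set V} {a b : ℤ}
    (hO : ∀ e ∈ Eexp L a b, e ∈ O ↔ e ∈ O') (hL : Lset O a b = L)
    (h1 : O1 = O ∨ O1 = O') {u z : V} (w : lattice.Walk u z)
    (hw : ∀ v ∈ w.support, v ∈ Rec (-1) a 0 (b - 1)) (hd : ∀ d ∈ w.darts, cr d.fst d.snd ∉ O1)
    (hu : u ∈ Lset O a b) (hu' : u ∈ Lset O' a b) : z ∈ Lset O a b ∧ z ∈ Lset O' a b := by
  induction w with
  | nil => exact ⟨hu, hu'⟩
  | @cons u v z h p ih =>
    have huD : u ∈ Rec (-1) a 0 (b - 1) := hw u (by simp)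
    have hvD : v ∈ Rec (-1) a 0 (b - 1) := hw v (by simp)
    have hc1 : cr u v ∉ O1 := hd ⟨(u, v), h⟩ (by simp)
    have hE : cr u v ∈ Eexp L a b := by
      classical
      unfold Eexp
      rw [Finset.mem_filter]
      exact ⟨cr_mem_EB huD hvD h, u, v, hL ▸ hu, huD, hvD, h, rfl⟩
    have hiff := hO _ hE
    have hc : cr u v ∉ O ∧ cr u v ∉ O' := by
      rcases h1 with h1 | h1
      · subst h1
        exact ⟨hc1, fun hh => hc1 (hiff.2 hh)⟩
      · subst h1
        exact ⟨fun hh => hc1 (hiff.1 hh), hc1⟩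
    refine ih (fun y hy => hw y ?_) (fun d hd' => hd d ?_) (lset_snoc hu hvD h hc.1)
      (lset_snoc hu' hvD h hc.2)
    · rw [SimpleGraph.Walk.support_cons]
      exact List.mem_cons_of_mem _ hy
    · rw [SimpleGraph.Walk.darts_cons]
      exact List.mem_cons_of_mem _ hd'

private theorem lset_start {O : Set (Sym2 V)} {a b j : ℤ} (h : ((-1, j) : V) ∈ Rec (-1) a 0 (b - 1)) :
    ((-1, j) : V) ∈ Lset O a b := by
  refine ⟨j, SimpleGraph.Walk.nil, ?_, ?_⟩
  · intro v hv
    simp only [SimpleGraph.Walk.support_nil, List.mem_singleton] at hv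
    exact hv ▸ h
  · intro d hd
    simp at hd

private theorem explore_one {O O' : Set (Sym2 V)} {L : Set V} {a b : ℤ}
    (hO : ∀ e ∈ Eexp L a b, e ∈ O ↔ e ∈ O') (hL : Lset O a b = L) : Lset O' a b = L := by
  apply Set.Subset.antisymm
  · rintro z ⟨j, w, h1, h2⟩
    have hs : ((-1, j) : V) ∈ Rec (-1) a 0 (b - 1) := h1 _ w.start_mem_support
    rw [← hL]
    exact (walk_ind hO hL (Or.inr rfl) w h1 h2 (lset_start hs) (lset_start hs)).1
  · intro z hz
    rw [← hL] at hz
    obtain ⟨j, w, h1, h2⟩ := hz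
    have hs : ((-1, j) : V) ∈ Rec (-1) a 0 (b - 1) := h1 _ w.start_mem_support
    exact (walk_ind hO hL (Or.inl rfl) w h1 h2 (lset_start hs) (lset_start hs)).2

theorem explore_dep (L : Set V) (a b : ℤ) : Dep (Eexp L a b) (fun O => Lset O a b = L) := by
  intro O O' h
  exact ⟨fun hL => explore_one h hL, fun hL => explore_one (fun e he => (h e he).symm) hL⟩

end Pool.Agent.Work.MP_9a767b_pr.Z
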