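import Pool.Agent.Work.MP_9a767b_pr.Z.Elem

/-!
# FinSum: the probability of a finite event as a finite sum

PROOF. `measurableSet_dep`: the set is the union over the (finitely many) `S ⊆ E` with `φ S` of the sets
`{ω | ∀ e ∈ E, (ω e = 0 ↔ e ∈ S)}`, a finite intersection of measurable sets (`Dep` with
`O' = {e ∈ E | ω e = 0}`). `pr_eq_sum`: these sets are disjoint; the probability of one of them is the
product over `e ∈ E` of `p` (if `e ∈ S`) or `1 - p` (if not), where `p = ν.real {0}`:
it is the set `Set.pi E (fun e => if e ∈ S then {0} else {0}ᶜ)`, `Measure.infinitePi_pi`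
(for a finite set of coordinates), and `∏ = p^|S| (1-p)^(|E|-|S|)` (`Finset.prod_ite`).
`compl_dep`: if `φ` depends only on `E`, so does `O ↦ φ Oᶜ`.
-/

open MeasureTheory ProbabilityTheory Filter Topology

namespace Pool.Agent.Work.MP_9a767b_pr.Z

theorem compl_dep {E : Finset (Sym2 V)} {φ : Set (Sym2 V) → Prop} (h : Dep E φ) :
    Dep E (fun O => φ Oᶜ) := by
  intro O O' hO
  exact h _ _ fun e he => not_congr (hO e he)

/-- the event that the set of the zero edges in `E` is `S` -/
private def cell (E S : Finset (Sym2 V)) : Set Cfg := {ω | ∀ e ∈ E, (ω e = 0 ↔ e ∈ S)}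

open Classical in
private theorem cell_pi (E S : Finset (Sym2 V)) :
    cell E S = Set.pi (E : Set (Sym2 V)) (fun e => if e ∈ S then ({0} : Set ℝ) else {0}ᶜ) := by
  ext ω
  simp only [cell, Set.mem_ofPred_eq, Set.mem_pi, Finset.mem_coe]
  refine forall₂_congr fun e _ => ?_
  by_cases h : e ∈ S
  · simp [h]
  · simp [h]

private theorem cell_meas (E S : Finset (Sym2 V)) : MeasurableSet (cell E S) := by
  classical
  rw [cell_pi]
  refine MeasurableSet.pi E.countable_toSet fun e _ => ?_
  split_ifs
  · exact measurableSet_singleton 0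
  · exact (measurableSet_singleton 0).compl

open Classical in
private theorem event_eq {E : Finset (Sym2 V)} {φ : Set (Sym2 V) → Prop} (h : Dep E φ) :
    {ω : Cfg | φ (zer ω)} =
      ⋃ S ∈ E.powerset.filter (fun S : Finset (Sym2 V) => φ (S : Set (Sym2 V))), cell E S := by
  ext ω
  simp only [Set.mem_ofPred_eq, Set.mem_iUnion, Finset.mem_filter, Finset.mem_powerset, exists_prop]
  constructor
  · intro hω
    refine ⟨E.filter (fun e => ω e = 0), ⟨Finset.filter_subset _ _, ?_⟩, fun e he => ?_⟩
    · refine (h (zer ω) _ fun e he => ?_).1 hω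
      simp [zer, he]
    · simp [he]
  · rintro ⟨S, ⟨_, hφ⟩, hω⟩
    exact (h (zer ω) _ fun e he => hω e he).2 hφ

theorem measurableSet_dep {E : Finset (Sym2 V)} {φ : Set (Sym2 V) → Prop} (h : Dep E φ) :
    MeasurableSet {ω : Cfg | φ (zer ω)} := by
  classical
  rw [event_eq h]
  exact Finset.measurableSet_biUnion _ fun S _ => cell_meas E S

private theorem cell_real {ν : Measure ℝ} [IsProbabilityMeasure ν] {E S : Finset (Sym2 V)}
    (hS : S ⊆ E) : (Q ν).real (cell E S) =
      ν.real {0} ^ S.card * (1 - ν.real {0}) ^ (E.card - S.card) := by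
  classical
  have hm : ∀ e : Sym2 V, MeasurableSet (if e ∈ S then ({0} : Set ℝ) else {0}ᶜ) := by
    intro e
    split_ifs
    · exact measurableSet_singleton 0
    · exact (measurableSet_singleton 0).compl
  have h1 : (Q ν) (cell E S) = ∏ e ∈ E, ν (if e ∈ S then ({0} : Set ℝ) else {0}ᶜ) := by
    rw [cell_pi]
    exact Measure.infinitePi_pi _ (fun e _ => hm e)
  have h2 : (Q ν).real (cell E S) = ∏ e ∈ E, ν.real (if e ∈ S then ({0} : Set ℝ) else {0}ᶜ) := by
    rw [measureReal_def, h1, ENNReal.toReal_prod]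
    rfl
  have h3 : ∀ e ∈ E, ν.real (if e ∈ S then ({0} : Set ℝ) else {0}ᶜ) =
      if e ∈ S then ν.real {0} else 1 - ν.real {0} := by
    intro e _
    split_ifs
    · rfl
    · exact probReal_compl_eq_one_sub (measurableSet_singleton 0)
  rw [h2, Finset.prod_congr rfl h3, Finset.prod_ite, Finset.prod_const, Finset.prod_const]
  have h4 : E.filter (fun e => e ∈ S) = S := by
    ext e
    simp only [Finset.mem_filter]
    exact ⟨fun h => h.2, fun h => ⟨hS h, h⟩⟩
  have h5 : E.filter (fun e => e ∉ S) = E \ S := by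
    ext e
    simp only [Finset.mem_filter, Finset.mem_sdiff]
  rw [h4, h5, Finset.card_sdiff_of_subset hS]

open Classical in
theorem pr_eq_sum {ν : Measure ℝ} [IsProbabilityMeasure ν] {E : Finset (Sym2 V)}
    {φ : Set (Sym2 V) → Prop} (h : Dep E φ) :
    Pr ν φ = ∑ S ∈ E.powerset, if φ (S : Set (Sym2 V)) then
      ν.real {0} ^ S.card * (1 - ν.real {0}) ^ (E.card - S.card) else 0 := by
  have hP : IsProbabilityMeasure (Q ν) := by
    unfold Q
    infer_instance
  unfold Pr
  rw [event_eq h, measureReal_biUnion_finset, Finset.sum_filter]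
  · refine Finset.sum_congr rfl fun S hS => ?_
    rw [cell_real (Finset.mem_powerset.1 hS)]
  · intro S hS S' hS' hne
    rw [Function.onFun, Set.disjoint_left]
    intro ω h1 h2
    apply hne
    have hSE : S ⊆ E := Finset.mem_powerset.1 (Finset.mem_filter.1 hS).1
    have hSE' : S' ⊆ E := Finset.mem_powerset.1 (Finset.mem_filter.1 hS').1
    ext e
    constructor
    · intro he
      exact (h2 e (hSE he)).1 ((h1 e (hSE he)).2 he)
    · intro he
      exact (h1 e (hSE' he)).1 ((h2 e (hSE' he)).2 he)
  · intro S _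
    exact cell_meas E S

end Pool.Agent.Work.MP_9a767b_pr.Z
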