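import Pool.Agent.Work.MP_9a767b_pr.Z.Elem
import Pool.Agent.Work.MP_9a767b_pr.U.Lrbt

/-!
# Glue: gluing two crossings (deterministic)

PROOF. Let `u` be the vertex of `Xev O b m`; the walks from `u` to the bottom row and to the top row of the
square `S = Rec 0 b 0 b` give a bottom top crossing `P` of `S` through `u`, all of whose vertices are joined
to `u` in `S` (`con_mem`). In the same way `P'`, `u'` for `Yev O b m`. Let `G` be the left right crossing of `S` in
`LR O 0 b 0 b`. By `lrbt` (file `U/Lrbt.lean`) `G` meets `P` and `P'`. So `u` and `u'` are joined in `S` by edges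
in `O`. Both `Rec 0 m 0 (2b+1)` and `Rec (b-m) b 0 (2b+1)` and `S` are contained in
`Rec (b-m) m 0 (2b+1)`, so the column `b - m` is joined to the column `m` in this rectangle.
-/

open MeasureTheory ProbabilityTheory Filter Topology

namespace Pool.Agent.Work.MP_9a767b_pr.Z

private theorem meet {O : Set (Sym2 V)} {b : ℤ} {u : V} {x x' s s' : ℤ}
    (h1 : Con O (Rec 0 b 0 b) u (x, 0)) (h2 : Con O (Rec 0 b 0 b) u (x', b))
    (h3 : Con O (Rec 0 b 0 b) (0, s) (b, s')) : Con O (Rec 0 b 0 b) u (0, s) := by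
  obtain ⟨w, hw1, hw2⟩ := con_trans (con_symm h1) h2
  obtain ⟨G, hG1, hG2⟩ := h3
  obtain ⟨v, hv1, hv2⟩ := U.lrbt (x1 := 0) (x2 := b) (y1 := 0) (y2 := b) G w rfl rfl rfl rfl
    (fun v hv => hG1 v hv) (fun v hv => hw1 v hv)
  have e1 := (con_mem hG1 hG2 hv1).1
  have e2 := (con_mem hw1 hw2 hv2).1
  exact con_trans (con_trans h1 e2) (con_symm e1)

theorem glue {O : Set (Sym2 V)} {b m : ℤ} (hb : 1 ≤ b) (hm : b < m) (hX : Xev O b m)
    (hY : Yev O b m) (hS : LR O 0 b 0 b) : LR O (b - m) m 0 (2 * b + 1) := by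
  obtain ⟨u, x, x', t, c1, c2, c3⟩ := hX
  obtain ⟨u', y, y', t', d1, d2, d3⟩ := hY
  obtain ⟨s, s', hs⟩ := hS
  have e1 := meet c1 c2 hs
  have e2 := meet d1 d2 hs
  have r1 : Rec 0 b 0 b ⊆ Rec (b - m) m 0 (2 * b + 1) := by
    rintro v ⟨h1, h2, h3, h4⟩
    exact ⟨by omega, by omega, by omega, by omega⟩
  have r2 : Rec 0 m 0 (2 * b + 1) ⊆ Rec (b - m) m 0 (2 * b + 1) := by
    rintro v ⟨h1, h2, h3, h4⟩
    exact ⟨by omega, by omega, by omega, by omega⟩
  have r3 : Rec (b - m) b 0 (2 * b + 1) ⊆ Rec (b - m) m 0 (2 * b + 1) := by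
    rintro v ⟨h1, h2, h3, h4⟩
    exact ⟨by omega, by omega, by omega, by omega⟩
  refine ⟨t', t, ?_⟩
  exact con_trans (con_symm (con_mono d3 subset_rfl r3))
    (con_trans (con_mono (con_trans e2 (con_symm e1)) subset_rfl r1) (con_mono c3 subset_rfl r2))

end Pool.Agent.Work.MP_9a767b_pr.Z
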