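import Pool.Agent.Work.MP_9a767b_pr.Z.FinSum

/-!
# Indep: independence of events that depend on disjoint sets of edges

PROOF. `pr_and`: with `pr_eq_sum` for `E ∪ E'` (both events depend on it; `Dep` is monotone in the set)
and the bijection `S ↦ (S ∩ E, S ∩ E')` of the subsets of `E ∪ E'` with the pairs of subsets (or
directly with the independence of disjoint families of coordinates under `Measure.infinitePi`, for
instance `iIndepFun_infinitePi` and `iIndepFun.indepFun_finset`, the events being preimages under the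
restrictions to `E`, `E'`; see `LocLLN.lean`, theorem `indep`, for a similar argument).
`pr_le_of_imp`, `pr_not`, `pr_or_le`: monotonicity, complement and subadditivity of `(Q ν).real`
(`measurableSet_dep` for the complement; `measureReal_mono`, `measureReal_union_le`).
-/

open MeasureTheory ProbabilityTheory Filter Topology

namespace Pool.Agent.Work.MP_9a767b_pr.Z

theorem dep_mono {E E' : Finset (Sym2 V)} {φ : Set (Sym2 V) → Prop} (h : Dep E φ) (hE : E ⊆ E') :
    Dep E' φ := fun O O' hO => h O O' fun e he => hO e (hE he)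

open Classical in
/-- Extension by zero of a configuration on the edges of `E`. -/
private noncomputable def extz (E : Finset (Sym2 V)) (x : E → ℝ) : Cfg :=
  fun e => if h : e ∈ E then x ⟨e, h⟩ else 0

private theorem measurable_extz (E : Finset (Sym2 V)) : Measurable (extz E) := by
  classical
  refine measurable_pi_lambda _ fun e => ?_
  unfold extz
  by_cases h : e ∈ E
  · simp only [h, dite_true]
    exact measurable_pi_apply _
  · simp only [h, dite_false]
    exact measurable_const

private theorem dep_extz {E : Finset (Sym2 V)} {φ : Set (Sym2 V) → Prop} (h : Dep E φ) (ω : Cfg) :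
    φ (zer ω) ↔ φ (zer (extz E fun e => ω e)) := by
  refine h _ _ fun e he => ?_
  unfold zer extz
  simp only [Set.mem_ofPred_eq, he, dite_true]

theorem pr_and {ν : Measure ℝ} [IsProbabilityMeasure ν] {E E' : Finset (Sym2 V)}
    {φ ψ : Set (Sym2 V) → Prop} (hφ : Dep E φ) (hψ : Dep E' ψ) (hE : Disjoint E E') :
    Pr ν (fun O => φ O ∧ ψ O) = Pr ν φ * Pr ν ψ := by
  have h0 : iIndepFun (fun (e : Sym2 V) (ω : Cfg) => ω e) (Q ν) := by
    unfold Q
    exact iIndepFun_infinitePi (P := fun _ : Sym2 V => ν) (X := fun _ (x : ℝ) => x)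
      (fun _ => measurable_id)
  have h1 := h0.indepFun_finset E E' hE (fun e => measurable_pi_apply e)
  have hA : MeasurableSet {x : E → ℝ | φ (zer (extz E x))} :=
    measurable_extz E (measurableSet_dep hφ)
  have hB : MeasurableSet {x : E' → ℝ | ψ (zer (extz E' x))} :=
    measurable_extz E' (measurableSet_dep hψ)
  have h2 := h1.measure_inter_preimage_eq_mul _ _ hA hB
  have eA : {ω : Cfg | φ (zer ω)} =
      (fun (ω : Cfg) (e : E) => ω e) ⁻¹' {x : E → ℝ | φ (zer (extz E x))} := by
    ext ω
    exact dep_extz hφ ω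
  have eB : {ω : Cfg | ψ (zer ω)} =
      (fun (ω : Cfg) (e : E') => ω e) ⁻¹' {x : E' → ℝ | ψ (zer (extz E' x))} := by
    ext ω
    exact dep_extz hψ ω
  have eC : {ω : Cfg | φ (zer ω) ∧ ψ (zer ω)} = {ω : Cfg | φ (zer ω)} ∩ {ω : Cfg | ψ (zer ω)} := rfl
  unfold Pr
  rw [eC, eA, eB, measureReal_def, measureReal_def, measureReal_def, h2, ENNReal.toReal_mul]

theorem pr_le_of_imp {ν : Measure ℝ} [IsProbabilityMeasure ν] {φ ψ : Set (Sym2 V) → Prop}
    (h : ∀ O, φ O → ψ O) : Pr ν φ ≤ Pr ν ψ := by
  unfold Pr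
  exact measureReal_mono fun ω hω => h _ hω

theorem pr_or_le {ν : Measure ℝ} [IsProbabilityMeasure ν] {φ ψ χ : Set (Sym2 V) → Prop}
    (h : ∀ O, φ O → ψ O ∨ χ O) : Pr ν φ ≤ Pr ν ψ + Pr ν χ := by
  unfold Pr
  refine (measureReal_mono (s₂ := {ω : Cfg | ψ (zer ω)} ∪ {ω : Cfg | χ (zer ω)})
    fun ω hω => h _ hω).trans ?_
  exact measureReal_union_le _ _

theorem pr_not {ν : Measure ℝ} [IsProbabilityMeasure ν] {E : Finset (Sym2 V)}
    {φ : Set (Sym2 V) → Prop} (hφ : Dep E φ) : Pr ν (fun O => ¬ φ O) = 1 - Pr ν φ := by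
  unfold Pr
  have h := probReal_compl_eq_one_sub (μ := Q ν) (measurableSet_dep hφ)
  rw [← h]
  rfl

theorem pr_nonneg {ν : Measure ℝ} {φ : Set (Sym2 V) → Prop} : 0 ≤ Pr ν φ := by
  unfold Pr
  exact measureReal_nonneg

end Pool.Agent.Work.MP_9a767b_pr.Z
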