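import Pool.Agent.Work.MP_9a767b_pr.Z.Duality
import Pool.Agent.Work.MP_9a767b_pr.Z.DualP
import Pool.Agent.Work.MP_9a767b_pr.Z.Indep
import Pool.Agent.Work.MP_9a767b_pr.Z.DepInc

/-!
# Half: the self dual rectangle

PROOF. `duality` with `a = b - 1`: `1 ≤ Pr (BT O 0 (b-1) 0 b) + Pr (DLR O (b-1) b)` (`pr_or_le` with the event
`True`), the first is `hh ν b (b-1)` (`pr_bt`), the second is at most `hh ν b (b-1)` (`pr_dlr`).
`hh_mono`: a crossing of the rectangle `Rec 0 k' 0 l'` from the left to the right contains a crossing of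
`Rec 0 k 0 l'` if `0 ≤ k ≤ k'` (the part up to the first visit of the column `k`), and
`Rec 0 k 0 l' ⊆ Rec 0 k 0 l` if `l' ≤ l`.
-/

open MeasureTheory ProbabilityTheory Filter Topology

namespace Pool.Agent.Work.MP_9a767b_pr.Z

private theorem first_visit {O : Set (Sym2 V)} {k k' l l' : ℤ} (h0 : 0 ≤ k) (hl : l' ≤ l) {x z : V}
    (w : lattice.Walk x z) : (∀ v ∈ w.support, v ∈ Rec 0 k' 0 l') → (∀ e ∈ w.edges, e ∈ O) →
    x.1 ≤ k → k ≤ z.1 → ∃ t : ℤ, Con O (Rec 0 k 0 l) x (k, t) := by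
  induction w with
  | @nil u =>
    intro h1 _ hx hz
    have hu := h1 u (by simp)
    have e : u.1 = k := le_antisymm hx hz
    refine ⟨u.2, ?_⟩
    have e2 : (k, u.2) = u := by rw [← e]
    rw [e2]
    refine ⟨SimpleGraph.Walk.nil, fun v hv => ?_, fun e he => by simp at he⟩
    rw [SimpleGraph.Walk.support_nil, List.mem_singleton] at hv
    subst hv
    exact ⟨hu.1, hx, hu.2.2.1, hu.2.2.2.trans hl⟩
  | @cons u v z hadj w ih =>
    intro h1 h2 hx hz
    have hu := h1 u (by simp)
    have huR : u ∈ Rec 0 k 0 l := ⟨hu.1, hx, hu.2.2.1, hu.2.2.2.trans hl⟩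
    by_cases e : u.1 = k
    · refine ⟨u.2, ?_⟩
      have e2 : (k, u.2) = u := by rw [← e]
      rw [e2]
      refine ⟨SimpleGraph.Walk.nil, fun v hv => ?_, fun e he => by simp at he⟩
      rw [SimpleGraph.Walk.support_nil, List.mem_singleton] at hv
      subst hv
      exact huR
    · have hv1 : v.1 ≤ k := by
        rcases adj4 hadj with h | h | h | h
        · rw [h]
          show u.1 + 1 ≤ k
          omega
        · rw [h] at hx
          have : v.1 + 1 ≤ k := hx
          omega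
        · rw [h]
          exact hx
        · rw [h] at hx
          exact hx
      obtain ⟨t, ht⟩ := ih (fun y hy => h1 y (by simp [hy])) (fun y hy => h2 y (by simp [hy])) hv1 hz
      refine ⟨t, ?_⟩
      obtain ⟨w', h3, h4⟩ := ht
      refine ⟨SimpleGraph.Walk.cons hadj w', fun y hy => ?_, fun y hy => ?_⟩
      · rw [SimpleGraph.Walk.support_cons, List.mem_cons] at hy
        rcases hy with rfl | hy
        · exact huR
        · exact h3 y hy
      · rw [SimpleGraph.Walk.edges_cons, List.mem_cons] at hy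
        rcases hy with rfl | hy
        · exact h2 _ (by simp)
        · exact h4 y hy

theorem hh_mono {ν : Measure ℝ} [IsProbabilityMeasure ν] {k k' l l' : ℤ} (h0 : 0 ≤ k)
    (hk : k ≤ k') (hl : l' ≤ l) : hh ν k' l' ≤ hh ν k l := by
  unfold hh
  apply pr_le_of_imp
  rintro O ⟨y, y', w, h1, h2⟩
  obtain ⟨t, ht⟩ := first_visit (O := O) (k := k) (l := l) h0 hl w h1 h2 h0 hk
  exact ⟨y, t, ht⟩

theorem hh_half {ν : Measure ℝ} [IsProbabilityMeasure ν] (hν : 1 / 2 ≤ ν.real {0}) {b : ℤ}
    (hb : 1 ≤ b) : 1 / 2 ≤ hh ν b (b - 1) := by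
  have h1 : Pr ν (fun _ => True) ≤ Pr ν (fun O => BT O 0 (b - 1) 0 b) +
      Pr ν (fun O => DLR O (b - 1) b) :=
    pr_or_le fun O _ => duality (by omega) hb O
  have h2 : Pr ν (fun _ => True) = 1 := by
    unfold Pr
    have hQ : IsProbabilityMeasure (Q ν) := by
      unfold Q
      infer_instance
    have e : {ω : Cfg | True} = Set.univ := Set.eq_univ_of_forall fun _ => trivial
    rw [e]
    exact probReal_univ
  have h3 := pr_bt (ν := ν) 0 (b - 1) 0 b
  have h4 := pr_dlr hν (b - 1) b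
  rw [sub_zero, sub_zero] at h3
  rw [sub_add_cancel] at h4
  rw [h2, h3] at h1
  linarith

end Pool.Agent.Work.MP_9a767b_pr.Z
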