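import Pool.Agent.Work.MP_9a767b_pr.Z.FinSum

/-!
# Harris: increasing events are positively correlated

PROOF. `pr_eq_sum` for `φ`, `ψ` and `φ ∧ ψ` (all depend only on `E`). On the finite distributive lattice
of the subsets of `E` (for instance `Finset {e // e ∈ E}`, or `Finset (Sym2 V)` restricted to
`E.powerset`) the weight `μ S = p^|S| (1-p)^(|E|-|S|)` satisfies `μ S * μ T ≤ μ (S ⊓ T) * μ (S ⊔ T)` (equality,
`|S ∪ T| + |S ∩ T| = |S| + |T|`), and the indicators of `φ`, `ψ` are nonnegative and monotone. Mathlib's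
`fkg` (file `Mathlib.Combinatorics.SetFamily.FourFunctions`) gives
`(∑ μ f) (∑ μ g) ≤ (∑ μ) (∑ μ f g)`, and `∑ μ = 1` (`pr_eq_sum` for the event `True`, or
`Finset.sum_pow_mul_eq_add_pow`).
-/

open MeasureTheory ProbabilityTheory Filter Topology

namespace Pool.Agent.Work.MP_9a767b_pr.Z

open Classical in
private theorem harris_sum {ν : Measure ℝ} [IsProbabilityMeasure ν] {E : Finset (Sym2 V)}
    {φ : Set (Sym2 V) → Prop} (hφ : Dep E φ) :
    Pr ν φ = ∑ T : Finset E, (ν.real {0} ^ T.card * (1 - ν.real {0}) ^ (E.card - T.card)) *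
      (if φ ((T.map (Function.Embedding.subtype _) : Finset (Sym2 V)) : Set (Sym2 V)) then (1 : ℝ) else 0) := by
  rw [pr_eq_sum hφ]
  refine Finset.sum_nbij' (fun S => S.subtype (· ∈ E)) (fun T => T.map (Function.Embedding.subtype _))
    (fun S _ => Finset.mem_univ _) (fun T _ => ?_) (fun S hS => ?_) (fun T _ => ?_) (fun S hS => ?_)
  · rw [Finset.mem_powerset]
    intro x hx
    rw [Finset.mem_map] at hx
    obtain ⟨y, -, rfl⟩ := hx
    exact y.2
  · exact Finset.subtype_map_of_mem fun x hx => Finset.mem_powerset.1 hS hx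
  · ext x
    simp
  · have e : (S.subtype (· ∈ E)).map (Function.Embedding.subtype _) = S :=
      Finset.subtype_map_of_mem fun x hx => Finset.mem_powerset.1 hS hx
    have e2 : (S.subtype (· ∈ E)).card = S.card := by
      rw [← Finset.card_map (Function.Embedding.subtype _), e]
    rw [e, e2]
    split_ifs <;> simp

theorem harris {ν : Measure ℝ} [IsProbabilityMeasure ν] {E : Finset (Sym2 V)}
    {φ ψ : Set (Sym2 V) → Prop} (hφ : Dep E φ) (hψ : Dep E ψ) (iφ : Inc φ) (iψ : Inc ψ) :
    Pr ν φ * Pr ν ψ ≤ Pr ν (fun O => φ O ∧ ψ O) := by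
  classical
  have hand : Dep E (fun O => φ O ∧ ψ O) := fun O O' h => and_congr (hφ O O' h) (hψ O O' h)
  rw [harris_sum hφ, harris_sum hψ, harris_sum hand]
  set p : ℝ := ν.real {0} with hp
  have hp0 : 0 ≤ p := measureReal_nonneg
  have hp1 : 0 ≤ 1 - p := sub_nonneg.2 measureReal_le_one
  set μ : Finset E → ℝ := fun T => p ^ T.card * (1 - p) ^ (E.card - T.card) with hμd
  set f : Finset E → ℝ := fun T =>
    if φ ((T.map (Function.Embedding.subtype _) : Finset (Sym2 V)) : Set (Sym2 V)) then (1 : ℝ) else 0 with hf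
  set g : Finset E → ℝ := fun T =>
    if ψ ((T.map (Function.Embedding.subtype _) : Finset (Sym2 V)) : Set (Sym2 V)) then (1 : ℝ) else 0 with hg
  have hsub : ∀ T T' : Finset E, T ≤ T' →
      ((T.map (Function.Embedding.subtype _) : Finset (Sym2 V)) : Set (Sym2 V)) ⊆
      ((T'.map (Function.Embedding.subtype _) : Finset (Sym2 V)) : Set (Sym2 V)) := fun T T' h => by
    exact_mod_cast Finset.map_subset_map.2 h
  have hμ0 : 0 ≤ μ := fun T => mul_nonneg (pow_nonneg hp0 _) (pow_nonneg hp1 _)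
  have hf0 : 0 ≤ f := fun T => by
    show (0 : ℝ) ≤ if _ then _ else _
    split_ifs <;> norm_num
  have hg0 : 0 ≤ g := fun T => by
    show (0 : ℝ) ≤ if _ then _ else _
    split_ifs <;> norm_num
  have mono : ∀ (χ : Set (Sym2 V) → Prop), Inc χ → Monotone (fun T : Finset E =>
      if χ ((T.map (Function.Embedding.subtype _) : Finset (Sym2 V)) : Set (Sym2 V)) then (1 : ℝ) else 0) := by
    intro χ hχ T T' h
    dsimp only
    split_ifs with h1 h2 h2
    · exact le_rfl
    · exact absurd (hχ _ _ (hsub T T' h) h1) h2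
    · exact zero_le_one
    · exact le_rfl
  have hcard : ∀ T : Finset E, T.card ≤ E.card := fun T => by
    have := Finset.card_le_univ T
    rwa [Fintype.card_coe] at this
  have hlog : ∀ a b, μ a * μ b ≤ μ (a ⊓ b) * μ (a ⊔ b) := by
    intro a b
    apply le_of_eq
    have h1 : (a ⊔ b).card + (a ⊓ b).card = a.card + b.card := Finset.card_union_add_card_inter a b
    have h2 := hcard (a ⊔ b)
    have h3 := hcard (a ⊓ b)
    have h4 := hcard a
    have h5 := hcard b
    show p ^ a.card * (1 - p) ^ (E.card - a.card) * (p ^ b.card * (1 - p) ^ (E.card - b.card)) =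
      p ^ (a ⊓ b).card * (1 - p) ^ (E.card - (a ⊓ b).card) *
        (p ^ (a ⊔ b).card * (1 - p) ^ (E.card - (a ⊔ b).card))
    have e1 : p ^ a.card * (1 - p) ^ (E.card - a.card) * (p ^ b.card * (1 - p) ^ (E.card - b.card)) =
      p ^ (a.card + b.card) * (1 - p) ^ ((E.card - a.card) + (E.card - b.card)) := by
      rw [pow_add, pow_add]; ring
    have e2 : p ^ (a ⊓ b).card * (1 - p) ^ (E.card - (a ⊓ b).card) *
        (p ^ (a ⊔ b).card * (1 - p) ^ (E.card - (a ⊔ b).card)) =
      p ^ ((a ⊓ b).card + (a ⊔ b).card) *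
        (1 - p) ^ ((E.card - (a ⊓ b).card) + (E.card - (a ⊔ b).card)) := by
      rw [pow_add, pow_add]; ring
    rw [e1, e2]
    congr 2 <;> omega
  have hsum : ∑ T, μ T = 1 := by
    have htrue : Dep E (fun _ => True) := fun _ _ _ => Iff.rfl
    have h1 := Finset.sum_pow_mul_eq_add_pow p (1 - p) (Finset.univ : Finset E)
    rw [Finset.powerset_univ, Finset.card_univ, Fintype.card_coe, add_sub_cancel, one_pow] at h1
    exact h1
  have key := fkg (μ := μ) (f := f) (g := g) (hμ₀ := hμ0) (hf₀ := hf0) (hg₀ := hg0) (hf := mono φ iφ) (hg := mono ψ iψ) (hμ := hlog)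
  rw [hsum, one_mul] at key
  refine key.trans (le_of_eq (Finset.sum_congr rfl fun T _ => ?_))
  show μ T * (f T * g T) = μ T * _
  congr 1
  rw [hf, hg]
  dsimp only
  split_ifs with h1 h2 h3 h3 h3 h3 h3 <;> simp_all

end Pool.Agent.Work.MP_9a767b_pr.Z
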