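import Pool.Agent.Work.MP_9a767b_pr.Z.Elem

/-!
# Types: the region to the right of the explored set

Here `A` is a set of dual vertices which contains the left column of `Rec (-1) a 0 (b-1)` and no vertex of
its right column; `Rt A a b v` means that none of the dual vertices around `v` (folded) is in `A`.
PROOFS.
`far_wall`: `u` not of type `Rt`, `y` of type `Rt`, adjacent. Some `z0 ∈ A` is around `u`, `z0.1 ≤ a - 1` (`hR`), so
`u.1 ≤ a`. Let `r = (fld b u).2 ∈ [0,b]`. There is a dual vertex around both `u` and `y`: if `y = (u.1 ± 1, u.2)`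
take `(min u.1 y.1, ρ)` with `ρ ∈ {r-1, r} ∩ [0,b-1]`; if `y` is above or below `u` and both are in the same half,
their folded rows are `r, r'` with `|r-r'| = 1`, take `(u.1 - 1, min r r')`; if they are in different
halves the folded vertices are equal and so are the types, impossible. This dual vertex is not in
`A`. So among the dual vertices around `u`, i.e. `(u.1-1,ρ), (u.1,ρ)` with `ρ ∈ {r-1,r} ∩ [0,b-1]` (both columns
are in `[-1,a]`), one is in `A` and one is not. If `r = 0` or `r = b` there are two of them, they are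
adjacent and `cr` of them is the vertical edge at `fld b u` (`cr_right`). Otherwise they form a cycle of
length four, two consecutive ones are of different kind, and the crossed edge contains `fld b u`
(`cr_right`, `cr_up`).
`lr_far`: let `w` be a left right crossing of `Rec 0 m 0 (2b+1)` in `O`. Its start `(0,y)` is not of type
`Rt` (`(-1,ρ)` is around it and in `A`), its end `(m,t)` is of type `Rt` (`m > a`; a dual vertex around it in
the dual rectangle has first coordinate `a`). Take the last vertex `u` which is not of type `Rt` and split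
the walk there: `u` is in the lower or in the upper half.
`far_dep`: the edge `s(u,y)` and the edges of the walk `w` in the definition of `Far` have an end point of
type `Rt` and both end points in `Rec 0 m 0 (2b+1)`.
`disj_free`: if `z ∈ L ⊆ A`, `z'` are adjacent dual vertices of the dual rectangle, then `z` is around both end
points of `cr z z'` (which are in `Rec _ _ 0 b`, so not folded), so these are not of type `Rt`.
-/

open MeasureTheory ProbabilityTheory Filter Topology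

namespace Pool.Agent.Work.MP_9a767b_pr.Z

private theorem cases4 {x y : V} (h : lattice.Adj x y) :
    (y.1 = x.1 + 1 ∧ y.2 = x.2) ∨ (x.1 = y.1 + 1 ∧ x.2 = y.2) ∨ (y.1 = x.1 ∧ y.2 = x.2 + 1) ∨
      (x.1 = y.1 ∧ x.2 = y.2 + 1) := by
  rcases adj4 h with h | h | h | h <;> rw [Prod.ext_iff] at h <;> dsimp only at h <;> omega

private theorem fld_fst (b : ℤ) (v : V) : (fld b v).1 = v.1 := by
  unfold fld
  split_ifs <;> rfl

private theorem fld_snd (b : ℤ) (v : V) :
    (v.2 ≤ b ∧ (fld b v).2 = v.2) ∨ (b + 1 ≤ v.2 ∧ (fld b v).2 = 2 * b + 1 - v.2) := by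
  unfold fld
  split_ifs with h
  · exact Or.inl ⟨h, rfl⟩
  · exact Or.inr ⟨by omega, rfl⟩

private theorem mem_rec {a b c d : ℤ} {v : V} :
    v ∈ Rec a b c d ↔ a ≤ v.1 ∧ v.1 ≤ b ∧ c ≤ v.2 ∧ v.2 ≤ d := Iff.rfl

private theorem step_hor {i j : ℤ} {v : V} (h1 : v.1 = i + 1) (h2 : v.2 = j ∨ v.2 = j + 1) :
    v ∈ cr (i, j) (i + 1, j) := by
  rw [cr_right, Sym2.mem_iff]
  rcases h2 with h2 | h2
  · exact Or.inl (Prod.ext h1 h2)
  · exact Or.inr (Prod.ext h1 h2)

private theorem step_ver {i j : ℤ} {v : V} (h1 : v.2 = j + 1) (h2 : v.1 = i ∨ v.1 = i + 1) :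
    v ∈ cr (i, j) (i, j + 1) := by
  rw [cr_up, Sym2.mem_iff]
  rcases h2 with h2 | h2
  · exact Or.inl (Prod.ext h2 h1)
  · exact Or.inr (Prod.ext h2 h1)

/-- Two dual vertices around `u`, in the same row. -/
private theorem row_case {a b : ℤ} {u : V} {c c' ρ : ℤ} (hne : c ≠ c') (h : Sur a b u (c, ρ))
    (h' : Sur a b u (c', ρ)) : lattice.Adj (c, ρ) (c', ρ) ∧ fld b u ∈ cr (c, ρ) (c', ρ) := by
  have hf := fld_fst b u
  obtain ⟨-, h2, h3⟩ := h
  obtain ⟨-, h2', -⟩ := h'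
  simp only at h2 h3 h2'
  have : c' = c + 1 ∨ c = c' + 1 := by omega
  rcases this with rfl | rfl
  · exact ⟨adj_right _ _, step_hor (by omega) (by omega)⟩
  · refine ⟨(adj_right _ _).symm, ?_⟩
    rw [cr_comm]
    exact step_hor (by omega) (by omega)

/-- Two dual vertices around `u`, in the same column. -/
private theorem col_case {a b : ℤ} {u : V} {c ρ ρ' : ℤ} (hne : ρ ≠ ρ') (h : Sur a b u (c, ρ))
    (h' : Sur a b u (c, ρ')) : lattice.Adj (c, ρ) (c, ρ') ∧ fld b u ∈ cr (c, ρ) (c, ρ') := by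
  have hf := fld_fst b u
  obtain ⟨-, h2, h3⟩ := h
  obtain ⟨-, -, h3'⟩ := h'
  simp only at h2 h3 h3'
  have : ρ' = ρ + 1 ∨ ρ = ρ' + 1 := by omega
  rcases this with rfl | rfl
  · exact ⟨adj_up _ _, step_ver (by omega) (by omega)⟩
  · refine ⟨(adj_up _ _).symm, ?_⟩
    rw [cr_comm]
    exact step_ver (by omega) (by omega)

private theorem sur_step {A : Set V} {a b : ℤ} {u z1 z2 : V} (h1 : Sur a b u z1) (hA1 : z1 ∈ A)
    (h2 : Sur a b u z2) (hA2 : z2 ∉ A) :
    ∃ z z' : V, z ∈ Rec (-1) a 0 (b - 1) ∧ z' ∈ Rec (-1) a 0 (b - 1) ∧ z ∈ A ∧ z' ∉ A ∧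
      lattice.Adj z z' ∧ fld b u ∈ cr z z' := by
  obtain ⟨c1, ρ1⟩ := z1
  obtain ⟨c2, ρ2⟩ := z2
  have h3 : Sur a b u (c1, ρ2) := by
    obtain ⟨h11, h12, h13⟩ := h1
    obtain ⟨h21, h22, h23⟩ := h2
    exact ⟨⟨h11.1, h11.2.1, h21.2.2.1, h21.2.2.2⟩, h12, h23⟩
  by_cases h : ((c1, ρ2) : V) ∈ A
  · have hne : c1 ≠ c2 := by
      rintro rfl
      exact hA2 h
    obtain ⟨h4, h5⟩ := row_case hne h3 h2
    exact ⟨_, _, h3.1, h2.1, h, hA2, h4, h5⟩
  · have hne : ρ1 ≠ ρ2 := by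
      rintro rfl
      exact h hA1
    obtain ⟨h4, h5⟩ := col_case hne h1 h3
    exact ⟨_, _, h1.1, h3.1, hA1, h, h4, h5⟩

theorem far_wall {A : Set V} {a b m : ℤ} (hb : 1 ≤ b)
    (hR : ∀ z ∈ Rec (-1) a 0 (b - 1), z.1 = a → z ∉ A) {u y : V}
    (hu : u ∈ Rec 0 m 0 (2 * b + 1)) (hy : y ∈ Rec 0 m 0 (2 * b + 1)) (h : lattice.Adj u y)
    (hu' : ¬ Rt A a b u) (hy' : Rt A a b y) :
    ∃ z z' : V, z ∈ Rec (-1) a 0 (b - 1) ∧ z' ∈ Rec (-1) a 0 (b - 1) ∧ z ∈ A ∧ z' ∉ A ∧
      lattice.Adj z z' ∧ fld b u ∈ cr z z' := by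
  unfold Rt at hu'
  push Not at hu'
  obtain ⟨z1, hs1, hA1⟩ := hu'
  -- the column of `u` is at most `a`
  have hua : u.1 ≤ a := by
    have h1 := hs1.1
    rw [mem_rec] at h1
    have h2 := hs1.2.1
    have h3 : z1.1 ≠ a := fun h => hR z1 hs1.1 h hA1
    omega
  -- a dual vertex around `u` and around `y`
  have hcommon : ∃ z2, Sur a b u z2 ∧ Sur a b y z2 := by
    rw [mem_rec] at hu hy
    have hfu := fld_snd b u
    have hfy := fld_snd b y
    by_cases hrow : u.2 = y.2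
    · -- same row
      have hfe : (fld b u).2 = (fld b y).2 := by omega
      have hcol : y.1 = u.1 + 1 ∨ u.1 = y.1 + 1 := by
        rcases cases4 h with h | h | h | h <;> omega
      obtain ⟨ρ, hρ0, hρ1, hρ⟩ : ∃ ρ : ℤ, 0 ≤ ρ ∧ ρ ≤ b - 1 ∧
          (ρ = (fld b u).2 - 1 ∨ ρ = (fld b u).2) := by
        by_cases h0 : (fld b u).2 ≤ b - 1
        · exact ⟨_, by omega, h0, Or.inr rfl⟩
        · exact ⟨(fld b u).2 - 1, by omega, by omega, Or.inl rfl⟩
      rcases hcol with hcol | hcol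
      · refine ⟨(u.1, ρ), ⟨mem_rec.2 ⟨?_, ?_, ?_, ?_⟩, ?_, ?_⟩, ⟨mem_rec.2 ⟨?_, ?_, ?_, ?_⟩, ?_, ?_⟩⟩ <;>
          dsimp only <;> omega
      · refine ⟨(y.1, ρ), ⟨mem_rec.2 ⟨?_, ?_, ?_, ?_⟩, ?_, ?_⟩, ⟨mem_rec.2 ⟨?_, ?_, ?_, ?_⟩, ?_, ?_⟩⟩ <;>
          dsimp only <;> omega
    · have hcol : u.1 = y.1 ∧ (u.2 = y.2 + 1 ∨ y.2 = u.2 + 1) := by
        rcases cases4 h with h | h | h | h <;> omega
      by_cases hhalf : (fld b u).2 = (fld b y).2
      · -- different halves
        exfalso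
        refine hy' z1 ⟨hs1.1, ?_, ?_⟩ hA1
        · rw [← hcol.1]
          exact hs1.2.1
        · rw [← hhalf]
          exact hs1.2.2
      · refine ⟨(u.1 - 1, min (fld b u).2 (fld b y).2), ⟨mem_rec.2 ⟨?_, ?_, ?_, ?_⟩, ?_, ?_⟩,
          ⟨mem_rec.2 ⟨?_, ?_, ?_, ?_⟩, ?_, ?_⟩⟩ <;> dsimp only <;> omega
  obtain ⟨z2, hs2, hs2'⟩ := hcommon
  exact sur_step hs1 hA1 hs2 (hy' z2 hs2')

/-- The last vertex of a walk which is not of type `Rt`. -/
private theorem last_vertex {A : Set V} {a b : ℤ} {D : Set V} {O : Set (Sym2 V)} {x e : V}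
    (w : lattice.Walk x e) (hD : ∀ v ∈ w.support, v ∈ D) (hO : ∀ f ∈ w.edges, f ∈ O)
    (he : Rt A a b e) : (∀ v ∈ w.support, Rt A a b v) ∨
      ∃ (u y : V) (_ : lattice.Adj u y) (w' : lattice.Walk y e), u ∈ D ∧ ¬ Rt A a b u ∧
        s(u, y) ∈ O ∧ (∀ v ∈ w'.support, v ∈ D ∧ Rt A a b v) ∧ ∀ f ∈ w'.edges, f ∈ O := by
  induction w with
  | nil =>
    left
    intro v hv
    simp only [SimpleGraph.Walk.support_nil, List.mem_singleton] at hv
    rw [hv]
    exact he
  | @cons x v e h p ih =>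
    have hD' : ∀ v ∈ p.support, v ∈ D := fun v hv => hD v (by simp [hv])
    have hO' : ∀ f ∈ p.edges, f ∈ O := fun f hf => hO f (by simp [hf])
    rcases ih hD' hO' he with h1 | h1
    · by_cases hx : Rt A a b x
      · left
        intro z hz
        rw [SimpleGraph.Walk.support_cons, List.mem_cons] at hz
        rcases hz with rfl | hz
        · exact hx
        · exact h1 z hz
      · right
        exact ⟨x, v, h, p, hD x (by simp), hx, hO _ (by simp),
          fun z hz => ⟨hD' z hz, h1 z hz⟩, hO'⟩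
    · exact Or.inr h1

theorem lr_far {A : Set V} {a b m : ℤ} (ha : 0 ≤ a) (hb : 1 ≤ b) (hm : a < m)
    (hL : ∀ z ∈ Rec (-1) a 0 (b - 1), z.1 = -1 → z ∈ A)
    (hR : ∀ z ∈ Rec (-1) a 0 (b - 1), z.1 = a → z ∉ A) {O : Set (Sym2 V)}
    (h : LR O 0 m 0 (2 * b + 1)) : Far O A a b m false ∨ Far O A a b m true := by
  obtain ⟨y, t, w, hD, hO⟩ := h
  have hstart : ¬ Rt A a b (0, y) := by
    intro hrt
    have h1 := hD _ w.start_mem_support
    rw [mem_rec] at h1
    simp only at h1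
    have hf := fld_snd b (0, y)
    simp only at hf
    obtain ⟨ρ, hρ0, hρ1, hρ⟩ : ∃ ρ : ℤ, 0 ≤ ρ ∧ ρ ≤ b - 1 ∧
        (ρ = (fld b (0, y)).2 - 1 ∨ ρ = (fld b (0, y)).2) := by
      by_cases h0 : (fld b (0, y)).2 ≤ b - 1
      · exact ⟨_, by omega, h0, Or.inr rfl⟩
      · exact ⟨(fld b (0, y)).2 - 1, by omega, by omega, Or.inl rfl⟩
    have hmem : ((-1, ρ) : V) ∈ Rec (-1) a 0 (b - 1) :=
      mem_rec.2 ⟨le_rfl, by dsimp only; omega, hρ0, hρ1⟩
    exact hrt (-1, ρ) ⟨hmem, Or.inl (by simp), hρ⟩ (hL _ hmem rfl)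
  have hend : Rt A a b (m, t) := by
    intro z hz
    have h1 := hz.1
    rw [mem_rec] at h1
    have h2 := hz.2.1
    simp only at h2
    exact hR z hz.1 (by omega)
  rcases last_vertex w hD hO hend with h1 | ⟨u, y', hadj, w', h1, h2, h3, h4, h5⟩
  · exact absurd (h1 _ w.start_mem_support) hstart
  · by_cases hu : u.2 ≤ b
    · left
      exact ⟨u, y', t, hadj, w', by simpa using hu, h1, h2, h3, h4, h5⟩
    · right
      refine ⟨u, y', t, hadj, w', ?_, h1, h2, h3, h4, h5⟩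
      rw [if_pos rfl]
      omega

private theorem mem_Efree {A : Set V} {a b m : ℤ} {x y : V} (hx : x ∈ Rec 0 m 0 (2 * b + 1))
    (hy : y ∈ Rec 0 m 0 (2 * b + 1)) (h : Rt A a b y) : s(x, y) ∈ Efree A a b m := by
  classical
  unfold Efree
  rw [Finset.mem_filter, mem_EB]
  exact ⟨⟨hx, hy⟩, y, by simp, h⟩

private theorem far_mono {A : Set V} {a b m : ℤ} (up : Bool) {O O' : Set (Sym2 V)}
    (hOO : ∀ e ∈ Efree A a b m, e ∈ O → e ∈ O') (h : Far O A a b m up) : Far O' A a b m up := by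
  obtain ⟨u, y, t, hadj, w, h0, h1, h2, h3, h4, h5⟩ := h
  refine ⟨u, y, t, hadj, w, h0, h1, h2, ?_, h4, ?_⟩
  · have hy := h4 y w.start_mem_support
    exact hOO _ (mem_Efree h1 hy.1 hy.2) h3
  · intro e he
    refine hOO e ?_ (h5 e he)
    induction e using Sym2.ind with
    | _ p q =>
      have hp := h4 p (w.fst_mem_support_of_mem_edges he)
      have hq := h4 q (w.snd_mem_support_of_mem_edges he)
      exact mem_Efree hp.1 hq.1 hq.2

theorem far_dep {A : Set V} {a b m : ℤ} (up : Bool) :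
    Dep (Efree A a b m) (fun O => Far O A a b m up) := by
  intro O O' hOO
  exact ⟨far_mono up fun e he h => (hOO e he).1 h, far_mono up fun e he h => (hOO e he).2 h⟩

theorem disj_free {L A : Set V} {a b m : ℤ} (hLA : ∀ z ∈ Rec (-1) a 0 (b - 1), z ∈ L → z ∈ A) :
    Disjoint (Eexp L a b) (Efree A a b m) := by
  classical
  rw [Finset.disjoint_left]
  intro e he1 he2
  unfold Eexp at he1
  unfold Efree at he2
  rw [Finset.mem_filter] at he1 he2
  obtain ⟨-, z, z', hzL, hz, hz', hadj, rfl⟩ := he1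
  obtain ⟨-, v, hv, hrt⟩ := he2
  refine hrt z ?_ (hLA z hz hzL)
  have hf := fld_snd b v
  obtain ⟨i, j⟩ := z
  obtain ⟨i', j'⟩ := z'
  have hz1 := mem_rec.1 hz
  have hz1' := mem_rec.1 hz'
  simp only at hz1 hz1'
  rcases adj4 hadj with h | h | h | h <;> simp only [Prod.mk.injEq] at h <;>
    obtain ⟨rfl, rfl⟩ := h
  · rw [cr_right, Sym2.mem_iff] at hv
    rcases hv with rfl | rfl <;> simp only at hf <;>
      exact ⟨hz, by dsimp only; omega, by dsimp only; omega⟩
  · rw [cr_comm, cr_right, Sym2.mem_iff] at hv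
    rcases hv with rfl | rfl <;> simp only at hf <;>
      exact ⟨hz, by dsimp only; omega, by dsimp only; omega⟩
  · rw [cr_up, Sym2.mem_iff] at hv
    rcases hv with rfl | rfl <;> simp only at hf <;>
      exact ⟨hz, by dsimp only; omega, by dsimp only; omega⟩
  · rw [cr_comm, cr_up, Sym2.mem_iff] at hv
    rcases hv with rfl | rfl <;> simp only at hf <;>
      exact ⟨hz, by dsimp only; omega, by dsimp only; omega⟩

end Pool.Agent.Work.MP_9a767b_pr.Z
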