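import Pool.Agent.Work.MP_9a767b_pr.Z.Half
import Pool.Agent.Work.MP_9a767b_pr.Z.Types
import Pool.Agent.Work.MP_9a767b_pr.Z.Explore
import Pool.Agent.Work.MP_9a767b_pr.Z.Disj

/-!
# Key: the key lemma of the Russo, Seymour, Welsh theorem

PROOF. Write `D = Rec (-1) b 0 (b-1)`. Let `L` be a subset of `D` which contains the left column of `D` and no
vertex of the right column, `A = fil L b b`. (i) If `Lset O b b = L` and `Far O A b b m false`, then `Xev O b m`: with
`u, y` of the definition of `Far`, `fld b u = u`; `far_wall` (`fil_right'`) gives `z, z'` with `u ∈ cr z z'`, `wall`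
(with `fil_left`, `fil_right'`, `fil_cL`, `fil_cR`) and `fil_bdr` give that `u` is joined in `Rec 0 b 0 b` by
edges in `O` to the bottom row and to the top row, and by `Far` it is joined to the column `m`.
(ii) `Pr (Lset O b b = L ∧ Far O A b b m false) = Pr (Lset O b b = L) Pr (Far O A b b m false)` (`pr_and`,
`explore_dep`, `far_dep`, `disj_free`, `fil_of_mem`). (iii) `hh ν m (2b+1) ≤ 2 Pr (Far O A b b m false)`:
`lr_far`, `pr_or_le`, `pr_far` (with `a = b`, `fil_left`-type facts: `A` contains the left column because `L`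
does, `fil_of_mem`). Sum over the finitely many `L` (subsets of the finite set `D`):
`Pr (Xev O b m) ≥ ∑_L Pr (Lset = L) hh ν m (2b+1) / 2 = Pr (¬ DLR O b b) hh ν m (2b+1) / 2`; here
`¬ DLR O b b` is the disjoint union of the events `Lset O b b = L` (`lset_left`, `lset_sub`). Finally
`Pr (¬ DLR O b b) ≥ Pr (BT O 0 b 0 b) = hh ν b b ≥ hh ν b (b-1) ≥ 1/2` (`disj`, `pr_bt`, `hh_mono`, `hh_half`).
-/

open MeasureTheory ProbabilityTheory Filter Topology

namespace Pool.Agent.Work.MP_9a767b_pr.Z

private theorem xev_of_far {b m : ℤ} (hb : 1 ≤ b) {O : Set (Sym2 V)}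
    (hR : ∀ z ∈ Rec (-1) b 0 (b - 1), z.1 = b → z ∉ Lset O b b)
    (h : Far O (fil (Lset O b b) b b) b b m false) : Xev O b m := by
  obtain ⟨u, y, t, hadj, w, hup, hu, hnR, hs, hw, hwe⟩ := h
  have hup' : u.2 ≤ b := by simpa using hup
  have hy := hw y w.start_mem_support
  obtain ⟨z, z', hz, hz', hzA, hzA', hzz, huz⟩ :=
    far_wall hb (fil_right' hR) hu hy.1 hadj hnR hy.2
  have hf : fld b u = u := by
    unfold fld
    rw [if_pos hup']
  rw [hf] at huz
  obtain ⟨⟨x, hx⟩, ⟨x', hx'⟩⟩ := wall hb fil_left (fil_right' hR) fil_cL fil_cR hz hz' hzA hzA' hzz huz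
  refine ⟨u, x, x', t, con_mono hx fil_bdr le_rfl, con_mono hx' fil_bdr le_rfl,
    ⟨SimpleGraph.Walk.cons hadj w, ?_, ?_⟩⟩
  · intro v hv
    rw [SimpleGraph.Walk.support_cons, List.mem_cons] at hv
    rcases hv with rfl | hv
    · exact hu
    · exact (hw v hv).1
  · intro e he
    rw [SimpleGraph.Walk.edges_cons, List.mem_cons] at he
    rcases he with rfl | he
    · exact hs
    · exact hwe e he

theorem key {ν : Measure ℝ} [IsProbabilityMeasure ν] (hν : 1 / 2 ≤ ν.real {0}) {b m : ℤ}
    (hb : 1 ≤ b) (hm : b < m) : hh ν m (2 * b + 1) / 4 ≤ Pr ν (fun O => Xev O b m) := by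
  classical
  set DF : Finset V := Finset.Icc ((-1, 0) : V) (b, b - 1) with hDF
  have memDF : ∀ z : V, z ∈ DF ↔ z ∈ Rec (-1) b 0 (b - 1) := by
    intro z
    rw [hDF, Finset.mem_Icc, Prod.le_def, Prod.le_def]
    unfold Rec
    simp only [Set.mem_ofPred_eq]
    tauto
  set S : Finset (Finset V) := DF.powerset.filter (fun L =>
    (∀ z ∈ Rec (-1) b 0 (b - 1), z.1 = -1 → z ∈ L) ∧
    (∀ z ∈ Rec (-1) b 0 (b - 1), z.1 = b → z ∉ L)) with hS
  have memS : ∀ L ∈ S, (∀ z ∈ Rec (-1) b 0 (b - 1), z.1 = -1 → z ∈ (L : Set V)) ∧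
      (∀ z ∈ Rec (-1) b 0 (b - 1), z.1 = b → z ∉ (L : Set V)) := by
    intro L hL
    exact (Finset.mem_filter.1 hL).2
  -- the bound for the far event
  have hfar : ∀ L ∈ S, hh ν m (2 * b + 1) ≤
      2 * Pr ν (fun O => Far O (fil (L : Set V) b b) b b m false) := by
    intro L hL
    have h1 : ∀ z ∈ Rec (-1) b 0 (b - 1), z.1 = -1 → z ∈ fil (L : Set V) b b := fun z hz hz1 =>
      fil_of_mem hz ((memS L hL).1 z hz hz1)
    have h2 := fil_right' (L := (L : Set V)) (memS L hL).2
    have h3 : hh ν m (2 * b + 1) ≤ Pr ν (fun O => Far O (fil (L : Set V) b b) b b m false) +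
        Pr ν (fun O => Far O (fil (L : Set V) b b) b b m true) :=
      pr_or_le (fun O hO => lr_far (by omega) hb hm h1 h2 hO)
    rw [pr_far (far_dep (A := fil (L : Set V) b b) (a := b) (b := b) (m := m) false)] at h3
    linarith
  have hind : ∀ L ∈ S, Pr ν (fun O => Lset O b b = (L : Set V) ∧
      Far O (fil (L : Set V) b b) b b m false) =
      Pr ν (fun O => Lset O b b = (L : Set V)) *
        Pr ν (fun O => Far O (fil (L : Set V) b b) b b m false) := by
    intro L hL
    exact pr_and (explore_dep (L : Set V) b b) (far_dep false)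
      (disj_free (fun z hz hzL => fil_of_mem hz hzL))
  -- the sum of the probabilities of the explored sets
  have hcov : Pr ν (fun O => ¬ DLR O b b) ≤ ∑ L ∈ S, Pr ν (fun O => Lset O b b = (L : Set V)) := by
    have hsub : {ω : Cfg | ¬ DLR (zer ω) b b} ⊆ ⋃ L ∈ S, {ω : Cfg | Lset (zer ω) b b = (L : Set V)} := by
      intro ω hω
      have hω' : ¬ DLR (zer ω) b b := hω
      set L : Finset V := DF.filter (fun z => z ∈ Lset (zer ω) b b) with hL
      have hLL : (L : Set V) = Lset (zer ω) b b := by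
        ext z
        rw [hL, Finset.mem_coe, Finset.mem_filter, memDF]
        exact ⟨fun h => h.2, fun h => ⟨lset_sub h, h⟩⟩
      have hLS : L ∈ S := by
        rw [hS, Finset.mem_filter, Finset.mem_powerset]
        refine ⟨Finset.filter_subset _ _, ?_, ?_⟩
        · intro z hz hz1
          rw [← Finset.mem_coe, hLL]
          exact lset_left hz hz1
        · intro z hz hz1 hzL
          rw [← Finset.mem_coe, hLL] at hzL
          exact fil_right hω' z hz hz1 (fil_of_mem hz hzL)
      rw [Set.mem_iUnion₂]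
      exact ⟨L, hLS, hLL.symm⟩
    calc Pr ν (fun O => ¬ DLR O b b) ≤
        (Q ν).real (⋃ L ∈ S, {ω : Cfg | Lset (zer ω) b b = (L : Set V)}) :=
          measureReal_mono hsub (measure_ne_top _ _)
      _ ≤ ∑ L ∈ S, (Q ν).real {ω : Cfg | Lset (zer ω) b b = (L : Set V)} :=
          measureReal_biUnion_finset_le _ _
  have hX : ∑ L ∈ S, Pr ν (fun O => Lset O b b = (L : Set V) ∧
      Far O (fil (L : Set V) b b) b b m false) ≤ Pr ν (fun O => Xev O b m) := by
    have hdisj : (S : Set (Finset V)).PairwiseDisjoint (fun L => {ω : Cfg | Lset (zer ω) b b = (L : Set V) ∧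
        Far (zer ω) (fil (L : Set V) b b) b b m false}) := by
      intro L _ L' _ hne
      rw [Function.onFun, Set.disjoint_left]
      intro ω h1 h2
      apply hne
      exact_mod_cast (h1.1.symm.trans h2.1)
    have hmeas : ∀ L ∈ S, MeasurableSet {ω : Cfg | Lset (zer ω) b b = (L : Set V) ∧
        Far (zer ω) (fil (L : Set V) b b) b b m false} := by
      intro L _
      exact (measurableSet_dep (explore_dep (L : Set V) b b)).inter
        (measurableSet_dep (far_dep (A := fil (L : Set V) b b) (a := b) (b := b) (m := m) false))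
    have e := measureReal_biUnion_finset (μ := Q ν) hdisj hmeas
    have hsub : (⋃ L ∈ S, {ω : Cfg | Lset (zer ω) b b = (L : Set V) ∧
        Far (zer ω) (fil (L : Set V) b b) b b m false}) ⊆ {ω : Cfg | Xev (zer ω) b m} := by
      intro ω hω
      rw [Set.mem_iUnion₂] at hω
      obtain ⟨L, hL, h1, h2⟩ := hω
      have hR := (memS L hL).2
      rw [← h1] at hR h2
      exact xev_of_far hb hR h2
    calc _ = (Q ν).real (⋃ L ∈ S, {ω : Cfg | Lset (zer ω) b b = (L : Set V) ∧
        Far (zer ω) (fil (L : Set V) b b) b b m false}) := e.symm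
      _ ≤ Pr ν (fun O => Xev O b m) := measureReal_mono hsub (measure_ne_top _ _)
  have hhalf : 1 / 2 ≤ Pr ν (fun O => ¬ DLR O b b) := by
    have h1 : Pr ν (fun O => BT O 0 b 0 b) ≤ Pr ν (fun O => ¬ DLR O b b) :=
      pr_le_of_imp (fun O hO => disj hb hO)
    rw [pr_bt] at h1
    have h2 : hh ν b (b - 1) ≤ hh ν b b := hh_mono (by omega) le_rfl (by omega)
    have h3 := hh_half hν hb
    rw [sub_zero] at h1
    linarith
  have h0 : 0 ≤ hh ν m (2 * b + 1) := pr_nonneg
  calc hh ν m (2 * b + 1) / 4 = 1 / 2 * (hh ν m (2 * b + 1) / 2) := by ring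
    _ ≤ Pr ν (fun O => ¬ DLR O b b) * (hh ν m (2 * b + 1) / 2) :=
        mul_le_mul_of_nonneg_right hhalf (by linarith)
    _ ≤ (∑ L ∈ S, Pr ν (fun O => Lset O b b = (L : Set V))) * (hh ν m (2 * b + 1) / 2) :=
        mul_le_mul_of_nonneg_right hcov (by linarith)
    _ = ∑ L ∈ S, Pr ν (fun O => Lset O b b = (L : Set V)) * (hh ν m (2 * b + 1) / 2) :=
        Finset.sum_mul _ _ _
    _ ≤ ∑ L ∈ S, Pr ν (fun O => Lset O b b = (L : Set V) ∧
          Far O (fil (L : Set V) b b) b b m false) := by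
        apply Finset.sum_le_sum
        intro L hL
        rw [hind L hL]
        apply mul_le_mul_of_nonneg_left _ pr_nonneg
        have := hfar L hL
        linarith
    _ ≤ Pr ν (fun O => Xev O b m) := hX

end Pool.Agent.Work.MP_9a767b_pr.Z
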