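import Pool.Agent.Work.MP_9a767b_pr.Z.Defs
import Pool.Agent.Work.MP_9a767b_pr.GFacts

/-!
# Refl: the reflection argument

PROOF. Let `x = (-n, 0)`, `x' = (n+1, 0)`, `D ω = T x (1,0) - T x 0`, `D' ω = T x' (1,0) - T x' 0`. By translation
(`integral_T`) `g ν (n+1,0) = ∫ T x (1,0)`, `g ν (n,0) = ∫ T x 0`. The reflection `refl1 1 : (a,b) ↦ (1-a,b)`
exchanges `x` and `x'`, `0` and `(1,0)`: `∫ D' = - ∫ D` (`integral_comp_act`, `T_refl1`; or `integral_T` and the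
symmetries of `g`, `subSym_g`: `∫ T x' (1,0) = g ν (-n,0) = g ν (n,0)`, `∫ T x' 0 = g ν (n+1,0)`). So
`2 ∫ D = ∫ (D - D')`, `D = D'` outside `B` (hypothesis), and `|D|, |D'| ≤ T 0 (1,0)` (triangle inequality), so
`2 |∫ D| ≤ ∫_B |D - D'| ≤ 2 ∫_B T 0 (1,0)`.
-/

open MeasureTheory ProbabilityTheory Filter Topology

namespace Pool.Agent.Work.MP_9a767b_pr.Z

theorem refl_bound {ν : Measure ℝ} [IsProbabilityMeasure ν]
    (hI : Integrable (fun ω => T ω 0 (1, 0)) (Q ν)) {B : Set Cfg} (hB : MeasurableSet B) (n : ℕ)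
    (h : ∀ ω ∉ B, T ω (-(n : ℤ), 0) (1, 0) - T ω (-(n : ℤ), 0) 0 =
      T ω ((n : ℤ) + 1, 0) (1, 0) - T ω ((n : ℤ) + 1, 0) 0) :
    |g ν ((n : ℤ) + 1, 0) - g ν (n, 0)| ≤ ∫ ω in B, T ω 0 (1, 0) ∂(Q ν) := by
  have hg := subSym_g hI
  have i1 := integrable_T hI (-(n : ℤ), 0) (1, 0)
  have i2 := integrable_T hI (-(n : ℤ), 0) 0
  have i3 := integrable_T hI ((n : ℤ) + 1, 0) (1, 0)
  have i4 := integrable_T hI ((n : ℤ) + 1, 0) 0
  have e1 : ∫ ω, T ω (-(n : ℤ), 0) (1, 0) ∂(Q ν) = g ν ((n : ℤ) + 1, 0) := by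
    rw [integral_T]
    congr 1
    ext
    · show 1 - -(n : ℤ) = n + 1
      ring
    · show (0 : ℤ) - 0 = 0
      ring
  have e2 : ∫ ω, T ω (-(n : ℤ), 0) 0 ∂(Q ν) = g ν (n, 0) := by
    rw [integral_T]
    congr 1
    ext
    · show 0 - -(n : ℤ) = n
      ring
    · show (0 : ℤ) - 0 = 0
      ring
  have e3 : ∫ ω, T ω ((n : ℤ) + 1, 0) (1, 0) ∂(Q ν) = g ν (n, 0) := by
    rw [integral_T, ← hg.flip1 n 0]
    congr 1
    ext
    · show 1 - ((n : ℤ) + 1) = -n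
      ring
    · show (0 : ℤ) - 0 = 0
      ring
  have e4 : ∫ ω, T ω ((n : ℤ) + 1, 0) 0 ∂(Q ν) = g ν ((n : ℤ) + 1, 0) := by
    rw [integral_T, ← hg.flip1 ((n : ℤ) + 1) 0]
    congr 1
  set F : Cfg → ℝ := fun ω => (T ω (-(n : ℤ), 0) (1, 0) - T ω (-(n : ℤ), 0) 0) -
    (T ω ((n : ℤ) + 1, 0) (1, 0) - T ω ((n : ℤ) + 1, 0) 0) with hF
  have e5 : ∫ ω, F ω ∂(Q ν) = 2 * (g ν ((n : ℤ) + 1, 0) - g ν (n, 0)) := by
    have h1 := integral_sub (i1.sub i2) (i3.sub i4)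
    simp only [Pi.sub_apply] at h1
    rw [integral_sub i1 i2, integral_sub i3 i4, e1, e2, e3, e4] at h1
    rw [h1]
    ring
  have e6 : ∫ ω in B, F ω ∂(Q ν) = ∫ ω, F ω ∂(Q ν) :=
    setIntegral_eq_integral_of_forall_compl_eq_zero fun ω hω => sub_eq_zero.2 (h ω hω)
  have e7 : ∀ (ω : Cfg) (x : V), |T ω x (1, 0) - T ω x 0| ≤ T ω 0 (1, 0) := by
    intro ω x
    rw [abs_sub_le_iff]
    constructor
    · linarith [T_triangle ω x 0 (1, 0)]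
    · linarith [T_triangle ω x (1, 0) 0, T_comm ω (1, 0) 0]
  have e8 : ∀ ω, ‖F ω‖ ≤ 2 * T ω 0 (1, 0) := by
    intro ω
    rw [Real.norm_eq_abs, hF]
    refine (abs_sub _ _).trans ?_
    linarith [e7 ω (-(n : ℤ), 0), e7 ω ((n : ℤ) + 1, 0)]
  have e9 : ‖∫ ω in B, F ω ∂(Q ν)‖ ≤ ∫ ω in B, 2 * T ω 0 (1, 0) ∂(Q ν) :=
    norm_integral_le_of_norm_le ((hI.const_mul 2).integrableOn) (Eventually.of_forall e8)
  rw [e6, e5, integral_const_mul, Real.norm_eq_abs, abs_mul, abs_two] at e9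
  linarith

end Pool.Agent.Work.MP_9a767b_pr.Z
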