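import Pool.Agent.Work.MP_9a767b_pr.Z.Key
import Pool.Agent.Work.MP_9a767b_pr.Z.Glue
import Pool.Agent.Work.MP_9a767b_pr.Z.Harris

/-!
# Rsw: long rectangles are crossed with probability bounded below

PROOF. `step`: by `glue` and `harris` (twice; all events depend only on `EB (b-m) m 0 (2b+1)`, `dep_X`, `dep_Y`,
`dep_lr` and `dep_mono`, and they are increasing) `hh ν (2m-b) (2b+1) = Pr (LR O (b-m) m 0 (2b+1))`
(`pr_lr`) `≥ Pr (X) Pr (Y) Pr (LR O 0 b 0 b) ≥ (h/4) (h/4) (1/2)`, `h = hh ν m (2b+1)`, since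
`Pr (LR O 0 b 0 b) = hh ν b b ≥ hh ν b (b-1) ≥ 1/2`.
`rsw`: `b = r - 1 ≥ 1`, `2b+1 = 2r-1`. `hh ν (2b+2) (2b+1) ≥ 1/2` (`hh_half`). Apply `step` three times:
`m = 2b+2`, `3b+4`, `5b+8`, `9b+16`: the lower bounds are `1/2`, `2^(-7)`, `2^(-19)`, `2^(-43)`. Finally
`6r+1 = 6b+7 ≤ 9b+16` and `hh_mono`.
-/

open MeasureTheory ProbabilityTheory Filter Topology

namespace Pool.Agent.Work.MP_9a767b_pr.Z

private theorem dep_and {E : Finset (Sym2 V)} {φ ψ : Set (Sym2 V) → Prop} (h : Dep E φ)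
    (h' : Dep E ψ) : Dep E (fun O => φ O ∧ ψ O) :=
  fun O O' hO => and_congr (h O O' hO) (h' O O' hO)

private theorem inc_and {φ ψ : Set (Sym2 V) → Prop} (h : Inc φ) (h' : Inc ψ) :
    Inc (fun O => φ O ∧ ψ O) :=
  fun O O' hO hp => ⟨h O O' hO hp.1, h' O O' hO hp.2⟩

private theorem EB_mono {a b c d a' b' c' d' : ℤ} (h1 : a' ≤ a) (h2 : b ≤ b') (h3 : c' ≤ c)
    (h4 : d ≤ d') : EB a b c d ⊆ EB a' b' c' d' := by
  intro e he
  induction e with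
  | _ x y =>
    rw [mem_EB] at he ⊢
    obtain ⟨⟨e1, e2, e3, e4⟩, ⟨f1, f2, f3, f4⟩⟩ := he
    exact ⟨⟨h1.trans e1, e2.trans h2, h3.trans e3, e4.trans h4⟩,
      ⟨h1.trans f1, f2.trans h2, h3.trans f3, f4.trans h4⟩⟩

theorem step {ν : Measure ℝ} [IsProbabilityMeasure ν] (hν : 1 / 2 ≤ ν.real {0}) {b m : ℤ}
    (hb : 1 ≤ b) (hm : b < m) : hh ν m (2 * b + 1) ^ 2 / 32 ≤ hh ν (2 * m - b) (2 * b + 1) := by
  have hX := key hν hb hm
  have hY := hX
  rw [← pr_Y (by omega) hm] at hY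
  have hS : 1 / 2 ≤ Pr ν (fun O => LR O 0 b 0 b) :=
    (hh_half hν hb).trans (hh_mono (by omega) le_rfl (by omega))
  have dX := dep_X (b := b) (m := m) (by omega) hm
  have dY := dep_Y (b := b) (m := m) (by omega) hm
  have dS : Dep (EB (b - m) m 0 (2 * b + 1)) (fun O => LR O 0 b 0 b) :=
    dep_mono dep_lr (EB_mono (by omega) (by omega) le_rfl (by omega))
  have h1 := harris (ν := ν) dX dY inc_X inc_Y
  have h2 := harris (ν := ν) (dep_and dX dY) dS (inc_and inc_X inc_Y) inc_lr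
  have h3 : Pr ν (fun O => (Xev O b m ∧ Yev O b m) ∧ LR O 0 b 0 b) ≤
      Pr ν (fun O => LR O (b - m) m 0 (2 * b + 1)) :=
    pr_le_of_imp fun O hO => glue hb hm hO.1.1 hO.1.2 hO.2
  have h4 := pr_lr (ν := ν) (b - m) m 0 (2 * b + 1)
  have e1 : m - (b - m) = 2 * m - b := by ring
  have e2 : 2 * b + 1 - 0 = 2 * b + 1 := by ring
  rw [e1, e2] at h4
  rw [← h4]
  refine le_trans ?_ h3
  refine le_trans ?_ h2
  have h0 : 0 ≤ hh ν m (2 * b + 1) := pr_nonneg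
  have p1 : 0 ≤ Pr ν (fun O => Xev O b m) := pr_nonneg
  have p2 : 0 ≤ Pr ν (fun O => Yev O b m) := pr_nonneg
  have p3 : 0 ≤ Pr ν (fun O => LR O 0 b 0 b) := pr_nonneg
  calc hh ν m (2 * b + 1) ^ 2 / 32
      = (hh ν m (2 * b + 1) / 4) * (hh ν m (2 * b + 1) / 4) * (1 / 2) := by ring
    _ ≤ (Pr ν (fun O => Xev O b m) * Pr ν (fun O => Yev O b m)) *
          Pr ν (fun O => LR O 0 b 0 b) := by
        refine mul_le_mul (mul_le_mul hX hY (by positivity) p1) hS (by positivity)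
          (mul_nonneg p1 p2)
    _ ≤ _ := mul_le_mul_of_nonneg_right h1 p3

theorem rsw {ν : Measure ℝ} [IsProbabilityMeasure ν] (hν : 1 / 2 ≤ ν.real {0}) {r : ℤ}
    (hr : 2 ≤ r) : (1 / 2 : ℝ) ^ 43 ≤ hh ν (6 * r + 1) (2 * r - 1) := by
  obtain ⟨b, rfl⟩ : ∃ b, r = b + 1 := ⟨r - 1, by ring⟩
  have hb : 1 ≤ b := by omega
  have h0 : 1 / 2 ≤ hh ν (2 * b + 2) (2 * b + 1) := by
    have h := hh_half hν (b := 2 * b + 2) (by omega)
    have e : 2 * b + 2 - 1 = 2 * b + 1 := by ring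
    rwa [e] at h
  have s1 := step hν hb (m := 2 * b + 2) (by omega)
  have s2 := step hν hb (m := 3 * b + 4) (by omega)
  have s3 := step hν hb (m := 5 * b + 8) (by omega)
  have e1 : 2 * (2 * b + 2) - b = 3 * b + 4 := by ring
  have e2 : 2 * (3 * b + 4) - b = 5 * b + 8 := by ring
  have e3 : 2 * (5 * b + 8) - b = 9 * b + 16 := by ring
  rw [e1] at s1
  rw [e2] at s2
  rw [e3] at s3
  have h1 : (1 / 2 : ℝ) ^ 7 ≤ hh ν (3 * b + 4) (2 * b + 1) := by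
    refine le_trans ?_ s1
    calc (1 / 2 : ℝ) ^ 7 = (1 / 2) ^ 2 / 32 := by norm_num
      _ ≤ _ := by
        have := pow_le_pow_left₀ (by norm_num) h0 2
        linarith
  have h2 : (1 / 2 : ℝ) ^ 19 ≤ hh ν (5 * b + 8) (2 * b + 1) := by
    refine le_trans ?_ s2
    calc (1 / 2 : ℝ) ^ 19 = ((1 / 2) ^ 7) ^ 2 / 32 := by norm_num
      _ ≤ _ := by
        have := pow_le_pow_left₀ (by positivity) h1 2
        linarith
  have h3 : (1 / 2 : ℝ) ^ 43 ≤ hh ν (9 * b + 16) (2 * b + 1) := by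
    refine le_trans ?_ s3
    calc (1 / 2 : ℝ) ^ 43 = ((1 / 2) ^ 19) ^ 2 / 32 := by norm_num
      _ ≤ _ := by
        have := pow_le_pow_left₀ (by positivity) h2 2
        linarith
  refine h3.trans (hh_mono (by omega) (by omega) (by omega))

end Pool.Agent.Work.MP_9a767b_pr.Z
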