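import Pool.Agent.Work.MP_9a767b_pr.Z.Elem

/-!
# Wall: the boundary of a set of dual vertices joins the bottom to the top

Write `D = Rec (-1) a 0 (b-1)` (dual labels) and `B = bdr D A`. PROOF of the first statement. Let `K` be the
set of the vertices `v` with `Con B (Rec 0 a 0 b) u v` and suppose that `K` contains no vertex of the row `0`.
Let `M` be the set of the edges in `B` with an end point in `K`; then both end points of an edge in `M`
are in `K`. (Edges of `B` have both end points in `Rec 0 a 0 b`: `cr_right`, `cr_up` and `hL`, `hR`: a vertical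
step in the left column is inside `A`, a vertical step in the right column is outside `A`.) For a dual
vertex `(i, j) ∈ D` put `s(i,j) = #{j' : 1 ≤ j' ≤ j, s((i,j'), (i+1,j')) ∈ M} mod 2` (the edges crossed by the
vertical dual walk from `(i,0)` to `(i,j)`). CLAIM: for adjacent `z, z' ∈ D`: `s z + s z' = [cr z z' ∈ M]`. For
vertical steps this is the definition. For `z = (i,j)`, `z' = (i+1,j)` induction on `j`. `j = 0`: the edge
`s((i+1,0),(i+1,1))` is not in `M` (its end point `(i+1,0)` is not in `K`) and `s z = s z' = 0`. Step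
`j - 1 → j`, `1 ≤ j ≤ b-1`: the four edges at the vertex `v = (i+1,j)` are crossed by the four steps of the
cycle `(i,j-1), (i+1,j-1), (i+1,j), (i,j)` of dual vertices of `D`; the number of those in `B` is even
(such a step is in `B` iff exactly one of its ends is in `A`); if `v ∈ K` all of those in `B` are in
`M`, if `v ∉ K` none is in `M`: the number of those in `M` is even.
So `s` is constant along dual walks in `D ∩ A` and along dual walks in `D \ A` (the crossed edges are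
not in `B`: an edge determines the pair of dual vertices). `s = 0` on the left column (vertical walks in
the left column stay in `A`) and on the right column. By `cL`, `cR`: `s = 0` on `D`. But `cr z z' ∈ M` (`u ∈ K` is
an end point), so `s z + s z' = 1`: contradiction. The second statement: in the same way, counting from
the top (`s(i,j) = #{j' : j < j' ≤ b-1, ...}`), or by the reflection `(x,y) ↦ (x, b-y)`, dual labels
`(i,j) ↦ (i, b-1-j)`.
-/

open MeasureTheory ProbabilityTheory Filter Topology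

namespace Pool.Agent.Work.MP_9a767b_pr.Z

private theorem pot {b lo hi : ℤ} (χ κ : ℤ → ℤ → ZMod 2)
    (H : ∀ i j, lo ≤ i → i ≤ hi → 0 ≤ j → j + 1 ≤ b - 1 →
      (χ i j + χ i (j + 1)) * κ i (j + 1) = (χ i j + χ i (j + 1)) * κ (i + 1) (j + 1))
    (Vt : ∀ i j, lo ≤ i → i + 1 ≤ hi → 0 ≤ j → j ≤ b - 1 →
      (χ i j + χ (i + 1) j) * κ (i + 1) j = (χ i j + χ (i + 1) j) * κ (i + 1) (j + 1))
    (h0 : ∀ i, κ i 0 = 0) :
    ∃ S : ℤ → ℤ → ZMod 2, (∀ i, S i 0 = 0) ∧
      (∀ i j, lo ≤ i → i + 1 ≤ hi → 0 ≤ j → j ≤ b - 1 →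
        S i j + S (i + 1) j = (χ i j + χ (i + 1) j) * κ (i + 1) j) ∧
      (∀ i j, lo ≤ i → i ≤ hi → 0 ≤ j → j + 1 ≤ b - 1 →
        S i j + S i (j + 1) = (χ i j + χ i (j + 1)) * κ (i + 1) (j + 1)) := by
  have two : ∀ x : ZMod 2, x + x = 0 := by decide
  set S : ℤ → ℤ → ZMod 2 := fun i j => ∑ k ∈ Finset.range j.toNat,
    (χ i k + χ i ((k : ℤ) + 1)) * κ (i + 1) ((k : ℤ) + 1) with hS
  have hsucc : ∀ (i : ℤ) (n : ℕ), S i ((n : ℤ) + 1) = S i n +
      (χ i n + χ i ((n : ℤ) + 1)) * κ (i + 1) ((n : ℤ) + 1) := by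
    intro i n
    simp only [hS]
    have h1 : ((n : ℤ) + 1).toNat = n + 1 := by omega
    have h2 : ((n : ℤ)).toNat = n := by omega
    rw [h1, h2, Finset.sum_range_succ]
  refine ⟨S, fun i => by simp [hS], ?_, ?_⟩
  · intro i j hi1 hi2 hj1 hj2
    obtain ⟨n, rfl⟩ := Int.eq_ofNat_of_zero_le hj1
    induction n with
    | zero =>
      simp only [hS]
      simp [h0]
    | succ n ih =>
      push_cast at hj2 ⊢
      have ih' := ih (by omega) (by omega)
      rw [hsucc, hsucc]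
      have e1 := H (i + 1) n (by omega) (by omega) (by omega) (by omega)
      have e2 := Vt i n (by omega) (by omega) (by omega) (by omega)
      have e3 : (χ (i + 1) n + χ (i + 1) ((n : ℤ) + 1)) * κ (i + 1 + 1) ((n : ℤ) + 1) =
          (χ (i + 1) n + χ (i + 1) ((n : ℤ) + 1)) * κ (i + 1) ((n : ℤ) + 1) := e1.symm
      rw [e3]
      have e4 : S i n + S (i + 1) n = (χ i n + χ (i + 1) n) * κ (i + 1) ((n : ℤ) + 1) := by
        rw [ih', e2]
      calc S i n + (χ i n + χ i ((n : ℤ) + 1)) * κ (i + 1) ((n : ℤ) + 1) +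
            (S (i + 1) n + (χ (i + 1) n + χ (i + 1) ((n : ℤ) + 1)) * κ (i + 1) ((n : ℤ) + 1))
          = (S i n + S (i + 1) n) + (χ i n + χ i ((n : ℤ) + 1)) * κ (i + 1) ((n : ℤ) + 1) +
            (χ (i + 1) n + χ (i + 1) ((n : ℤ) + 1)) * κ (i + 1) ((n : ℤ) + 1) := by ring
        _ = (χ i n + χ (i + 1) n) * κ (i + 1) ((n : ℤ) + 1) +
            (χ i n + χ i ((n : ℤ) + 1)) * κ (i + 1) ((n : ℤ) + 1) +
            (χ (i + 1) n + χ (i + 1) ((n : ℤ) + 1)) * κ (i + 1) ((n : ℤ) + 1) := by rw [e4]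
        _ = (χ i ((n : ℤ) + 1) + χ (i + 1) ((n : ℤ) + 1)) * κ (i + 1) ((n : ℤ) + 1) +
            ((χ i n * κ (i + 1) ((n : ℤ) + 1) + χ i n * κ (i + 1) ((n : ℤ) + 1)) +
            (χ (i + 1) n * κ (i + 1) ((n : ℤ) + 1) + χ (i + 1) n * κ (i + 1) ((n : ℤ) + 1))) := by
              ring
        _ = (χ i ((n : ℤ) + 1) + χ (i + 1) ((n : ℤ) + 1)) * κ (i + 1) ((n : ℤ) + 1) := by
              rw [two, two]; ring
  · intro i j hi1 hi2 hj1 hj2
    obtain ⟨n, rfl⟩ := Int.eq_ofNat_of_zero_le hj1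
    rw [hsucc, ← add_assoc, two, zero_add]

private theorem potTop {b lo hi : ℤ} (χ κ : ℤ → ℤ → ZMod 2)
    (H : ∀ i j, lo ≤ i → i ≤ hi → 0 ≤ j → j + 1 ≤ b - 1 →
      (χ i j + χ i (j + 1)) * κ i (j + 1) = (χ i j + χ i (j + 1)) * κ (i + 1) (j + 1))
    (Vt : ∀ i j, lo ≤ i → i + 1 ≤ hi → 0 ≤ j → j ≤ b - 1 →
      (χ i j + χ (i + 1) j) * κ (i + 1) j = (χ i j + χ (i + 1) j) * κ (i + 1) (j + 1))
    (h0 : ∀ i, κ i b = 0) :
    ∃ S : ℤ → ℤ → ZMod 2, (∀ i, S i (b - 1) = 0) ∧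
      (∀ i j, lo ≤ i → i + 1 ≤ hi → 0 ≤ j → j ≤ b - 1 →
        S i j + S (i + 1) j = (χ i j + χ (i + 1) j) * κ (i + 1) j) ∧
      (∀ i j, lo ≤ i → i ≤ hi → 0 ≤ j → j + 1 ≤ b - 1 →
        S i j + S i (j + 1) = (χ i j + χ i (j + 1)) * κ (i + 1) (j + 1)) := by
  obtain ⟨S, s0, s1, s2⟩ := pot (b := b) (lo := lo) (hi := hi) (fun i j => χ i (b - 1 - j))
    (fun i j => κ i (b - j)) (by
      intro i j h1 h2 h3 h4
      have := H i (b - 1 - (j + 1)) h1 h2 (by omega) (by omega)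
      have e1 : b - 1 - (j + 1) + 1 = b - 1 - j := by ring
      have e2 : b - (j + 1) = b - 1 - j := by ring
      rw [e1] at this
      simp only [e2]
      rw [add_comm (χ i (b - 1 - j))]
      exact this) (by
      intro i j h1 h2 h3 h4
      have := Vt i (b - 1 - j) h1 h2 (by omega) (by omega)
      have e1 : b - 1 - j + 1 = b - j := by ring
      have e2 : b - (j + 1) = b - 1 - j := by ring
      rw [e1] at this
      simp only [e2]
      exact this.symm) (by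
      intro i
      simpa using h0 i)
  refine ⟨fun i j => S i (b - 1 - j), fun i => by simpa using s0 i, ?_, ?_⟩
  · intro i j h1 h2 h3 h4
    have := s1 i (b - 1 - j) h1 h2 (by omega) (by omega)
    have e1 : b - 1 - (b - 1 - j) = j := by ring
    have e2 : b - (b - 1 - j) = j + 1 := by ring
    simp only [e1, e2] at this
    rw [Vt i j h1 h2 h3 h4]
    exact this
  · intro i j h1 h2 h3 h4
    have := s2 i (b - 1 - (j + 1)) h1 h2 (by omega) (by omega)
    have e1 : b - 1 - (b - 1 - (j + 1)) = j + 1 := by ring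
    have e2 : b - 1 - (j + 1) + 1 = b - 1 - j := by ring
    have e3 : b - 1 - (b - 1 - j) = j := by ring
    have e4 : b - (b - 1 - j) = j + 1 := by ring
    simp only [e1, e2, e3, e4] at this
    show S i (b - 1 - j) + S i (b - 1 - (j + 1)) = _
    rw [add_comm (S i (b - 1 - j)), add_comm (χ i j)]
    exact this

private theorem zeroAll {a b : ℤ} {A : Set V} (χ κ : ℤ → ℤ → ZMod 2)
    (hχ1 : ∀ i j, ((i, j) : V) ∈ A → χ i j = 1) (hχ0 : ∀ i j, ((i, j) : V) ∉ A → χ i j = 0)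
    (hL : ∀ z ∈ Rec (-1) a 0 (b - 1), z.1 = -1 → z ∈ A)
    (hR : ∀ z ∈ Rec (-1) a 0 (b - 1), z.1 = a → z ∉ A)
    (cL : ∀ z ∈ Rec (-1) a 0 (b - 1), z ∈ A → ∃ (j : ℤ) (w : lattice.Walk z (-1, j)),
      ∀ v ∈ w.support, v ∈ Rec (-1) a 0 (b - 1) ∧ v ∈ A)
    (cR : ∀ z ∈ Rec (-1) a 0 (b - 1), z ∉ A → ∃ (j : ℤ) (w : lattice.Walk z (a, j)),
      ∀ v ∈ w.support, v ∈ Rec (-1) a 0 (b - 1) ∧ v ∉ A)
    (S : ℤ → ℤ → ZMod 2) (r : ℤ) (hr : 0 ≤ r ∧ r ≤ b - 1) (s0 : ∀ i, S i r = 0)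
    (s1 : ∀ i j, -1 ≤ i → i + 1 ≤ a → 0 ≤ j → j ≤ b - 1 →
        S i j + S (i + 1) j = (χ i j + χ (i + 1) j) * κ (i + 1) j)
    (s2 : ∀ i j, -1 ≤ i → i ≤ a → 0 ≤ j → j + 1 ≤ b - 1 →
        S i j + S i (j + 1) = (χ i j + χ i (j + 1)) * κ (i + 1) (j + 1))
    (z : V) (hz : z ∈ Rec (-1) a 0 (b - 1)) : S z.1 z.2 = 0 := by
  have two : ∀ x : ZMod 2, x + x = 0 := by decide
  have eqof : ∀ x y : ZMod 2, x + y = 0 → x = y := by decide
  -- steps with equal `χ` do not change `S`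
  have step : ∀ x y : V, x ∈ Rec (-1) a 0 (b - 1) → y ∈ Rec (-1) a 0 (b - 1) →
      lattice.Adj x y → χ x.1 x.2 = χ y.1 y.2 → S x.1 x.2 = S y.1 y.2 := by
    intro x y hx hy hxy hc
    obtain ⟨x1, x2⟩ := x
    obtain ⟨y1, y2⟩ := y
    simp only [Rec, Set.mem_ofPred_eq] at hx hy
    simp only at hc ⊢
    rcases adj4 hxy with h | h | h | h <;> simp only [Prod.mk.injEq] at h <;>
      obtain ⟨rfl, rfl⟩ := h
    · apply eqof
      rw [s1 x1 y2 (by omega) (by omega) (by omega) (by omega), hc, two, zero_mul]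
    · symm
      apply eqof
      rw [s1 y1 x2 (by omega) (by omega) (by omega) (by omega), hc, two, zero_mul]
    · apply eqof
      rw [s2 y1 x2 (by omega) (by omega) (by omega) (by omega), hc, two, zero_mul]
    · symm
      apply eqof
      rw [s2 x1 y2 (by omega) (by omega) (by omega) (by omega), hc, two, zero_mul]
  have walkA : ∀ (x y : V) (w : lattice.Walk x y),
      (∀ v ∈ w.support, v ∈ Rec (-1) a 0 (b - 1) ∧ v ∈ A) → S x.1 x.2 = S y.1 y.2 := by
    intro x y w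
    induction w with
    | nil => intro _; rfl
    | cons h p ih =>
      intro hv
      rename_i x0 y0 z0
      have h3 := hv y0 (by simp)
      have h4 := hv x0 (by simp)
      rw [step x0 y0 h4.1 h3.1 h (by rw [hχ1 _ _ h4.2, hχ1 _ _ h3.2])]
      exact ih (fun v hv' => hv v (by simp [hv']))
  have walkB : ∀ (x y : V) (w : lattice.Walk x y),
      (∀ v ∈ w.support, v ∈ Rec (-1) a 0 (b - 1) ∧ v ∉ A) → S x.1 x.2 = S y.1 y.2 := by
    intro x y w
    induction w with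
    | nil => intro _; rfl
    | cons h p ih =>
      intro hv
      rename_i x0 y0 z0
      have h3 := hv y0 (by simp)
      have h4 := hv x0 (by simp)
      rw [step x0 y0 h4.1 h3.1 h (by rw [hχ0 _ _ h4.2, hχ0 _ _ h3.2])]
      exact ih (fun v hv' => hv v (by simp [hv']))
  -- columns
  have colc : ∀ c : ℤ, -1 ≤ c → c ≤ a → (∀ j j', 0 ≤ j → j ≤ b - 1 → 0 ≤ j' → j' ≤ b - 1 →
      χ c j = χ c j') → ∀ j, 0 ≤ j → j ≤ b - 1 → S c j = 0 := by
    intro c hc1 hc2 hcc
    have base : ∀ n : ℕ, (n : ℤ) ≤ b - 1 → S c n = S c 0 := by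
      intro n
      induction n with
      | zero => intro _; rfl
      | succ n ih =>
        intro hn
        push_cast at hn ⊢
        rw [← ih (by omega)]
        symm
        apply eqof
        rw [s2 c n hc1 hc2 (by omega) (by omega), hcc n (n + 1) (by omega) (by omega) (by omega)
          (by omega), two, zero_mul]
    intro j hj1 hj2
    obtain ⟨n, rfl⟩ := Int.eq_ofNat_of_zero_le hj1
    obtain ⟨m, hm⟩ := Int.eq_ofNat_of_zero_le hr.1
    rw [base n hj2, ← base m (by omega), ← hm, s0]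
  by_cases hzA : z ∈ A
  · obtain ⟨j, w, hw⟩ := cL z hz hzA
    rw [walkA _ _ w hw]
    have hj := (hw (-1, j) w.end_mem_support).1
    simp only [Rec, Set.mem_ofPred_eq] at hj
    simp only
    refine colc (-1) (by omega) (by omega) ?_ j (by omega) (by omega)
    intro j j' h1 h2 h3 h4
    rw [hχ1 _ _ (hL (-1, j) (by simp only [Rec, Set.mem_ofPred_eq]; omega) rfl),
      hχ1 _ _ (hL (-1, j') (by simp only [Rec, Set.mem_ofPred_eq]; omega) rfl)]
  · obtain ⟨j, w, hw⟩ := cR z hz hzA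
    rw [walkB _ _ w hw]
    have hj := (hw (a, j) w.end_mem_support).1
    simp only [Rec, Set.mem_ofPred_eq] at hj
    simp only
    refine colc a (by omega) (by omega) ?_ j (by omega) (by omega)
    intro j j' h1 h2 h3 h4
    rw [hχ0 _ _ (hR (a, j) (by simp only [Rec, Set.mem_ofPred_eq]; omega) rfl),
      hχ0 _ _ (hR (a, j') (by simp only [Rec, Set.mem_ofPred_eq]; omega) rfl)]

/-- The general contradiction: if the component of `u` in `B` misses the row `r'`. -/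
private theorem wallAux {a b : ℤ} (hb : 1 ≤ b) {A : Set V}
    (hL : ∀ z ∈ Rec (-1) a 0 (b - 1), z.1 = -1 → z ∈ A)
    (hR : ∀ z ∈ Rec (-1) a 0 (b - 1), z.1 = a → z ∉ A)
    (cL : ∀ z ∈ Rec (-1) a 0 (b - 1), z ∈ A → ∃ (j : ℤ) (w : lattice.Walk z (-1, j)),
      ∀ v ∈ w.support, v ∈ Rec (-1) a 0 (b - 1) ∧ v ∈ A)
    (cR : ∀ z ∈ Rec (-1) a 0 (b - 1), z ∉ A → ∃ (j : ℤ) (w : lattice.Walk z (a, j)),
      ∀ v ∈ w.support, v ∈ Rec (-1) a 0 (b - 1) ∧ v ∉ A)
    {z z' : V} (hz : z ∈ Rec (-1) a 0 (b - 1)) (hz' : z' ∈ Rec (-1) a 0 (b - 1)) (hA : z ∈ A)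
    (hA' : z' ∉ A) (hadj : lattice.Adj z z') {u : V} (hu : u ∈ cr z z') (r : ℤ)
    (hr : r = 0 ∨ r = b) :
    ∃ x : ℤ, Con (bdr (Rec (-1) a 0 (b - 1)) A) (Rec 0 a 0 b) u (x, r) := by
  classical
  by_contra hno
  push Not at hno
  set B := bdr (Rec (-1) a 0 (b - 1)) A with hB
  set κ : ℤ → ℤ → ZMod 2 := fun x y => if Con B (Rec 0 a 0 b) u (x, y) then 1 else 0 with hκ
  set χ : ℤ → ℤ → ZMod 2 := fun x y => if ((x, y) : V) ∈ A then 1 else 0 with hχ
  have two : ∀ x : ZMod 2, x + x = 0 := by decide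
  -- closure
  have clos : ∀ p q : V, lattice.Adj p q → q ∈ Rec 0 a 0 b → s(p, q) ∈ B →
      Con B (Rec 0 a 0 b) u p → Con B (Rec 0 a 0 b) u q := by
    intro p q hpq hq he hp
    have hp' : p ∈ Rec 0 a 0 b := by
      obtain ⟨w, hw, _⟩ := hp
      exact hw p w.end_mem_support
    refine con_trans hp ⟨SimpleGraph.Walk.cons hpq SimpleGraph.Walk.nil, ?_, ?_⟩
    · intro v hv
      simp only [SimpleGraph.Walk.support_cons, SimpleGraph.Walk.support_nil, List.mem_cons,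
        List.not_mem_nil, or_false] at hv
      rcases hv with rfl | rfl
      · exact hp'
      · exact hq
    · intro e he'
      simp only [SimpleGraph.Walk.edges_cons, SimpleGraph.Walk.edges_nil, List.mem_cons,
        List.not_mem_nil, or_false] at he'
      rw [he']
      exact he
  have inB : ∀ x y : V, x ∈ Rec (-1) a 0 (b - 1) → y ∈ Rec (-1) a 0 (b - 1) → lattice.Adj x y →
      χ x.1 x.2 + χ y.1 y.2 ≠ 0 → cr x y ∈ B := by
    intro x y hx hy hxy hne
    simp only [hχ] at hne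
    by_cases h1 : x ∈ A <;> by_cases h2 : y ∈ A
    · exfalso
      apply hne
      rw [if_pos h1, if_pos h2]
      decide
    · exact ⟨x, y, hx, hy, h1, h2, hxy, rfl⟩
    · exact ⟨y, x, hy, hx, h2, h1, hxy.symm, cr_comm _ _⟩
    · exfalso
      apply hne
      rw [if_neg h1, if_neg h2]
      decide
  have H : ∀ i j, -1 ≤ i → i ≤ a → 0 ≤ j → j + 1 ≤ b - 1 →
      (χ i j + χ i (j + 1)) * κ i (j + 1) = (χ i j + χ i (j + 1)) * κ (i + 1) (j + 1) := by
    intro i j h1 h2 h3 h4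
    by_cases hne : χ i j + χ i (j + 1) = 0
    · rw [hne, zero_mul, zero_mul]
    · have hi : i ≠ -1 := by
        intro hi
        apply hne
        simp only [hχ]
        rw [if_pos (hL (i, j) (by simp only [Rec, Set.mem_ofPred_eq]; omega) hi),
          if_pos (hL (i, j + 1) (by simp only [Rec, Set.mem_ofPred_eq]; omega) hi)]
        decide
      have hi' : i ≠ a := by
        intro hi
        apply hne
        simp only [hχ]
        rw [if_neg (hR (i, j) (by simp only [Rec, Set.mem_ofPred_eq]; omega) hi),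
          if_neg (hR (i, j + 1) (by simp only [Rec, Set.mem_ofPred_eq]; omega) hi)]
        decide
      have he := inB (i, j) (i, j + 1) (by simp only [Rec, Set.mem_ofPred_eq]; omega)
        (by simp only [Rec, Set.mem_ofPred_eq]; omega) (adj_up i j) hne
      rw [cr_up] at he
      congr 1
      simp only [hκ]
      have h5 : Con B (Rec 0 a 0 b) u (i, j + 1) ↔ Con B (Rec 0 a 0 b) u (i + 1, j + 1) :=
        ⟨clos _ _ (adj_right i (j + 1)) (by simp only [Rec, Set.mem_ofPred_eq]; omega) he,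
          clos _ _ (adj_right i (j + 1)).symm (by simp only [Rec, Set.mem_ofPred_eq]; omega)
            (by rw [Sym2.eq_swap]; exact he)⟩
      rw [if_congr h5 rfl rfl]
  have Vt : ∀ i j, -1 ≤ i → i + 1 ≤ a → 0 ≤ j → j ≤ b - 1 →
      (χ i j + χ (i + 1) j) * κ (i + 1) j = (χ i j + χ (i + 1) j) * κ (i + 1) (j + 1) := by
    intro i j h1 h2 h3 h4
    by_cases hne : χ i j + χ (i + 1) j = 0
    · rw [hne, zero_mul, zero_mul]
    · have he := inB (i, j) (i + 1, j) (by simp only [Rec, Set.mem_ofPred_eq]; omega)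
        (by simp only [Rec, Set.mem_ofPred_eq]; omega) (adj_right i j) hne
      rw [cr_right] at he
      congr 1
      simp only [hκ]
      have h5 : Con B (Rec 0 a 0 b) u (i + 1, j) ↔ Con B (Rec 0 a 0 b) u (i + 1, j + 1) :=
        ⟨clos _ _ (adj_up (i + 1) j) (by simp only [Rec, Set.mem_ofPred_eq]; omega) he,
          clos _ _ (adj_up (i + 1) j).symm (by simp only [Rec, Set.mem_ofPred_eq]; omega)
            (by rw [Sym2.eq_swap]; exact he)⟩
      rw [if_congr h5 rfl rfl]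
  have hpot : ∃ (S : ℤ → ℤ → ZMod 2) (r' : ℤ), (0 ≤ r' ∧ r' ≤ b - 1) ∧ (∀ i, S i r' = 0) ∧
      (∀ i j, -1 ≤ i → i + 1 ≤ a → 0 ≤ j → j ≤ b - 1 →
        S i j + S (i + 1) j = (χ i j + χ (i + 1) j) * κ (i + 1) j) ∧
      (∀ i j, -1 ≤ i → i ≤ a → 0 ≤ j → j + 1 ≤ b - 1 →
        S i j + S i (j + 1) = (χ i j + χ i (j + 1)) * κ (i + 1) (j + 1)) := by
    rcases hr with rfl | rfl
    · obtain ⟨S, s0, s1, s2⟩ := pot (b := b) (lo := -1) (hi := a) χ κ H Vt
        (fun i => by simp only [hκ]; rw [if_neg (hno i)])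
      exact ⟨S, 0, ⟨le_rfl, by omega⟩, s0, s1, s2⟩
    · obtain ⟨S, s0, s1, s2⟩ := potTop (b := r) (lo := -1) (hi := a) χ κ H Vt
        (fun i => by simp only [hκ]; rw [if_neg (hno i)])
      exact ⟨S, r - 1, ⟨by omega, le_rfl⟩, s0, s1, s2⟩
  obtain ⟨S, r', hr', s0, s1, s2⟩ := hpot
  have zero := zeroAll χ κ (fun i j h => by simp only [hχ]; rw [if_pos h])
    (fun i j h => by simp only [hχ]; rw [if_neg h]) hL hR cL cR S r' hr' s0 s1 s2
  have hS1 := zero z hz
  have hS2 := zero z' hz'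
  have hc1 : χ z.1 z.2 = 1 := by simp only [hχ]; exact if_pos hA
  have hc2 : χ z'.1 z'.2 = 0 := by simp only [hχ]; exact if_neg hA'
  have heB : cr z z' ∈ B := ⟨z, z', hz, hz', hA, hA', hadj, rfl⟩
  have one : (1 : ZMod 2) ≠ 0 := by decide
  -- the four cases
  have key : ∀ p q : V, cr z z' = s(p, q) → lattice.Adj p q → p ∈ Rec 0 a 0 b → q ∈ Rec 0 a 0 b →
      κ p.1 p.2 = 1 ∧ κ q.1 q.2 = 1 := by
    intro p q hpq hadj' hp hq
    rw [hpq] at hu heB
    have huu : ∀ v ∈ Rec 0 a 0 b, Con B (Rec 0 a 0 b) v v := fun v hv =>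
      ⟨SimpleGraph.Walk.nil, by simpa using hv, by simp⟩
    rw [Sym2.mem_iff] at hu
    have h6 : Con B (Rec 0 a 0 b) u p ∧ Con B (Rec 0 a 0 b) u q := by
      rcases hu with rfl | rfl
      · exact ⟨huu _ hp, clos _ _ hadj' hq heB (huu _ hp)⟩
      · exact ⟨clos _ _ hadj'.symm hp (by rw [Sym2.eq_swap]; exact heB) (huu _ hq), huu _ hq⟩
    simp only [hκ]
    exact ⟨if_pos h6.1, if_pos h6.2⟩
  obtain ⟨z1, z2⟩ := z
  obtain ⟨z1', z2'⟩ := z'
  simp only at hS1 hS2 hc1 hc2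
  have hz0 := hz
  have hz0' := hz'
  simp only [Rec, Set.mem_ofPred_eq] at hz0 hz0'
  rcases adj4 hadj with h | h | h | h <;> simp only [Prod.mk.injEq] at h <;>
      obtain ⟨rfl, rfl⟩ := h
  · have h7 := key _ _ (cr_right z1 z2') (adj_up _ _) (by simp only [Rec, Set.mem_ofPred_eq]; omega)
      (by simp only [Rec, Set.mem_ofPred_eq]; omega)
    have h8 := s1 z1 z2' (by omega) (by omega) (by omega) (by omega)
    rw [hS1, hS2, hc1, hc2] at h8
    have h9 : κ (z1 + 1) z2' = 1 := h7.1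
    rw [h9] at h8
    exact absurd h8 (by decide)
  · have h7 := key _ _ ((cr_comm _ _).trans (cr_right z1' z2)) (adj_up _ _)
      (by simp only [Rec, Set.mem_ofPred_eq]; omega)
      (by simp only [Rec, Set.mem_ofPred_eq]; omega)
    have h8 := s1 z1' z2 (by omega) (by omega) (by omega) (by omega)
    rw [hS1, hS2, hc1, hc2] at h8
    have h9 : κ (z1' + 1) z2 = 1 := h7.1
    rw [h9] at h8
    exact absurd h8 (by decide)
  · have hn1 : z1' ≠ -1 := fun h => hA' (hL _ hz' h)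
    have hn2 : z1' ≠ a := fun h => (hR _ hz h) hA
    have h7 := key _ _ (cr_up z1' z2) (adj_right _ _) (by simp only [Rec, Set.mem_ofPred_eq]; omega)
      (by simp only [Rec, Set.mem_ofPred_eq]; omega)
    have h8 := s2 z1' z2 (by omega) (by omega) (by omega) (by omega)
    rw [hS1, hS2, hc1, hc2] at h8
    have h9 : κ (z1' + 1) (z2 + 1) = 1 := h7.2
    rw [h9] at h8
    exact absurd h8 (by decide)
  · have hn1 : z1 ≠ -1 := fun h => hA' (hL _ hz' h)
    have hn2 : z1 ≠ a := fun h => (hR _ hz h) hA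
    have h7 := key _ _ ((cr_comm _ _).trans (cr_up z1 z2')) (adj_right _ _)
      (by simp only [Rec, Set.mem_ofPred_eq]; omega)
      (by simp only [Rec, Set.mem_ofPred_eq]; omega)
    have h8 := s2 z1 z2' (by omega) (by omega) (by omega) (by omega)
    rw [hS1, hS2, hc1, hc2] at h8
    have h9 : κ (z1 + 1) (z2' + 1) = 1 := h7.2
    rw [h9] at h8
    exact absurd h8 (by decide)

theorem wall {a b : ℤ} (hb : 1 ≤ b) {A : Set V}
    (hL : ∀ z ∈ Rec (-1) a 0 (b - 1), z.1 = -1 → z ∈ A)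
    (hR : ∀ z ∈ Rec (-1) a 0 (b - 1), z.1 = a → z ∉ A)
    (cL : ∀ z ∈ Rec (-1) a 0 (b - 1), z ∈ A → ∃ (j : ℤ) (w : lattice.Walk z (-1, j)),
      ∀ v ∈ w.support, v ∈ Rec (-1) a 0 (b - 1) ∧ v ∈ A)
    (cR : ∀ z ∈ Rec (-1) a 0 (b - 1), z ∉ A → ∃ (j : ℤ) (w : lattice.Walk z (a, j)),
      ∀ v ∈ w.support, v ∈ Rec (-1) a 0 (b - 1) ∧ v ∉ A)
    {z z' : V} (hz : z ∈ Rec (-1) a 0 (b - 1)) (hz' : z' ∈ Rec (-1) a 0 (b - 1)) (hA : z ∈ A)
    (hA' : z' ∉ A) (hadj : lattice.Adj z z') {u : V} (hu : u ∈ cr z z') :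
    (∃ x : ℤ, Con (bdr (Rec (-1) a 0 (b - 1)) A) (Rec 0 a 0 b) u (x, 0)) ∧
      ∃ x : ℤ, Con (bdr (Rec (-1) a 0 (b - 1)) A) (Rec 0 a 0 b) u (x, b) := by
  exact ⟨wallAux hb hL hR cL cR hz hz' hA hA' hadj hu 0 (Or.inl rfl),
    wallAux hb hL hR cL cR hz hz' hA hA' hadj hu b (Or.inr rfl)⟩

end Pool.Agent.Work.MP_9a767b_pr.Z
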